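import Pool.Agent.H86.VS.Rop

/-!
Commutators of the polarization operators.
-/

set_option linter.unusedSectionVars false

namespace Pool.Agent.H86.VS

open scoped BigOperators
open Pool.Agent.H69.VS

variable {σ : Type} [Fintype σ] [DecidableEq σ]

theorem lett (φ : (σ → ℕ) → ℂ) {a b c d : σ} (hab : a ≠ b) (hcd : c ≠ d) (e : σ → ℕ) :
    (e a : ℂ) * ((((e - ep a + ep b) c : ℕ) : ℂ) * φ (e - ep a + ep b - ep c + ep d)) -
      (e c : ℂ) * ((((e - ep c + ep d) a : ℕ) : ℂ) * φ (e - ep c + ep d - ep a + ep b)) =
    (if b = c then (e a : ℂ) * φ (e - ep a + ep d) else 0) -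
      (if a = d then (e c : ℂ) * φ (e - ep c + ep b) else 0) := by
  by_cases hac : a = c
  · subst hac
    have h1 : (e - ep a + ep b) a = e a - 1 := by
      simp [ep, hab]
    have h2 : (e - ep a + ep d) a = e a - 1 := by
      simp [ep, hcd]
    rw [h1, h2, if_neg (fun h => hab h.symm), if_neg (fun h => hcd h)]
    have h3 : e - ep a + ep b - ep a + ep d = e - ep a + ep d - ep a + ep b := by
      funext z
      simp only [ep, Pi.add_apply, Pi.sub_apply, Pi.single_apply]
      by_cases hz : z = a
      · subst hz; simp [hab, hcd]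
      · simp only [if_neg hz]
        omega
    rw [h3]; ring
  · have h1 : e a ≠ 0 → e c ≠ 0 →
        e - ep a + ep b - ep c + ep d = e - ep c + ep d - ep a + ep b := by
      intro ha hc
      funext z
      simp only [ep, Pi.add_apply, Pi.sub_apply, Pi.single_apply]
      by_cases hz : z = a
      · subst hz
        simp only [if_neg hac, if_true]
        omega
      · by_cases hz' : z = c
        · subst hz'
          simp only [if_neg hz, if_true]
          omega
        · simp only [if_neg hz, if_neg hz']
          omega
    have e1 : (e - ep a + ep b) c = e c + (if b = c then 1 else 0) := by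
      have hca : c ≠ a := fun h => hac h.symm
      by_cases hbc : b = c
      · subst hbc; simp [ep, hca]
      · have hcb : c ≠ b := fun h => hbc h.symm
        simp [ep, hca, hcb, hbc]
    have e2 : (e - ep c + ep d) a = e a + (if a = d then 1 else 0) := by
      by_cases had : a = d
      · subst had; simp [ep, hac]
      · simp [ep, hac, had]
    rw [e1, e2]
    by_cases hbc : b = c
    · subst hbc
      have e3 : e a ≠ 0 → e - ep a + ep b - ep b + ep d = e - ep a + ep d := by
        intro _
        funext z; simp
      by_cases had : a = d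
      · subst had
        have e4 : e - ep b + ep a - ep a + ep b = e - ep b + ep b := by
          funext z; simp
        simp only [if_true]
        by_cases ha : e a = 0
        · rw [ha]
          by_cases hb : e b = 0
          · rw [hb]; simp
          · rw [e4]; push_cast; ring
        · rw [e3 ha, e4]
          have e5 : e - ep a + ep a = e := sub_ep_add ha
          rw [e5]
          by_cases hb : e b = 0
          · rw [hb]; push_cast; ring
          · rw [sub_ep_add hb]; push_cast; ring
      · simp only [if_true, if_neg had]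
        by_cases ha : e a = 0
        · rw [ha]; simp
        · by_cases hb : e b = 0
          · rw [hb, e3 ha]; push_cast; ring
          · rw [← h1 ha hb, e3 ha]; push_cast; ring
    · simp only [if_neg hbc]
      by_cases had : a = d
      · subst had
        simp only [if_true]
        have e4 : e - ep c + ep a - ep a + ep b = e - ep c + ep b := by
          funext z; simp
        by_cases ha : e a = 0
        · rw [ha, e4]; push_cast; ring
        · by_cases hc : e c = 0
          · rw [hc]; push_cast; ring
          · rw [h1 ha hc, e4]; push_cast; ring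
      · simp only [if_neg had]
        by_cases ha : e a = 0
        · rw [ha]; push_cast; ring
        · by_cases hc : e c = 0
          · rw [hc]; push_cast; ring
          · rw [h1 ha hc]; push_cast; ring

theorem rW_comm {a b c d : σ} (hab : a ≠ b) (hcd : c ≠ d) :
    ∀ (w : List (Lt σ)), nT w = 0 → ∀ (F : Fn σ) (f : σ → ℕ),
    rW a b (rW c d F) w f - rW c d (rW a b F) w f =
      (if b = c then rW a d F w f else 0) - (if a = d then rW c b F w f else 0)
  | [], _, F, f => by simp
  | Lt.T y :: w, h, F, f => by simp [nT] at h
  | Lt.E e :: w, h, F, f => by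
    have ih := rW_comm hab hcd w (by simpa [nT] using h) (Af (Lt.E e) F) f
    have h1 := lett (fun e => F (Lt.E e :: w) f) hab hcd e
    have g : ∀ (p q r s : σ), rW p q (rW r s F) (Lt.E e :: w) f =
        (e p : ℂ) * ((((e - ep p + ep q) r : ℕ) : ℂ) * F (Lt.E (e - ep p + ep q - ep r + ep s) :: w) f
          + rW r s (Af (Lt.E (e - ep p + ep q)) F) w f)
        + ((e r : ℂ) * rW p q (Af (Lt.E (e - ep r + ep s)) F) w f
          + rW p q (rW r s (Af (Lt.E e) F)) w f) := by
      intro p q r s
      simp only [rW, AE_rW, rW_add, rW_smul]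
    rw [g a b c d, g c d a b]
    simp only [rW]
    have e1 : ∀ (x : ℕ), ((x : ℕ) : ℂ) = (x : ℂ) := fun _ => rfl
    split_ifs at ih h1 ⊢ <;> linear_combination ih + h1

/-- no even letters -/
def E0 (F : Fn σ) : Prop := ∀ w f, nT w ≠ 0 → F w f = 0

theorem rW_nT (k i : σ) : ∀ (w : List (Lt σ)) (F : Fn σ) (f : σ → ℕ),
    (∀ w' f', nT w' = nT w → F w' f' = 0) → rW k i F w f = 0
  | [], F, f, _ => by simp
  | Lt.T y :: w, F, f, h => by
    simp only [rW]
    rw [h _ _ (by simp [nT]), rW_nT k i w (Af (Lt.T y) F) f (fun w' f' hw => h _ _ (by simp [nT, hw]))]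
    ring
  | Lt.E e :: w, F, f, h => by
    simp only [rW]
    rw [h _ _ (by simp [nT]), rW_nT k i w (Af (Lt.E e) F) f (fun w' f' hw => h _ _ (by simp [nT, hw]))]
    ring

theorem E0.rW {F : Fn σ} (h : E0 F) (k i : σ) : E0 (rW k i F) := by
  intro w f hw
  exact rW_nT k i w F f (fun w' f' hw' => h w' f' (by rw [hw']; exact hw))

theorem E0.R {F : Fn σ} (h : E0 F) (k i : σ) : E0 (R k i F) := by
  intro w f hw
  have h1 := h.rW k i w f hw
  have h2 : ta k (sg (ep i) F) w f = 0 := by
    simp only [ta, sg, h w _ hw, mul_zero]
  simp only [VS.R, Pi.add_apply, h1, h2, add_zero]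

theorem E0_of_Sp {D t : ℕ} {α : σ → ℕ} {F : Fn σ} (h : Sp D 0 0 t 0 α F) : E0 F := by
  intro w f hw
  by_contra hne
  have := (h w f hne).2.1
  omega

theorem rW_ta (k i j : σ) (F : Fn σ) : rW k i (ta j F) = ta j (rW k i F) := by
  rw [← sub_eq_zero]
  refine rec_zero (fun F => rW k i (ta j F) - ta j (rW k i F)) (by simp [ta]) ?_ F
  intro F x
  cases x with
  | T y => exact ⟨1, by simp only [Af_sub, AT_rW, Af_ta, ta_add, ta_smul]; module⟩
  | E e => exact ⟨1, by simp only [Af_sub, AE_rW, Af_ta, ta_add, ta_smul]; module⟩

/-- commutators of the polarization operators -/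
theorem R_comm {a b c d : σ} (hab : a ≠ b) (hcd : c ≠ d) {F : Fn σ} (hF : E0 F) :
    R a b (R c d F) = R c d (R a b F) + ((if b = c then R a d F else 0) -
      (if a = d then R c b F else 0)) := by
  funext w f
  by_cases hw : nT w = 0
  · have h1 := rW_comm hab hcd w hw F f
    have h2 := lett (F w) hab hcd f
    have h3 : ∀ (p q r s : σ), rW p q (ta r (sg (ep s) F)) = ta r (sg (ep s) (rW p q F)) := by
      intro p q r s
      rw [rW_ta, rW_sg]
    have g : ∀ (p q r s : σ), R p q (R r s F) w f = rW p q (rW r s F) w f +
        (ta r (sg (ep s) (rW p q F)) w f + ta p (sg (ep q) (rW r s F)) w f) +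
        (f p : ℂ) * ((((f - ep p + ep q) r : ℕ) : ℂ) * F w (f - ep p + ep q - ep r + ep s)) := by
      intro p q r s
      have e1 : R p q (R r s F) = rW p q (rW r s F) + (ta r (sg (ep s) (rW p q F)) +
          ta p (sg (ep q) (rW r s F))) + ta p (sg (ep q) (ta r (sg (ep s) F))) := by
        simp only [R, rW_add', sg_add, ta_add, h3]; abel
      rw [e1]
      rfl
    have k1 : ∀ (p q : σ), R p q F w f = rW p q F w f + (f p : ℂ) * F w (f - ep p + ep q) :=
      fun p q => rfl
    simp only [Pi.add_apply, Pi.sub_apply]
    rw [g a b c d, g c d a b]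
    by_cases hbc : b = c
    · rw [if_pos hbc] at h1 h2 ⊢
      by_cases had : a = d
      · rw [if_pos had] at h1 h2 ⊢
        rw [k1, k1]
        linear_combination h1 + h2
      · rw [if_neg had] at h1 h2 ⊢
        rw [k1]
        simp only [Pi.zero_apply]
        linear_combination h1 + h2
    · rw [if_neg hbc] at h1 h2 ⊢
      by_cases had : a = d
      · rw [if_pos had] at h1 h2 ⊢
        rw [k1]
        simp only [Pi.zero_apply]
        linear_combination h1 + h2
      · rw [if_neg had] at h1 h2 ⊢
        simp only [Pi.zero_apply]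
        linear_combination h1 + h2
  · simp only [Pi.add_apply, Pi.sub_apply]
    rw [(hF.R c d).R a b w f hw, (hF.R a b).R c d w f hw]
    have h1 : (if b = c then R a d F else 0) w f = 0 := by
      split_ifs
      · exact hF.R a d w f hw
      · rfl
    have h2 : (if a = d then R c b F else 0) w f = 0 := by
      split_ifs
      · exact hF.R c b w f hw
      · rfl
    rw [h1, h2]; ring

end Pool.Agent.H86.VS
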