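import Pool.Agent.H86.VS.Gth

/-!
The estimate of the evaluations.
-/

set_option linter.unusedSectionVars false

namespace Pool.Agent.H86.VS

open scoped BigOperators
open Pool.Agent.H69.VS

variable {σ : Type} [Fintype σ] [DecidableEq σ]

section
variable {D : ℕ} {x y z u : σ} {α : σ → ℕ} {X : Fn σ}

theorem Zt_G_wt (hD : 1 ≤ D) (h : St D x y z u α X) {a b c m : σ → ℕ} (hm : m x = 0)
    (hne : Zt D x y (G3 X a b c) m ≠ 0) :
    (a + b + c ≤ α ∧ dg a + 1 = D ∧ dg b + 1 = D ∧ dg c + 1 = D) ∧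
    (α - (a + b + c)) x = cc D ∧ (α - (a + b + c)) y + (D - 1) = cc D + m y ∧
    (α - (a + b + c)) z = m z ∧ (α - (a + b + c)) u = m u := by
  have h0 : G3 X a b c ≠ 0 := by
    intro h0; rw [h0, Zt_zero] at hne; exact hne rfl
  have h1 := Zt_wt (G3_sp h a b c) hne
  have yx := h.h4.xy.symm
  have k1 := congrFun h1 x
  have k2 := congrFun h1 y
  have k3 := congrFun h1 z
  have k4 := congrFun h1 u
  simp only [Pi.add_apply, ep, Pi.single_eq_same, Pi.single_apply, if_neg h.h4.xy.symm,
    if_neg h.h4.xz.symm, if_neg h.h4.xu.symm] at k1 k2 k3 k4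
  rw [md_Mw_x hD yx, hm] at k1
  have k5 := md_Mw_y (D := D) hD yx
  rw [md_Mw_k h.h4.xz.symm h.h4.yz.symm] at k3
  rw [md_Mw_k h.h4.xu.symm h.h4.yu.symm] at k4
  refine ⟨G3_ok h h0, ?_, ?_, ?_, ?_⟩
  · omega
  · omega
  · omega
  · omega

theorem four_sum (h4 : Four x y z u) {m : σ → ℕ} (hm : ∀ i, i ≠ x → i ≠ y → i ≠ z → i ≠ u → m i = 0) :
    dg m = m x + m y + m z + m u := by
  have h1 : dg m = ∑ i ∈ ({x, y, z, u} : Finset σ), m i := by
    apply dg_eq_sum
    intro i hi
    simp only [Finset.mem_insert, Finset.mem_singleton, not_or] at hi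
    exact hm i hi.1 hi.2.1 hi.2.2.1 hi.2.2.2
  rw [h1, Finset.sum_insert, Finset.sum_insert, Finset.sum_insert, Finset.sum_singleton]
  · ring
  · simp [h4.zu]
  · simp [h4.yz, h4.yu]
  · simp [h4.xy, h4.xz, h4.xu]

/-- one step of the estimate -/
theorem est_step (hD : 3 ≤ D) (h : St D x y z u α X) {a b c m : σ → ℕ} (hm : m x = 0)
    (hne : Zt D x y (G3 X a b c) m ≠ 0) {k : σ} (hk : k = z ∨ k = u) (hmk : m k ≠ 0) :
    (((α - (a + b + c)) y + 1 : ℕ) : ℂ) * Zt D x y (G3 X a b c) m =
      -((a y : ℂ) * Zt D x y (G3 X (a + ep k - ep y) b c) (m - ep k + ep y) +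
        (b y : ℂ) * Zt D x y (G3 X a (b + ep k - ep y) c) (m - ep k + ep y) +
        (c y : ℂ) * Zt D x y (G3 X a b (c + ep k - ep y)) (m - ep k + ep y)) := by
  obtain ⟨⟨g1, g2, g3, g4⟩, w1, w2, w3, w4⟩ := Zt_G_wt (by omega) h hm hne
  have hco := G3_co (by omega) h g1 g2 g3 g4
  have hp := h.hR
  simp only [List.pairwise_cons, List.mem_cons, List.not_mem_nil, or_false,
    forall_eq_or_imp, forall_eq, false_imp_iff, implies_true, List.Pairwise.nil,
    and_true] at hp
  obtain ⟨⟨pxy, pxz, pxu⟩, ⟨pyz, pyu⟩, pzu⟩ := hp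
  have hstep : Zt D x y (R y k (G3 X a b c)) (m - ep k + ep y) =
      (((α - (a + b + c)) y + 1 : ℕ) : ℂ) * Zt D x y (G3 X a b c) m := by
    rcases hk with rfl | rfl
    · exact Zt_step hD h.h4.swap hco.swap w1 w3.symm (by rw [w3]; exact hmk)
    · exact Zt_step hD h.h4 hco w1 w4.symm (by rw [w4]; exact hmk)
  have hb : Bn D (R y k X) := by
    rcases hk with rfl | rfl
    · exact pyz
    · exact pyu
  have hyk : y ≠ k := by
    rcases hk with rfl | rfl
    · exact h.h4.yz
    · exact h.h4.yu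
  have h1 := Zt_bn (x := x) (y := y) (G3_R hyk hb a b c) (m - ep k + ep y)
  rw [Zt_add, Zt_add, Zt_add, Zt_smul, Zt_smul, Zt_smul] at h1
  rw [← hstep]
  linear_combination h1

/-- the estimate -/
theorem est (hD : 3 ≤ D) (h : St D x y z u α X) {hh : ℕ} (hα : α y = cc D + hh) {Mx : ℝ}
    (hM : ∀ a b c, ‖Zt D x y (G3 X a b c) ((D - 1) • ep y)‖ ≤ Mx) :
    ∀ (j : ℕ) (m : σ → ℕ), m x = 0 → (∀ i, i ≠ x → i ≠ y → i ≠ z → i ≠ u → m i = 0) →
      m y + j = D - 1 → dg m = D - 1 → ∀ a b c,
      ‖Zt D x y (G3 X a b c) m‖ * ((cc D).descFactorial j : ℝ) ≤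
        ((hh + j).descFactorial j : ℝ) * Mx := by
  intro j
  have hM0 : 0 ≤ Mx := le_trans (norm_nonneg _) (hM 0 0 0)
  induction j with
  | zero =>
    intro m hmx hms hmy hmd a b c
    have h1 := four_sum h.h4 hms
    have h2 : m = (D - 1) • ep y := by
      funext i
      by_cases hi : i = y
      · subst hi; simp [ep]; omega
      · simp only [Pi.smul_apply, ep, Pi.single_apply, if_neg hi, smul_zero]
        by_cases h3 : i = x
        · rw [h3]; exact hmx
        · by_cases h4 : i = z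
          · rw [h4]; omega
          · by_cases h5 : i = u
            · rw [h5]; omega
            · exact hms i h3 hi h4 h5
    rw [h2]
    simp only [Nat.descFactorial_zero, Nat.cast_one, mul_one, one_mul]
    exact hM a b c
  | succ j ih =>
    intro m hmx hms hmy hmd a b c
    by_cases hz : Zt D x y (G3 X a b c) m = 0
    · rw [hz, norm_zero, zero_mul]
      positivity
    · have h1 := four_sum h.h4 hms
      have hk : ∃ k, (k = z ∨ k = u) ∧ m k ≠ 0 := by
        by_cases h2 : m z = 0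
        · exact ⟨u, Or.inr rfl, by omega⟩
        · exact ⟨z, Or.inl rfl, h2⟩
      obtain ⟨k, hk, hmk⟩ := hk
      have hkx : k ≠ x := by
        rcases hk with rfl | rfl
        · exact h.h4.xz.symm
        · exact h.h4.xu.symm
      have hky : k ≠ y := by
        rcases hk with rfl | rfl
        · exact h.h4.yz.symm
        · exact h.h4.yu.symm
      have hs := est_step hD h hmx hz hk hmk
      obtain ⟨⟨g1, g2, g3, g4⟩, w1, w2, w3, w4⟩ := Zt_G_wt (by omega) h hmx hz
      have i1 : (m - ep k + ep y) x = 0 := by simp [ep, hkx.symm, h.h4.xy, hmx]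
      have i2 : ∀ i, i ≠ x → i ≠ y → i ≠ z → i ≠ u → (m - ep k + ep y) i = 0 := by
        intro i e1 e2 e3 e4
        have := hms i e1 e2 e3 e4
        simp [ep, e2, this]
      have i3 : (m - ep k + ep y) y + j = D - 1 := by
        simp only [Pi.add_apply, Pi.sub_apply, ep, Pi.single_eq_same, Pi.single_apply,
          if_neg hky.symm]
        omega
      have i4 : dg (m - ep k + ep y) = D - 1 := by
        rw [dg_add, dg_ep, dg_sub m k hmk, hmd]
      have b1 := ih _ i1 i2 i3 i4 (a + ep k - ep y) b c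
      have b2 := ih _ i1 i2 i3 i4 a (b + ep k - ep y) c
      have b3 := ih _ i1 i2 i3 i4 a b (c + ep k - ep y)
      have hsum : a y + b y + c y = hh + j + 1 := by
        have e1 : (a + b + c) y ≤ α y := g1 y
        simp only [Pi.add_apply] at e1
        simp only [Pi.add_apply, Pi.sub_apply] at w2
        omega
      have hν : (α - (a + b + c)) y + 1 = cc D - j := by omega
      have hnorm := congrArg norm hs
      rw [norm_mul, norm_neg, Complex.norm_natCast, hν] at hnorm
      have hle := norm_add₃_le (a := (a y : ℂ) * Zt D x y (G3 X (a + ep k - ep y) b c)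
        (m - ep k + ep y)) (b := (b y : ℂ) * Zt D x y (G3 X a (b + ep k - ep y) c)
        (m - ep k + ep y)) (c := (c y : ℂ) * Zt D x y (G3 X a b (c + ep k - ep y))
        (m - ep k + ep y))
      rw [← hnorm] at hle
      simp only [norm_mul, Complex.norm_natCast] at hle
      rw [Nat.descFactorial_succ]
      have e5 : hh + (j + 1) = (hh + j) + 1 := by ring
      rw [e5, Nat.succ_descFactorial_succ]
      push_cast
      set P : ℝ := ((cc D).descFactorial j : ℝ) with hP
      set Q : ℝ := ((hh + j).descFactorial j : ℝ) * Mx with hQ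
      have hP0 : 0 ≤ P := by rw [hP]; positivity
      have hsumR : (a y : ℝ) + (b y : ℝ) + (c y : ℝ) = (hh : ℝ) + j + 1 := by exact_mod_cast hsum
      have e6 := mul_le_mul_of_nonneg_right hle hP0
      have f1 : (a y : ℝ) * (‖Zt D x y (G3 X (a + ep k - ep y) b c) (m - ep k + ep y)‖ * P) ≤
          (a y : ℝ) * Q := mul_le_mul_of_nonneg_left b1 (Nat.cast_nonneg _)
      have f2 : (b y : ℝ) * (‖Zt D x y (G3 X a (b + ep k - ep y) c) (m - ep k + ep y)‖ * P) ≤
          (b y : ℝ) * Q := mul_le_mul_of_nonneg_left b2 (Nat.cast_nonneg _)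
      have f3 : (c y : ℝ) * (‖Zt D x y (G3 X a b (c + ep k - ep y)) (m - ep k + ep y)‖ * P) ≤
          (c y : ℝ) * Q := mul_le_mul_of_nonneg_left b3 (Nat.cast_nonneg _)
      have e7 : ((hh : ℝ) + j + 1) * Q = (a y : ℝ) * Q + (b y : ℝ) * Q + (c y : ℝ) * Q := by
        rw [← hsumR]; ring
      calc ‖Zt D x y (G3 X a b c) m‖ * (((cc D - j : ℕ) : ℝ) * P)
          = ((cc D - j : ℕ) : ℝ) * ‖Zt D x y (G3 X a b c) m‖ * P := by ring
        _ ≤ _ := e6
        _ ≤ ((hh : ℝ) + j + 1) * Q := by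
          rw [e7]; linarith
        _ = ((hh : ℝ) + j + 1) * ((hh + j).descFactorial j : ℝ) * Mx := by rw [hQ]; ring

end

end Pool.Agent.H86.VS
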