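import Pool.Agent.H86.VS.Third

/-!
The third stage, conclusion.
-/

set_option linter.unusedSectionVars false

namespace Pool.Agent.H86.VS

open scoped BigOperators
open Pool.Agent.H69.VS

variable {σ : Type} [Fintype σ] [DecidableEq σ]

/-- primitives letter by letter, from the vanishing of the particular classes -/
theorem prim2 {D c t μ : ℕ} {α : σ → ℕ} {X : Fn σ} (hS : SS X) (hX : Sp D 0 c t (μ + c) α X)
    (hB : ∀ a : Multiset (σ → ℕ), Bn D (fixT X a)) :
    ∃ X' : Fn σ, SS X' ∧ Sp D 1 c t (μ + c) α X' ∧ dW D X' = X := by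
  have key : ∀ a : Multiset (σ → ℕ), ∃ B : Fn σ, SS B ∧ dW D B = fixT X a ∧
      (∀ w f, B w f ≠ 0 → w.length + 1 + a.card = t ∧ nT w = 0 ∧ md w + f + a.sum = α ∧
        (∀ x ∈ w, okL D x) ∧ (∀ y ∈ a, dg y + 1 = D) ∧ a.card = μ) := by
    intro a
    by_cases h0 : fixT X a = 0
    · exact ⟨0, SS.zero, by rw [h0, dW_zero'], fun w f h => absurd rfl h⟩
    · have h1 : ∃ w f, fixT X a w f ≠ 0 := by
        by_contra h2
        push Not at h2
        exact h0 (by funext w f; exact h2 w f)
      obtain ⟨w0, f0, h2⟩ := h1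
      have hw0 : nT w0 = 0 := by
        by_contra h3; apply h2; simp [fixT, h3]
      have h3 : X (mT a.toList ++ w0) f0 ≠ 0 := by
        intro h4; apply h2; simp [fixT, h4]
      obtain ⟨a1, a2, a3, a4⟩ := hX _ _ h3
      rw [List.length_append] at a1
      rw [nT_append, nT_mT, hw0] at a2
      rw [md_append, md_mT] at a3
      have hcard : a.toList.length = a.card := Multiset.length_toList a
      have hsum : a.toList.sum = a.sum := Multiset.sum_toList a
      have hmlen : (mT a.toList).length = a.card := by simp [mT]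
      rw [hcard] at a2
      rw [hmlen] at a1
      rw [hsum] at a3
      have hok : ∀ y ∈ a, dg y + 1 = D := by
        intro y hy
        have := a4 (Lt.T y) (by
          rw [List.mem_append]; left
          exact List.mem_map.2 ⟨y, Multiset.mem_toList.2 hy, rfl⟩)
        exact this
      have hμ : a.card = μ := by omega
      have hsp : Sp D 0 0 w0.length 0 (md w0 + f0) (fixT X a) := by
        intro w f hne
        have hw : nT w = 0 := by
          by_contra h3; apply hne; simp [fixT, h3]
        have h3 : X (mT a.toList ++ w) f ≠ 0 := by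
          intro h4; apply hne; simp [fixT, h4]
        obtain ⟨c1, c2, c3, c4⟩ := hX _ _ h3
        rw [List.length_append, hmlen] at c1
        rw [md_append, md_mT, hsum] at c3
        refine ⟨by omega, hw, ?_, fun x hx => c4 x (by rw [List.mem_append]; right; exact hx)⟩
        have : a.sum + (md w + f) = a.sum + (md w0 + f0) := by
          rw [← add_assoc, ← add_assoc, c3, a3]
        exact add_left_cancel this
      obtain ⟨U, u1, u2⟩ := hB a
      have b1 : SS (cut D 1 w0.length (md w0 + f0) U) := SS_cut u1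
      have b2 : Sp D 1 0 w0.length 0 (md w0 + f0) (cut D 1 w0.length (md w0 + f0) U) := Sp_cut
      have b3 : dW D (cut D 1 w0.length (md w0 + f0) U) = fixT X a := by
        refine dW_cut (G := 0) hsp ?_
        rw [u2, hW_zero', add_zero]
      refine ⟨_, b1, b3, ?_⟩
      intro w f hne
      obtain ⟨c1, c2, c3, c4⟩ := b2 w f hne
      refine ⟨by omega, by omega, ?_, c4, hok, hμ⟩
      rw [c3, ← a3]; abel
  choose B hB1 hB2 hB3 using key
  refine ⟨glue B, SS_glue B hB1, ?_, ?_⟩
  · intro w f hne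
    obtain ⟨c1, c2, c3, c4, c5, c6⟩ := hB3 _ _ _ hne
    have hcard : (Tm w).card = (TL w).length := rfl
    have hsum : (Tm w).sum = (TL w).sum := by simp [Tm]
    have hl := length_split w
    have hn := TL_length w
    have hm := md_split w
    rw [hcard] at c1 c6
    rw [hsum] at c3
    refine ⟨by omega, by omega, ?_, ?_⟩
    · rw [hm, ← c3]; abel
    · intro x hx
      rcases Ew_mem w x hx with ⟨y, hy, rfl⟩ | h
      · exact c5 y hy
      · exact c4 x h
  · funext w f
    rw [dW_glue, hB2]
    simp only [fixT, nT_Ew, if_true]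
    rw [← SS_sort' hS]

section
variable {D : ℕ} {x y z u : σ}

theorem fix_bn {α : σ → ℕ} {X : Fn σ} (h : St D x y z u α X)
    (hG : ∀ a b c, Bn D (G3 X a b c)) (a : Multiset (σ → ℕ)) : Bn D (fixT X a) := by
  by_cases hc : a.toList.length = 3
  · obtain ⟨p, q, r, hpqr⟩ := List.length_eq_three.1 hc
    have h1 : fixT X a = G3 X p q r := by
      funext w f
      simp only [fixT, hpqr]
      by_cases hw : nT w = 0
      · rw [if_pos hw]; rfl
      · rw [if_neg hw]
        by_contra hne
        have hne' : G3 X p q r w f ≠ 0 := fun h => hne h.symm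
        obtain ⟨b1, b2, b3, b4⟩ := h.sp _ _ hne'
        simp only [nT] at b2
        omega
    rw [h1]; exact hG p q r
  · have h1 : fixT X a = 0 := by
      funext w f
      by_contra hne
      have hne' : fixT X a w f ≠ 0 := hne
      have hw : nT w = 0 := by
        by_contra h3; apply hne'; simp [fixT, h3]
      have h3 : X (mT a.toList ++ w) f ≠ 0 := by
        intro h4; apply hne'; simp [fixT, h4]
      obtain ⟨b1, b2, b3, b4⟩ := h.sp _ _ h3
      rw [nT_append, nT_mT, hw] at b2
      omega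
    rw [h1]; exact Bn.zero

/-- smaller vanishing in coefficient degree `2 D - 1` -/
theorem small_b (hD : 4 ≤ D) (r : ℕ) (hr : r + 2 ≤ D) (β : σ → ℕ)
    (hβ : dg β = r * D + (2 * D - 1)) : Van D r β := by
  apply Van_Ng D (2 * D - 1) r
  · have := Ng_closed (D - 1) 2 1 (by omega)
    have e1 : D - 1 + 1 = D := by omega
    have e2 : 2 * (D - 1) + 1 = 2 * D - 1 := by omega
    rw [e1, e2] at this
    omega
  · omega

theorem small_c (hD : 4 ≤ D) (r : ℕ) (hr : r + 2 ≤ D) (β : σ → ℕ)
    (hβ : dg β + 1 = r * D + (2 * D - 1)) : Van D r β := by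
  apply Van_Ng D (2 * D - 2) r
  · have := Ng_closed (D - 1) 2 0 (by omega)
    have e1 : D - 1 + 1 = D := by omega
    have e2 : 2 * (D - 1) + 0 = 2 * D - 2 := by omega
    rw [e1, e2] at this
    omega
  · omega

/-- weights with exactly four nonzero entries -/
theorem four_case (hD : 4 ≤ D) {lam : σ → ℕ} (h4 : Four x y z u)
    (hpw : [x, y, z, u].Pairwise (fun a b => lam b ≤ lam a)) (hne : ∀ k ∈ [x, y, z, u], lam k ≠ 0)
    (hsup : ∀ i, i ≠ x → i ≠ y → i ≠ z → i ≠ u → lam i = 0)
    (hdg : dg lam = (D + 2) * D + (2 * D - 1))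
    (hmax : ∀ μ : σ → ℕ, dg μ = dg lam →
      Pool.Agent.H69.VS.sq lam < Pool.Agent.H69.VS.sq μ → Van D (D + 2) μ)
    {v : Fn σ} (hv : SS v) (sv : Sp D 0 0 (D + 2) 0 lam v) (dv : dW D v = 0) : Bn D v := by
  have hnd := h4.nodup
  set L := [x, y, z, u] with hL
  have hα := sub_sE hnd hne
  set α := lam - sE L with hαd
  obtain ⟨h1, h2, _⟩ := hwA hv sv dv L hnd α hα
  have hlen : L.length = 4 := rfl
  rw [hlen] at h1
  -- raising operators
  have hRv : L.Pairwise (fun k i => Bn D (R k i v)) := by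
    refine List.Pairwise.imp_of_mem ?_ (hpw.and hnd)
    rintro a b ha hb ⟨hle, hab⟩
    have hb0 : lam b ≠ 0 := hne b hb
    have e1 : lam = (lam - ep b) + ep b := (sub_ep_add hb0).symm
    have sF' : Sp D 0 0 (D + 2) 0 ((lam - ep b) + ep b) v := by rw [← e1]; exact sv
    exact Van.bn (hmax_of hmax (lam - ep b) a b e1 hab hle) (SS_R hv a b) (Sp_R hv sF' a)
      (R_cocycle dv a b)
  have hd1 : dW D (uL L ((v, 0) : Pr σ)).1 + hW D (uL L ((v, 0) : Pr σ)).2 = 0 :=
    congrArg Prod.fst h2
  have hd2 : dW D (uL L ((v, 0) : Pr σ)).2 = 0 := by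
    have := congrArg Prod.snd h2
    simp only [Del, Prod.snd_zero, neg_eq_zero] at this
    exact this
  have hRX : L.Pairwise (fun k i => Bn D (R k i (uL L ((v, 0) : Pr σ)).2)) := by
    refine List.Pairwise.imp_of_mem ?_ (hRv.and hnd)
    rintro k i hk hi ⟨hB, hki⟩
    have e1 := Rr_uL_mem (k := k) (i := i) hki.symm hnd hk hi ((v, 0) : Pr σ)
    rw [Rr_fst] at e1
    obtain ⟨Y, y1, y2, y3⟩ := (Bd_of_Bn hB).uL L
    rw [← e1] at y3
    have e2 := congrArg Prod.snd y3
    simp only [Del, Rr] at e2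
    refine ⟨-Y.2, y2.neg, ?_⟩
    rw [dW_neg', e2]
    simp only [R]
    rw [ta_sg_comm hki.symm]
  have hdα : dg α + 4 = (D + 2) * D + (2 * D - 1) := by
    have := dg_add α (sE L)
    rw [← hα, dg_sE, hlen, hdg] at this
    exact this.symm
  have hSt : St D x y z u α (uL L ((v, 0) : Pr σ)).2 := by
    refine ⟨h1.2.1, h1.2.2.2, hd2, h4, hRX, ?_, ?_, hdα⟩
    · refine ⟨-(uL L ((v, 0) : Pr σ)).1, h1.1.neg, ?_⟩
      rw [dW_neg']
      exact (eq_neg_of_add_eq_zero_right hd1).symm
    · intro i i1 i2 i3 i4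
      have := hsup i i1 i2 i3 i4
      simp only [hαd, Pi.sub_apply]; omega
  have hαxy : α y ≤ α x := by
    have e1 : sE L x = 1 := by
      simp [hL, sE, ep, h4.xy, h4.xz, h4.xu]
    have e2 : sE L y = 1 := by
      simp [hL, sE, ep, h4.xy.symm, h4.yz, h4.yu]
    have e3 : lam y ≤ lam x := by
      rw [hL] at hpw
      exact (List.pairwise_cons.1 hpw).1 y (by simp)
    simp only [hαd, Pi.sub_apply, e1, e2]; omega
  have hG : ∀ a b c, Bn D (G3 (uL L ((v, 0) : Pr σ)).2 a b c) :=
    fun a b c => G3_bn hD hSt hαxy _ a b c rfl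
  obtain ⟨X1, x1, x2, x3⟩ := prim2 (c := 1) (μ := 3) h1.2.1 h1.2.2.2 (fix_bn hSt hG)
  have hSp : Sp D 0 0 (D + 2) 4 α (hW D X1) := by
    intro w f hne
    obtain ⟨u', e, v', rfl, h2, h3⟩ := hW_ne D w X1 f hne
    obtain ⟨a1, a2, a3, a4⟩ := x2 _ _ h3
    refine ⟨?_, ?_, ?_, ?_⟩
    · simp only [List.length_append, List.length_cons] at a1 ⊢; omega
    · simp only [nT_append, nT] at a2 ⊢; omega
    · rw [← a3]; simp only [md_append, md]; abel
    · intro x hx
      simp only [List.mem_append, List.mem_cons] at hx a4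
      rcases hx with hx | hx | hx
      · exact a4 x (Or.inl hx)
      · subst hx; exact h2
      · exact a4 x (Or.inr hx)
  have hd : dW D ((uL L ((v, 0) : Pr σ)).1 + hW D X1) = 0 := by
    rw [dW_add', dW_hW, x3]; exact hd1
  obtain ⟨X0, y1, y2, y3⟩ := prim (c := 0) (μ := 4) (h1.1.add (x1.hW D)) (h1.2.2.1.add hSp) hd (by
    intro r β hr hβ
    have hr' : r = D - 2 := by omega
    refine small_b hD r (by omega) β ?_
    subst hr'
    obtain ⟨E, rfl⟩ : ∃ E, D = E + 4 := ⟨D - 4, by omega⟩
    have e1 : E + 4 - 2 = E + 2 := by omega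
    have e2 : 2 * (E + 4) - 1 = 2 * E + 7 := by omega
    rw [e2] at hdα ⊢
    rw [e1]
    nlinarith)
  have hb : Bd D (uL L ((v, 0) : Pr σ)) := by
    refine ⟨(X0, -X1), y1, x1.neg, Prod.ext ?_ ?_⟩
    · simp only [Del]
      rw [y3, hW_neg']; abel
    · simp only [Del]
      rw [dW_neg', neg_neg, x3]
  exact Bn_of_Bd sv (hwB hv sv dv L hnd hRv hne α hα hb)

end

/-- the third stage -/
theorem third {D : ℕ} (hD : 4 ≤ D) (β : σ → ℕ) (hdg : dg β = (D + 2) * D + (2 * D - 1)) :
    Van D (D + 2) β := by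
  revert β
  apply Van_ind
  intro β hdg hmax
  have hmax' : ∀ μ : σ → ℕ, dg μ = dg β →
      Pool.Agent.H69.VS.sq β < Pool.Agent.H69.VS.sq μ → Van D (D + 2) μ := by
    rw [hdg]; exact hmax
  rcases Nat.lt_or_ge (supp β).card 3 with hc | hc
  · refine Van_small (j := 2 * D - 1) ?_ hdg
    have h3 : (supp β).card * (D - 1) ≤ 2 * (D - 1) := Nat.mul_le_mul_right _ (by omega)
    omega
  rcases Nat.lt_or_ge (supp β).card 4 with hc4 | hc4
  · have hk : (supp β).card = 2 + 1 := by omega
    refine top_strand (k := 2) (j := 2 * D - 1) (by omega) hk (by omega) ?_ hdg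
    have e1 : (2 + 1) * D - 1 - (2 * D - 1) = D := by omega
    rw [e1]
    have e2 : Nat.choose (D + 2) 2 = Nat.choose D 2 + 2 * D + 1 := by
      have a1 : Nat.choose (D + 2) 2 = Nat.choose (D + 1) 1 + Nat.choose (D + 1) 2 :=
        Nat.choose_succ_succ (D + 1) 1
      have a2 : Nat.choose (D + 1) 2 = Nat.choose D 1 + Nat.choose D 2 :=
        Nat.choose_succ_succ D 1
      rw [Nat.choose_one_right] at a1 a2
      omega
    omega
  rcases Nat.lt_or_ge 4 (supp β).card with hc5 | hc5
  · refine Van_row1 (m := 4) hdg ?_ ?_ (by omega) hmax'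
    · intro r β' hr hβ'
      exact small_c hD r (by omega) β' hβ'
    · intro r β' hr hβ'
      exact small_b hD r (by omega) β' hβ'
  · obtain ⟨L, l1, l2, l3, l4⟩ := exists_list β 4 hc4
    obtain ⟨x, L1, rfl⟩ := List.exists_cons_of_length_eq_add_one l4
    obtain ⟨y, L2, rfl⟩ := List.exists_cons_of_length_eq_add_one (by simpa using l4)
    obtain ⟨z, L3, rfl⟩ := List.exists_cons_of_length_eq_add_one (by simpa using l4)
    obtain ⟨u, L4, rfl⟩ := List.exists_cons_of_length_eq_add_one (by simpa using l4)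
    have hL4 : L4 = [] := by
      apply List.eq_nil_of_length_eq_zero
      simpa using l4
    subst hL4
    have h4 : Four x y z u := by
      simp only [List.nodup_cons, List.mem_cons, List.not_mem_nil, or_false, not_or,
        List.nodup_nil, and_true, not_false_eq_true] at l1
      exact ⟨l1.1.1, l1.1.2.1, l1.1.2.2, l1.2.1.1, l1.2.1.2, l1.2.2⟩
    have hsub : [x, y, z, u].toFinset ⊆ supp β := by
      intro i hi
      have := l3 i (List.mem_toFinset.1 hi)
      simp only [supp, Finset.mem_filter, Finset.mem_univ, true_and]; exact this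
    have heq : [x, y, z, u].toFinset = supp β := by
      apply Finset.eq_of_subset_of_card_le hsub
      rw [List.toFinset_card_of_nodup l1]
      exact hc5
    have hsup : ∀ i, i ≠ x → i ≠ y → i ≠ z → i ≠ u → β i = 0 := by
      intro i i1 i2 i3 i4
      by_contra h0
      have : i ∈ supp β := by
        simp only [supp, Finset.mem_filter, Finset.mem_univ, true_and]; exact h0
      rw [← heq, List.mem_toFinset] at this
      simp [i1, i2, i3, i4] at this
    apply Van_of
    intro v hv sv dv
    exact four_case hD h4 l2 l3 hsup hdg hmax' hv sv dv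

end Pool.Agent.H86.VS
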