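import Mathlib

/-!
A Cramer argument: families of coefficients which satisfy the multiplication relations in as
many vector variables as there are monomials vanish.
-/

set_option linter.unusedSectionVars false

namespace Pool.Agent.H86.VS

open scoped BigOperators

variable {σ : Type} [Fintype σ] [DecidableEq σ] {N : ℕ}

/-- exponents of several vector variables -/
noncomputable def toF (e : Fin N → (σ → ℕ)) : (Fin N × σ) →₀ ℕ :=
  Finsupp.equivFunOnFinite.symm (fun p => e p.1 p.2)

theorem toF_apply (e : Fin N → (σ → ℕ)) (p : Fin N × σ) : toF e p = e p.1 p.2 := rfl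

theorem toF_inj {e e' : Fin N → (σ → ℕ)} (h : toF e = toF e') : e = e' := by
  funext i l
  have := DFunLike.congr_fun h (i, l)
  exact this

theorem toF_surj (s : (Fin N × σ) →₀ ℕ) : ∃ e : Fin N → (σ → ℕ), toF e = s :=
  ⟨fun i l => s (i, l), by ext p; rfl⟩

theorem toF_single_le (i : Fin N) (f : σ → ℕ) (M : Fin N → (σ → ℕ)) :
    toF (Function.update 0 i f) ≤ toF M ↔ f ≤ M i := by
  constructor
  · intro h l
    have := h (i, l)
    simpa [toF_apply] using this
  · intro h p
    obtain ⟨a, l⟩ := p
    simp only [toF_apply]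
    by_cases ha : a = i
    · subst ha; simpa using h l
    · rw [Function.update_of_ne ha]; simp

theorem toF_sub (i : Fin N) (f : σ → ℕ) (M : Fin N → (σ → ℕ)) :
    toF M - toF (Function.update 0 i f) = toF (Function.update M i (M i - f)) := by
  ext p
  obtain ⟨a, l⟩ := p
  rw [Finsupp.tsub_apply]
  simp only [toF_apply]
  by_cases ha : a = i
  · subst ha; simp
  · rw [Function.update_of_ne ha, Function.update_of_ne ha]; simp

theorem sum_toF (g : Fin N → (Fin N → (σ → ℕ))) :
    (∑ a, toF (g a)) = toF (∑ a, g a) := by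
  ext p
  rw [Finsupp.finsetSum_apply]
  simp only [toF_apply, Finset.sum_apply]

/-- the matrix of monomials -/
noncomputable def Mat (m : Fin N → (σ → ℕ)) : Matrix (Fin N) (Fin N) (MvPolynomial (Fin N × σ) ℂ) :=
  fun i c => MvPolynomial.monomial (toF (Function.update 0 i (m c))) 1

theorem prod_Mat (m : Fin N → (σ → ℕ)) (π : Equiv.Perm (Fin N)) :
    (∏ i, Mat m (π i) i) = MvPolynomial.monomial (toF (fun a => m (π.symm a))) 1 := by
  simp only [Mat]
  rw [← MvPolynomial.monomial_sum_one, sum_toF]
  congr 2
  have hh : (∑ a, Function.update (0 : Fin N → (σ → ℕ)) (π a) (m a)) = fun a => m (π.symm a) := by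
    funext a
    rw [Finset.sum_apply]
    rw [Finset.sum_eq_single (π.symm a)]
    · simp
    · intro b _ hb
      rw [Function.update_of_ne]
      · rfl
      · intro h; apply hb; rw [h]; simp
    · intro h; exact absurd (Finset.mem_univ _) h
  rw [hh]

theorem det_Mat_ne {m : Fin N → (σ → ℕ)} (hm : Function.Injective m) : (Mat m).det ≠ 0 := by
  intro h0
  have h1 : MvPolynomial.coeff (toF m) (Mat m).det = 1 := by
    rw [Matrix.det_apply, MvPolynomial.coeff_sum]
    rw [Finset.sum_eq_single (1 : Equiv.Perm (Fin N))]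
    · rw [prod_Mat]
      have : (fun a => m ((1 : Equiv.Perm (Fin N)).symm a)) = m := rfl
      rw [this]
      simp
    · intro π _ hπ
      rw [prod_Mat, MvPolynomial.coeff_smul, MvPolynomial.coeff_monomial, if_neg]
      · simp
      · intro h
        have h2 := toF_inj h
        apply hπ
        ext a
        have h3 := hm (congrFun h2 (π a))
        simp only [Equiv.symm_apply_apply] at h3
        rw [← h3]; rfl
    · intro h; exact absurd (Finset.mem_univ _) h
  rw [h0] at h1
  simp at h1

/-- the vanishing -/
theorem green {m : Fin N → (σ → ℕ)} (hm : Function.Injective m)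
    (z : (Fin N → (σ → ℕ)) → Fin N → ℂ) (E : Finset (Fin N → (σ → ℕ)))
    (hE : ∀ e c, z e c ≠ 0 → e ∈ E)
    (rel : ∀ (i : Fin N) (M : Fin N → (σ → ℕ)),
      (∑ c, if (∀ l, m c l ≤ M i l) then z (Function.update M i (M i - m c)) c else 0) = 0) :
    ∀ e c, z e c = 0 := by
  classical
  set Z : Fin N → MvPolynomial (Fin N × σ) ℂ := fun c =>
    ∑ e ∈ E, MvPolynomial.monomial (toF e) (z e c) with hZ
  have hc : ∀ e c, MvPolynomial.coeff (toF e) (Z c) = z e c := by
    intro e c
    simp only [hZ, MvPolynomial.coeff_sum, MvPolynomial.coeff_monomial]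
    by_cases he : e ∈ E
    · rw [Finset.sum_eq_single e]
      · simp
      · intro b _ hb
        rw [if_neg]
        intro h; exact hb (toF_inj h)
      · intro h; exact absurd he h
    · rw [Finset.sum_eq_zero]
      · by_contra h
        exact he (hE e c (fun h' => h h'.symm))
      · intro b hb
        rw [if_neg]
        intro h; exact he (toF_inj h ▸ hb)
  have hv : (Mat m).mulVec Z = 0 := by
    funext i
    ext s
    obtain ⟨M, rfl⟩ := toF_surj s
    simp only [Matrix.mulVec, dotProduct, MvPolynomial.coeff_sum, Pi.zero_apply,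
      MvPolynomial.coeff_zero, Mat]
    rw [← rel i M]
    apply Finset.sum_congr rfl
    intro c _
    rw [MvPolynomial.coeff_monomial_mul']
    by_cases h : ∀ l, m c l ≤ M i l
    · rw [if_pos ((toF_single_le i (m c) M).2 h), if_pos h, toF_sub, hc, one_mul]
    · rw [if_neg (fun h' => h ((toF_single_le i (m c) M).1 h')), if_neg h]
  have h0 := Matrix.eq_zero_of_mulVec_eq_zero (det_Mat_ne hm) hv
  intro e c
  rw [← hc e c, h0]
  simp

end Pool.Agent.H86.VS
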