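import Pool.Agent.H86.VS.Inj

/-!
The `eta` part of a class of `eta` degree four: functions of three even letters.
-/

set_option linter.unusedSectionVars false

namespace Pool.Agent.H86.VS

open scoped BigOperators
open Pool.Agent.H69.VS

variable {σ : Type} [Fintype σ] [DecidableEq σ]

/-- fix three even letters -/
def G3 (X : Fn σ) (a b c : σ → ℕ) : Fn σ := Af (Lt.T c) (Af (Lt.T b) (Af (Lt.T a) X))

theorem Bn.T {D : ℕ} {F : Fn σ} (h : Bn D F) (a : σ → ℕ) : Bn D (Af (Lt.T a) F) := by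
  obtain ⟨U, hU, rfl⟩ := h
  exact ⟨Af (Lt.T a) U, hU.af _, by rw [AT_dW]⟩

theorem AT_R (k i : σ) (F : Fn σ) (y : σ → ℕ) :
    Af (Lt.T y) (R k i F) = (((y + ep i) k : ℕ) : ℂ) • Af (Lt.T (y + ep i - ep k)) F
      + R k i (Af (Lt.T y) F) := by
  have h : Af (Lt.T y) (R k i F) = Af (Lt.T y) (rW k i F) + Af (Lt.T y) (ta k (sg (ep i) F)) := rfl
  rw [h, AT_rW, Af_ta, Af_sg]
  simp only [R]; abel

/-- the data of the `eta` part -/
structure St (D : ℕ) (x y z u : σ) (α : σ → ℕ) (X : Fn σ) : Prop where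
  ss : SS X
  sp : Sp D 0 1 (D + 2) 4 α X
  dX : dW D X = 0
  h4 : Four x y z u
  hR : [x, y, z, u].Pairwise (fun k i => Bn D (R k i X))
  hH : Bn D (hW D X)
  sup : ∀ i, i ≠ x → i ≠ y → i ≠ z → i ≠ u → α i = 0
  dg : dg α + 4 = (D + 2) * D + (2 * D - 1)

section
variable {D : ℕ} {x y z u : σ} {α : σ → ℕ} {X : Fn σ}

theorem G3_ok (h : St D x y z u α X) {a b c : σ → ℕ} (h0 : G3 X a b c ≠ 0) :
    a + b + c ≤ α ∧ dg a + 1 = D ∧ dg b + 1 = D ∧ dg c + 1 = D := by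
  have : ∃ w f, G3 X a b c w f ≠ 0 := by
    by_contra hn
    push Not at hn
    exact h0 (by funext w f; exact hn w f)
  obtain ⟨w, f, hne⟩ := this
  obtain ⟨a1, a2, a3, a4⟩ := h.sp _ _ hne
  refine ⟨?_, a4 (Lt.T a) (by simp), a4 (Lt.T b) (by simp), a4 (Lt.T c) (by simp)⟩
  intro i
  show a i + b i + c i ≤ α i
  rw [← a3]
  simp only [md, Pi.add_apply]
  omega

theorem G3_sp (h : St D x y z u α X) (a b c : σ → ℕ) :
    Sp D 0 0 (D - 1) 0 (α - (a + b + c)) (G3 X a b c) := by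
  intro w f hne
  obtain ⟨a1, a2, a3, a4⟩ := h.sp _ _ hne
  simp only [List.length_cons] at a1
  simp only [nT] at a2
  refine ⟨by omega, by omega, ?_, fun x hx => a4 x (by simp [hx])⟩
  rw [← a3]
  funext i
  simp only [md, Pi.add_apply, Pi.sub_apply]
  omega

theorem G3_ss (h : St D x y z u α X) (a b c : σ → ℕ) : SS (G3 X a b c) := ((h.ss.af _).af _).af _

theorem G3_dW (h : St D x y z u α X) (a b c : σ → ℕ) : dW D (G3 X a b c) = 0 := by
  unfold G3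
  rw [← AT_dW, ← AT_dW, ← AT_dW, h.dX]
  rfl

theorem G3_co (hD : 1 ≤ D) (h : St D x y z u α X) {a b c : σ → ℕ} (hs : a + b + c ≤ α)
    (ha : Pool.Agent.H69.VS.dg a + 1 = D) (hb : Pool.Agent.H69.VS.dg b + 1 = D)
    (hc : Pool.Agent.H69.VS.dg c + 1 = D) :
    Co D x y z u (α - (a + b + c)) (G3 X a b c) := by
  refine ⟨G3_ss h a b c, G3_sp h a b c, G3_dW h a b c, ?_, ?_⟩
  · have h1 : Pool.Agent.H69.VS.dg (α - (a + b + c)) + Pool.Agent.H69.VS.dg (a + b + c) =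
        Pool.Agent.H69.VS.dg α := by
      rw [← dg_add]
      congr 1
      funext i
      have : (a + b + c) i ≤ α i := hs i
      simp only [Pi.add_apply, Pi.sub_apply] at this ⊢
      omega
    rw [dg_add, dg_add] at h1
    have h2 := h.dg
    obtain ⟨E, rfl⟩ : ∃ E, D = E + 1 := ⟨D - 1, by omega⟩
    have e1 : E + 1 - 1 = E := by omega
    have e2 : 2 * (E + 1) - 1 = 2 * E + 1 := by omega
    have e3 : 2 * (E + 1) - 2 = 2 * E := by omega
    rw [e1, e3]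
    rw [e2] at h2
    nlinarith
  · intro i h1 h2 h3 h4
    have := h.sup i h1 h2 h3 h4
    simp only [Pi.sub_apply]; omega

theorem G3_swap12 (h : St D x y z u α X) (a b c : σ → ℕ) : G3 X a b c = G3 X b a c := by
  unfold G3
  congr 1
  have := h.ss.front (Lt.T a) (Lt.T b)
  simpa [sn] using this

theorem G3_swap23 (h : St D x y z u α X) (a b c : σ → ℕ) : G3 X a b c = G3 X a c b := by
  unfold G3
  have := (h.ss.af (Lt.T a)).front (Lt.T b) (Lt.T c)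
  simpa [sn] using this

/-- raising operators on the functions of three letters -/
theorem G3_R {k i : σ} (hki : k ≠ i) (hR : Bn D (R k i X))
    (a b c : σ → ℕ) :
    Bn D (R k i (G3 X a b c) + ((a k : ℂ) • G3 X (a + ep i - ep k) b c +
      (b k : ℂ) • G3 X a (b + ep i - ep k) c + (c k : ℂ) • G3 X a b (c + ep i - ep k))) := by
  have h1 := ((hR.T a).T b).T c
  have e : ∀ f : σ → ℕ, (f + ep i) k = f k := by intro f; simp [ep, hki]
  rw [AT_R, e] at h1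
  have e1 : ∀ (F G : Fn σ) (y : σ → ℕ), Af (Lt.T y) (F + G) = Af (Lt.T y) F + Af (Lt.T y) G :=
    fun _ _ _ => rfl
  have e2 : ∀ (s : ℂ) (F : Fn σ) (y : σ → ℕ), Af (Lt.T y) (s • F) = s • Af (Lt.T y) F :=
    fun _ _ _ => rfl
  rw [e1, e2, AT_R, e, e1, e2, e1, e2, AT_R, e] at h1
  have e3 : R k i (G3 X a b c) + ((a k : ℂ) • G3 X (a + ep i - ep k) b c +
      (b k : ℂ) • G3 X a (b + ep i - ep k) c + (c k : ℂ) • G3 X a b (c + ep i - ep k)) =
      (a k : ℂ) • Af (Lt.T c) (Af (Lt.T b) (Af (Lt.T (a + ep i - ep k)) X)) +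
      ((b k : ℂ) • Af (Lt.T c) (Af (Lt.T (b + ep i - ep k)) (Af (Lt.T a) X)) +
      ((c k : ℂ) • Af (Lt.T (c + ep i - ep k)) (Af (Lt.T b) (Af (Lt.T a) X)) +
        R k i (Af (Lt.T c) (Af (Lt.T b) (Af (Lt.T a) X))))) := by
    simp only [G3]; abel
  rw [e3]
  exact h1

/-- the relation of four terms -/
theorem G3_rel (h : St D x y z u α X) {a0 a1 a2 a3 : σ → ℕ}
    (h0 : Pool.Agent.H69.VS.dg a0 + 1 = D) (h1 : Pool.Agent.H69.VS.dg a1 + 1 = D)
    (h2 : Pool.Agent.H69.VS.dg a2 + 1 = D) (h3 : Pool.Agent.H69.VS.dg a3 + 1 = D) :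
    Bn D (sg a0 (G3 X a1 a2 a3) + sg a1 (G3 X a0 a2 a3) + sg a2 (G3 X a0 a1 a3) +
      sg a3 (G3 X a0 a1 a2)) := by
  have hb := (((h.hH.T a0).T a1).T a2).T a3
  have c0 : cT D a0 = 1 := by simp [cT, h0]
  have c1 : cT D a1 = 1 := by simp [cT, h1]
  have c2 : cT D a2 = 1 := by simp [cT, h2]
  have c3 : cT D a3 = 1 := by simp [cT, h3]
  have e1 : ∀ (F G : Fn σ) (y : σ → ℕ), Af (Lt.T y) (F + G) = Af (Lt.T y) F + Af (Lt.T y) G :=
    fun _ _ _ => rfl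
  have e2 : ∀ (g : σ → ℕ) (F : Fn σ) (y : σ → ℕ), Af (Lt.T y) (sg g F) = sg g (Af (Lt.T y) F) :=
    fun _ _ _ => rfl
  have hz : Af (Lt.T a3) (Af (Lt.T a2) (Af (Lt.T a1) (Af (Lt.T a0) X))) = 0 := by
    funext w f
    by_contra hne
    obtain ⟨b1, b2, b3, b4⟩ := h.sp (Lt.T a0 :: Lt.T a1 :: Lt.T a2 :: Lt.T a3 :: w) f hne
    simp only [nT] at b2
    omega
  simp only [AT_hW, c0, c1, c2, c3, one_smul, e1, e2, hz, hW_zero', add_zero] at hb
  have e3 : sg a0 (G3 X a1 a2 a3) + sg a1 (G3 X a0 a2 a3) + sg a2 (G3 X a0 a1 a3) +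
      sg a3 (G3 X a0 a1 a2) =
      sg a0 (Af (Lt.T a3) (Af (Lt.T a2) (Af (Lt.T a1) X))) +
      (sg a1 (Af (Lt.T a3) (Af (Lt.T a2) (Af (Lt.T a0) X))) +
      (sg a2 (Af (Lt.T a3) (Af (Lt.T a1) (Af (Lt.T a0) X))) +
        sg a3 (Af (Lt.T a2) (Af (Lt.T a1) (Af (Lt.T a0) X))))) := by
    simp only [G3]; abel
  rw [e3]
  exact hb

end

end Pool.Agent.H86.VS
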