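import Pool.Agent.H86.VS.Zeta
import Pool.Agent.H69.VS.Num

/-!
The structure of the group of homological degree `D - 1` and coefficient degree `2 D - 2`.
-/

set_option linter.unusedSectionVars false

namespace Pool.Agent.H86.VS

open scoped BigOperators
open Pool.Agent.H69.VS

variable {σ : Type} [Fintype σ] [DecidableEq σ]

/-- the letters `x^(D-i) y^i` with `0 < i < D` -/
def ml (D : ℕ) (x y : σ) : List (σ → ℕ) := (List.range (D - 1)).map (fun i => mi D x y (i + 1))

section
variable {D : ℕ} {x y : σ} {F G : Fn σ}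

theorem Mw_eq (hD : 1 ≤ D) : Mw D x y = Lt.E (vx D x) :: (ml D x y).map Lt.E := by
  obtain ⟨E, rfl⟩ : ∃ E, D = E + 1 := ⟨D - 1, by omega⟩
  unfold Mw ml
  rw [List.range_succ_eq_map]
  simp only [List.map_cons, List.map_map, Nat.add_sub_cancel]
  congr 2
  funext z
  simp [mi, vx, ep, Pi.single_apply]

theorem SS_perm {w w' : List (Lt σ)} (h : w.Perm w') : ∀ {F : Fn σ}, SS F → ∀ f, F w f = 0 →
    F w' f = 0 := by
  induction h with
  | nil => intro F _ f h; exact h
  | cons x _ ih => intro F hF f h; exact ih (hF.af x) f h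
  | swap x y l =>
    intro F hF f h
    have := hF [] x y l f
    simp only [List.nil_append] at this
    rw [this, h, mul_zero]
  | trans _ _ ih1 ih2 => intro F hF f h; exact ih2 hF f (ih1 hF f h)

theorem mi_y (hxy : y ≠ x) (i : ℕ) : mi D x y i y = i := by
  simp [mi, ep, hxy]

theorem mi_x' (hxy : y ≠ x) (i : ℕ) : mi D x y i x = D - i := by
  simp [mi, ep, hxy.symm]

theorem ml_nodup (hxy : y ≠ x) : (ml D x y).Nodup := by
  unfold ml
  rw [List.nodup_map_iff_inj_on List.nodup_range]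
  intro i _ j _ h
  have := congrFun h y
  rw [mi_y hxy, mi_y hxy] at this
  omega

theorem two_supp {f : σ → ℕ} (hxy : y ≠ x) (h : ∀ i, i ≠ x → i ≠ y → f i = 0) :
    dg f = f x + f y := by
  have h1 : dg f = ∑ i ∈ ({x, y} : Finset σ), f i := by
    apply dg_eq_sum
    intro i hi
    simp only [Finset.mem_insert, Finset.mem_singleton, not_or] at hi
    exact h i hi.1 hi.2
  rw [h1, Finset.sum_pair hxy.symm]

/-- reduced functions in two variables -/
theorem red2 {ν : σ → ℕ} (hD : 1 ≤ D) (hxy : y ≠ x) (hν : ∀ i, i ≠ x → i ≠ y → ν i = 0)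
    (hd : dg ν = (D - 1) * D + (2 * D - 2)) (hF : SS F) (sF : Sp D 0 0 (D - 1) 0 ν F)
    (rx : Rd D x F) (ry : Rd D y F) {w : List (Lt σ)} {f : σ → ℕ} (hne : F w f ≠ 0) :
    w.Perm ((ml D x y).map Lt.E) ∧ f = (D - 1) • ep y + (D - 1) • ep x := by
  obtain ⟨a1, a2, a3, a4⟩ := sF w f hne
  obtain ⟨A, rfl⟩ := word_map w (by omega)
  rw [md_map_sum] at a3
  have hnd := word_nodup hF A f hne
  have hlen : A.length = D - 1 := by simpa using a1
  have hAle : ∀ a ∈ A, ∀ i, a i ≤ ν i := by
    intro a ha i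
    obtain ⟨u, v, rfl⟩ := List.append_of_mem ha
    rw [← a3]
    simp only [List.sum_append, List.sum_cons, Pi.add_apply]
    omega
  have hfle : ∀ i, f i ≤ ν i := by
    intro i; rw [← a3]; simp only [Pi.add_apply]; omega
  have hA2 : ∀ a ∈ A, ∀ i, i ≠ x → i ≠ y → a i = 0 := by
    intro a ha i h1 h2
    have := hAle a ha i
    rw [hν i h1 h2] at this; omega
  have hf2 : ∀ i, i ≠ x → i ≠ y → f i = 0 := by
    intro i h1 h2
    have := hfle i
    rw [hν i h1 h2] at this; omega
  have hsub : ∀ a ∈ A, a ∈ ml D x y := by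
    intro a ha
    have e1 : dg a = D := a4 (Lt.E a) (List.mem_map.2 ⟨a, ha, rfl⟩)
    have e2 := two_supp hxy (hA2 a ha)
    have e3 : a x ≠ D := by
      intro h
      apply hne
      apply rx
      right
      rw [List.mem_map]
      refine ⟨a, ha, ?_⟩
      congr 1
      funext z
      by_cases hz : z = x
      · subst hz; simp [vx, h]
      · by_cases hz' : z = y
        · subst hz'; simp only [vx, Pi.single_apply, if_neg hz]; omega
        · rw [hA2 a ha z hz hz']; simp [vx, hz]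
    have e4 : a y ≠ D := by
      intro h
      apply hne
      apply ry
      right
      rw [List.mem_map]
      refine ⟨a, ha, ?_⟩
      congr 1
      funext z
      by_cases hz : z = y
      · subst hz; simp [vx, h]
      · by_cases hz' : z = x
        · subst hz'; simp only [vx, Pi.single_apply, if_neg hz]; omega
        · rw [hA2 a ha z hz' hz]; simp [vx, hz]
    unfold ml
    rw [List.mem_map]
    refine ⟨a y - 1, ?_, ?_⟩
    · rw [List.mem_range]; omega
    · have e5 : a y - 1 + 1 = a y := by omega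
      rw [e5]
      funext z
      by_cases hz : z = x
      · subst hz; rw [mi_x' hxy]; omega
      · by_cases hz' : z = y
        · subst hz'; rw [mi_y hxy]
        · rw [hA2 a ha z hz hz']; simp [mi, ep, hz, hz']
  have hperm : A.Perm (ml D x y) := by
    have h1 : A.Subperm (ml D x y) := List.subperm_of_subset hnd hsub
    apply h1.perm_of_length_le
    rw [hlen]; simp [ml]
  refine ⟨hperm.map _, ?_⟩
  have hdf : dg f = 2 * D - 2 := by
    have h5 := dg_md (D := D) (A.map Lt.E) a4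
    rw [md_map_sum, List.length_map, hlen] at h5
    have h6 : dg A.sum + dg f = (D - 1) * D + (2 * D - 2) := by rw [← dg_add, a3, hd]
    omega
  have hfx : f x < D := by
    by_contra h; exact hne (rx _ _ (Or.inl (by omega)))
  have hfy : f y < D := by
    by_contra h; exact hne (ry _ _ (Or.inl (by omega)))
  have h7 := two_supp hxy hf2
  funext z
  by_cases hz : z = x
  · subst hz; simp [ep, hxy.symm]; omega
  · by_cases hz' : z = y
    · subst hz'; simp [ep, hz]; omega
    · rw [hf2 z hz hz']; simp [ep, hz, hz']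

theorem ml_sum (hD : 1 ≤ D) : vx D x + (ml D x y).sum = md (Mw D x y) := by
  rw [Mw_eq hD]
  simp only [md, md_map_sum]

theorem Sp_sub_dW {t : ℕ} {ν : σ → ℕ} {F' : Fn σ} (sF : Sp D 0 0 t 0 ν F) (h2 : Sp D 1 0 t 0 ν F') :
    Sp D 0 0 t 0 ν (F - dW D F') := by
  refine sF.sub ?_
  intro w f hne
  obtain ⟨a1, a2, a3, a4⟩ := h2.dW w f hne
  exact ⟨by omega, a2, a3, a4⟩

theorem md_perm {w w' : List (Lt σ)} (h : w.Perm w') : md w = md w' := by
  induction h with
  | nil => rfl
  | cons x _ ih => cases x <;> simp only [md, ih]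
  | swap x y l => cases x <;> cases y <;> simp only [md] <;> abel
  | trans _ _ ih1 ih2 => rw [ih1, ih2]

/-- two variables: only one weight -/
theorem two_wt {ν : σ → ℕ} (hD : 1 ≤ D) (hxy : y ≠ x) (hν : ∀ i, i ≠ x → i ≠ y → ν i = 0)
    (hd : dg ν = (D - 1) * D + (2 * D - 2)) (hF : SS F) (sF : Sp D 0 0 (D - 1) 0 ν F)
    (dF : dW D F = 0) : Bn D F ∨ (ν x = cc D ∧ ν y = cc D) := by
  obtain ⟨F', h1, h2, h3⟩ := reduce hF sF dF {x, y}
  by_cases h0 : F - dW D F' = 0
  · left; exact ⟨F', h1, (sub_eq_zero.1 h0).symm⟩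
  · right
    have : ∃ w f, (F - dW D F') w f ≠ 0 := by
      by_contra hn
      push Not at hn
      exact h0 (by funext w f; exact hn w f)
    obtain ⟨w, f, hne⟩ := this
    have sG := Sp_sub_dW sF h2
    obtain ⟨p1, p2⟩ := red2 hD hxy hν hd (hF.sub (h1.dW D)) sG
      (h3 x (by simp)) (h3 y (by simp)) hne
    obtain ⟨a1, a2, a3, a4⟩ := sG w f hne
    have hmd : md w = (ml D x y).sum := by rw [md_perm p1, md_map_sum]
    have hms := ml_sum (D := D) (x := x) (y := y) hD
    have k1 := congrFun hms x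
    have k2 := congrFun hms y
    rw [md_Mw_x hD hxy] at k1
    have k3 := md_Mw_y (x := x) (y := y) hD hxy
    rw [← k2] at k3
    simp only [Pi.add_apply, vx, Pi.single_eq_same, Pi.single_apply, if_neg hxy] at k1 k3
    rw [hmd, p2] at a3
    have b1 := congrFun a3 x
    have b2 := congrFun a3 y
    simp only [Pi.add_apply, Pi.smul_apply, ep, Pi.single_eq_same, Pi.single_apply, if_neg hxy,
      if_neg hxy.symm, smul_eq_mul, mul_one, mul_zero] at b1 b2
    omega

/-- one dimensionality -/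
theorem one_dim {ν : σ → ℕ} (hD : 1 ≤ D) (hxy : y ≠ x) (hν : ∀ i, i ≠ x → i ≠ y → ν i = 0)
    (hd : dg ν = (D - 1) * D + (2 * D - 2)) (hF : SS F) (sF : Sp D 0 0 (D - 1) 0 ν F)
    (dF : dW D F = 0) (hz : Zt D x y F ((D - 1) • ep y) = 0) : Bn D F := by
  obtain ⟨F', h1, h2, h3⟩ := reduce hF sF dF {x, y}
  refine ⟨F', h1, ?_⟩
  suffices h0 : F - dW D F' = 0 from (sub_eq_zero.1 h0).symm
  funext w f
  by_contra hne
  have hne' : (F - dW D F') w f ≠ 0 := hne
  have sG := Sp_sub_dW sF h2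
  have hG := hF.sub (h1.dW D)
  have rx := h3 x (by simp)
  have ry := h3 y (by simp)
  obtain ⟨p1, p2⟩ := red2 hD hxy hν hd hG sG rx ry hne'
  have hz2 : Zt D x y (F - dW D F') ((D - 1) • ep y) = 0 := by
    rw [Zt_sub, hz, Zt_bn ⟨F', h1, rfl⟩, sub_zero]
  have hz3 : Zt D x y (F - dW D F') ((D - 1) • ep y) =
      (F - dW D F') ((ml D x y).map Lt.E) f := by
    unfold Zt
    rw [Mw_eq hD]
    simp only [dW, dg_vx, if_true]
    have e1 : Af (Lt.E (vx D x)) (sh x (F - dW D F')) = 0 := by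
      funext v g
      simp only [Af, sh]
      exact rx _ _ (Or.inr List.mem_cons_self)
    rw [e1, dW_zero']
    simp only [Pi.zero_apply, sub_zero, sh]
    have e2 : (D - 1) • ep y + vx D x - ep x = f := by
      rw [p2]
      funext z
      by_cases hz : z = x
      · subst hz
        simp only [Pi.add_apply, Pi.sub_apply, Pi.smul_apply, vx, ep, Pi.single_eq_same,
          Pi.single_apply, if_neg hxy.symm, smul_eq_mul]
        omega
      · simp [vx, ep, hz]
    rw [e2]
  rw [hz3] at hz2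
  exact hne' (SS_perm p1.symm hG f hz2)

/-- induction over the weights for a general property -/
theorem ind_sq {N : ℕ} (P : (σ → ℕ) → Prop)
    (h : ∀ β : σ → ℕ, dg β = N → (∀ μ : σ → ℕ, dg μ = N → Pool.Agent.H69.VS.sq β < Pool.Agent.H69.VS.sq μ → P μ) → P β) :
    ∀ β : σ → ℕ, dg β = N → P β := by
  have key : ∀ (n : ℕ) (β : σ → ℕ), dg β = N → N ^ 2 - Pool.Agent.H69.VS.sq β = n → P β := by
    intro n
    induction n using Nat.strong_induction_on with
    | _ n ih =>
      intro β hβ hn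
      apply h β hβ
      intro μ hμ hlt
      have h1 := sq_le μ
      rw [hμ] at h1
      exact ih (N ^ 2 - Pool.Agent.H69.VS.sq μ) (by omega) μ hμ rfl
  exact fun β hβ => key _ β hβ rfl

theorem R_cocycle (h : dW D F = 0) (k i : σ) : dW D (R k i F) = 0 := by
  rw [← R_dW, h, R_zero]

/-- smaller vanishing used for three rows -/
theorem small1 (hD : 3 ≤ D) (r : ℕ) (β : σ → ℕ) (hr : r + 2 = D - 1)
    (hβ : dg β + 1 = r * D + (2 * D - 2)) : Van D r β := by
  apply Van_Ng D (2 * D - 3) r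
  · have := Ng_closed (D - 1) 1 (D - 2) (by omega)
    have e1 : D - 1 + 1 = D := by omega
    have e2 : 1 * (D - 1) + (D - 2) = 2 * D - 3 := by omega
    rw [e1, e2] at this
    omega
  · omega

theorem small0 (hD : 3 ≤ D) (r : ℕ) (β : σ → ℕ) (hr : r + (2 + 1) = D - 1)
    (hβ : dg β = r * D + (2 * D - 2)) : Van D r β := by
  apply Van_Ng D (2 * D - 2) r
  · have := Ng_closed (D - 1) 2 0 (by omega)
    have e1 : D - 1 + 1 = D := by omega
    have e2 : 2 * (D - 1) + 0 = 2 * D - 2 := by omega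
    rw [e1, e2] at this
    omega
  · omega

/-- three rows -/
theorem three (hD : 3 ≤ D) {ν : σ → ℕ} (hd : dg ν = (D - 1) * D + (2 * D - 2)) (hF : SS F)
    (sF : Sp D 0 0 (D - 1) 0 ν F) (dF : dW D F = 0) (L : List σ) (l1 : L.Nodup)
    (l2 : L.Pairwise (fun a b => Bn D (R a b F))) (l3 : ∀ k ∈ L, ν k ≠ 0) (l4 : L.length = 3) :
    Bn D F :=
  hwV (m := 2) hd (fun r β hr hβ => small1 hD r β hr hβ) (fun r β hr hβ => small0 hD r β hr hβ)
    hF sF dF L l1 l2 l3 l4

/-- a weight with at most two nonzero entries -/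
theorem two_supp_wt (hD : 2 ≤ D) {ν : σ → ℕ} (hd : dg ν = (D - 1) * D + (2 * D - 2)) (hF : SS F)
    (sF : Sp D 0 0 (D - 1) 0 ν F) (dF : dW D F = 0) (hc : (supp ν).card ≤ 2) :
    Bn D F ∨ ∃ a b : σ, b ≠ a ∧ ν a = cc D ∧ ν b = cc D ∧ ∀ i, i ≠ a → i ≠ b → ν i = 0 := by
  have hs : ∀ i, i ∉ supp ν → ν i = 0 := by
    intro i hi
    by_contra h
    exact hi (by simp only [supp, Finset.mem_filter, Finset.mem_univ, true_and]; exact h)
  by_cases h2 : (supp ν).card = 2
  · obtain ⟨a, b, hab, hS⟩ := Finset.card_eq_two.1 h2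
    have hν : ∀ i, i ≠ a → i ≠ b → ν i = 0 := by
      intro i h1 h2
      apply hs
      rw [hS]; simp [h1, h2]
    rcases two_wt (by omega) hab.symm hν hd hF sF dF with h | ⟨h, h'⟩
    · exact Or.inl h
    · exact Or.inr ⟨a, b, hab.symm, h, h', hν⟩
  · left
    refine Van.bn (Van_small (j := 2 * D - 2) ?_ hd) hF sF dF
    have h3 : (supp ν).card * (D - 1) ≤ 1 * (D - 1) := Nat.mul_le_mul_right _ (by omega)
    omega

theorem cc_pos (hD : 2 ≤ D) : 0 < cc D := by
  have h := two_cc D (by omega)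
  obtain ⟨E, rfl⟩ : ∃ E, D = E + 2 := ⟨D - 2, by omega⟩
  have : E + 2 - 1 = E + 1 := by omega
  rw [this] at h
  nlinarith

/-- large entries -/
theorem Van_big (hD : 3 ≤ D) : ∀ ν : σ → ℕ, dg ν = (D - 1) * D + (2 * D - 2) →
    (∃ i, cc D < ν i) → Van D (D - 1) ν := by
  apply ind_sq (fun ν => (∃ i, cc D < ν i) → Van D (D - 1) ν)
  intro ν hd ih hbig
  obtain ⟨i, hi⟩ := hbig
  apply Van_of
  intro F hF sF dF
  by_cases hc : (supp ν).card ≤ 2
  · rcases two_supp_wt (by omega) hd hF sF dF hc with h | ⟨a, b, hab, ha, hb, hab0⟩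
    · exact h
    · exfalso
      by_cases h1 : i = a
      · subst h1; omega
      · by_cases h2 : i = b
        · subst h2; omega
        · rw [hab0 i h1 h2] at hi; omega
  · obtain ⟨L, l1, l2, l3, l4⟩ := exists_list ν 3 (by omega)
    refine three hD hd hF sF dF L l1 ?_ l3 l4
    refine List.Pairwise.imp_of_mem ?_ (l2.and l1)
    rintro a b ha hb ⟨hle, hab⟩
    have hb0 : ν b ≠ 0 := l3 b hb
    have e1 : ν = (ν - ep b) + ep b := (sub_ep_add hb0).symm
    have sF' : Sp D 0 0 (D - 1) 0 ((ν - ep b) + ep b) F := by rw [← e1]; exact sF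
    have hR := Sp_R hF sF' a
    have hd' : dg ((ν - ep b) + ep a) = (D - 1) * D + (2 * D - 2) := by
      rw [← hd, dg_add, dg_ep, dg_sub ν b hb0]
    have hsq : Pool.Agent.H69.VS.sq ν < Pool.Agent.H69.VS.sq ((ν - ep b) + ep a) := by
      conv_lhs => rw [e1]
      rw [sq_add_ep, sq_add_ep]
      have h1 : (ν - ep b) a = ν a := by simp [ep, hab]
      have h2 : (ν - ep b) b = ν b - 1 := by simp [ep]
      rw [h1, h2]; omega
    refine Van.bn (ih _ hd' hsq ?_) (SS_R hF a b) hR (R_cocycle dF a b)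
    by_cases h1 : i = b
    · subst h1
      refine ⟨a, ?_⟩
      simp [ep, hab]; omega
    · refine ⟨i, ?_⟩
      simp only [Pi.add_apply, Pi.sub_apply, ep, Pi.single_apply, if_neg h1]
      omega

/-- one step of the representation theory of `sl_2` -/
theorem step0 {t : ℕ} {ν : σ → ℕ} (hF : SS F) (sF : Sp D 0 0 t 0 ν F) {k l : σ} (hkl : k ≠ l)
    (hk : ν k = 0) (hl : ν l ≠ 0) (hR : Bn D (R k l F)) : Bn D F := by
  have h1 := R_comm hkl hkl.symm (a := k) (b := l) (c := l) (d := k) (E0_of_Sp sF)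
  rw [if_pos rfl, if_pos rfl, R_self hF sF k, R_self hF sF l, R_wt0 sF hk l, R_zero, hk] at h1
  have h2 : Bn D (((ν l : ℕ) : ℂ) • F) := by
    have h3 := hR.R l k
    have h4 : (((ν l : ℕ) : ℂ) • F) = R l k (R k l F) := by
      rw [Nat.cast_zero, zero_smul, zero_sub] at h1
      exact (add_neg_eq_zero.1 h1.symm).symm
    rw [h4]; exact h3
  exact h2.of_smul (by exact_mod_cast hl)

end

end Pool.Agent.H86.VS
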