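import Pool.Agent.H86.VS.Hst

/-!
Injectivity of the raising operators in homological degree `D - 1` and coefficient degree
`2 D - 2`, and the one step formula for the evaluation.
-/

set_option linter.unusedSectionVars false

namespace Pool.Agent.H86.VS

open scoped BigOperators
open Pool.Agent.H69.VS

variable {σ : Type} [Fintype σ] [DecidableEq σ]

/-- four different indices -/
structure Four (x y z u : σ) : Prop where
  xy : x ≠ y
  xz : x ≠ z
  xu : x ≠ u
  yz : y ≠ z
  yu : y ≠ u
  zu : z ≠ u

theorem Four.swap {x y z u : σ} (h : Four x y z u) : Four x y u z :=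
  ⟨h.xy, h.xu, h.xz, h.yu, h.yz, h.zu.symm⟩

theorem Four.nodup {x y z u : σ} (h : Four x y z u) : [x, y, z, u].Nodup := by
  simp [h.xy, h.xz, h.xu, h.yz, h.yu, h.zu]

/-- a cocycle of homological degree `D - 1` and coefficient degree `2 D - 2` -/
structure Co (D : ℕ) (x y z u : σ) (ν : σ → ℕ) (F : Fn σ) : Prop where
  ss : SS F
  sp : Sp D 0 0 (D - 1) 0 ν F
  dF : dW D F = 0
  dg : dg ν = (D - 1) * D + (2 * D - 2)
  sup : ∀ i, i ≠ x → i ≠ y → i ≠ z → i ≠ u → ν i = 0

section
variable {D : ℕ} {x y z u : σ} {F G : Fn σ} {ν : σ → ℕ}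

theorem Co.swap (h : Co D x y z u ν F) : Co D x y u z ν F :=
  ⟨h.ss, h.sp, h.dF, h.dg, fun i h1 h2 h3 h4 => h.sup i h1 h2 h4 h3⟩

theorem Co.R (h : Co D x y z u ν F) {k i : σ} (hi : ν i ≠ 0)
    (hk : k = x ∨ k = y ∨ k = z ∨ k = u) : Co D x y z u ((ν - ep i) + ep k) (R k i F) := by
  refine ⟨SS_R h.ss k i, ?_, R_cocycle h.dF k i, ?_, ?_⟩
  · apply Sp_R h.ss
    rw [sub_ep_add hi]; exact h.sp
  · rw [dg_add, dg_ep, dg_sub ν i hi, h.dg]
  · intro j h1 h2 h3 h4
    have h5 := h.sup j h1 h2 h3 h4
    have h6 : j ≠ k := by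
      rintro rfl
      rcases hk with h | h | h | h
      · exact h1 h
      · exact h2 h
      · exact h3 h
      · exact h4 h
    simp [ep, h6, h5]

theorem Co.smul_sub (h : Co D x y z u ν F) (h' : Co D x y z u ν G) (c : ℂ) :
    Co D x y z u ν (F - c • G) := by
  refine ⟨h.ss.sub (h'.ss.smul c), h.sp.sub (h'.sp.smul c), ?_, h.dg, h.sup⟩
  rw [dW_sub', dW_smul', h.dF, h'.dF, smul_zero, sub_zero]

/-- highest weight classes -/
theorem hst (hD : 3 ≤ D) (h4 : Four x y z u) (h : Co D x y z u ν F)
    (hp : [x, y, z, u].Pairwise (fun a b => Bn D (R a b F))) :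
    Bn D F ∨ (ν x = cc D ∧ ν y = cc D ∧ ν z = 0 ∧ ν u = 0) := by
  by_cases hc : (supp ν).card ≤ 2
  · rcases two_supp_wt (by omega) h.dg h.ss h.sp h.dF hc with h1 | ⟨a, b, hab, ha, hb, hab0⟩
    · exact Or.inl h1
    · by_cases hB : Bn D F
      · exact Or.inl hB
      · right
        simp only [List.pairwise_cons, List.mem_cons, List.not_mem_nil, or_false,
          forall_eq_or_imp, forall_eq, false_imp_iff, implies_true, List.Pairwise.nil,
          and_true] at hp
        obtain ⟨⟨pxy, pxz, pxu⟩, ⟨pyz, pyu⟩, pzu⟩ := hp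
        have c0 := cc_pos (D := D) (by omega)
        have hs : ∀ k l : σ, k ≠ l → Bn D (R k l F) → ν k = 0 → ν l = 0 := by
          intro k l hkl hR hk
          by_contra hl
          exact hB (step0 h.ss h.sp hkl hk hl hR)
        have hmem : ∀ i, ν i ≠ 0 → i = x ∨ i = y ∨ i = z ∨ i = u := by
          intro i hi
          by_contra hn
          push Not at hn
          exact hi (h.sup i hn.1 hn.2.1 hn.2.2.1 hn.2.2.2)
        have hab' : ∀ i, ν i ≠ 0 → i = a ∨ i = b := by
          intro i hi
          by_contra hn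
          push Not at hn
          exact hi (hab0 i hn.1 hn.2)
        have hx : ν x ≠ 0 := by
          intro hx
          have e1 := hs x y h4.xy pxy hx
          have e2 := hs x z h4.xz pxz hx
          have e3 := hs x u h4.xu pxu hx
          rcases hmem a (by omega) with r | r | r | r <;> rw [r] at ha <;> omega
        have hy : ν y ≠ 0 := by
          intro hy
          have e2 := hs y z h4.yz pyz hy
          have e3 := hs y u h4.yu pyu hy
          have ra : a = x := by
            rcases hmem a (by omega) with r | r | r | r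
            · exact r
            · rw [r] at ha; omega
            · rw [r] at ha; omega
            · rw [r] at ha; omega
          have rb : b = x := by
            rcases hmem b (by omega) with r | r | r | r
            · exact r
            · rw [r] at hb; omega
            · rw [r] at hb; omega
            · rw [r] at hb; omega
          exact hab (rb.trans ra.symm)
        rcases hab' x hx with r | r
        · rcases hab' y hy with s | s
          · exact absurd (r.trans s.symm) h4.xy
          · refine ⟨by rw [r]; exact ha, by rw [s]; exact hb, ?_, ?_⟩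
            · exact hab0 z (by rw [← r]; exact h4.xz.symm) (by rw [← s]; exact h4.yz.symm)
            · exact hab0 u (by rw [← r]; exact h4.xu.symm) (by rw [← s]; exact h4.yu.symm)
        · rcases hab' y hy with s | s
          · refine ⟨by rw [r]; exact hb, by rw [s]; exact ha, ?_, ?_⟩
            · exact hab0 z (by rw [← s]; exact h4.yz.symm) (by rw [← r]; exact h4.xz.symm)
            · exact hab0 u (by rw [← s]; exact h4.yu.symm) (by rw [← r]; exact h4.xu.symm)
          · exact absurd (r.trans s.symm) h4.xy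
  · left
    have hsub : supp ν ⊆ ([x, y, z, u].filter (fun k => ν k ≠ 0)).toFinset := by
      intro i hi
      have hi' : ν i ≠ 0 := by
        simp only [supp, Finset.mem_filter, Finset.mem_univ, true_and] at hi; exact hi
      have hm : i ∈ [x, y, z, u] := by
        by_contra hn
        simp only [List.mem_cons, List.not_mem_nil, or_false, not_or] at hn
        exact hi' (h.sup i hn.1 hn.2.1 hn.2.2.1 hn.2.2.2)
      rw [List.mem_toFinset, List.mem_filter]
      exact ⟨hm, by simpa using hi'⟩
    have hcard := Finset.card_le_card hsub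
    have hlen := List.toFinset_card_le ([x, y, z, u].filter (fun k => ν k ≠ 0))
    have hs1 : (([x, y, z, u].filter (fun k => ν k ≠ 0)).take 3).Sublist [x, y, z, u] :=
      (List.take_sublist _ _).trans List.filter_sublist
    refine three hD h.dg h.ss h.sp h.dF (([x, y, z, u].filter (fun k => ν k ≠ 0)).take 3)
      (h4.nodup.sublist hs1) (hp.sublist hs1) ?_ ?_
    · intro k hk
      have := (List.mem_filter.1 (List.mem_of_mem_take hk)).2
      simpa using this
    · rw [List.length_take]; omega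

theorem R_big (hD : 3 ≤ D) (h : Co D x y z u ν F) (hx : ν x = cc D) {k : σ} (hk : x ≠ k) :
    Bn D (R x k F) := by
  by_cases hk0 : ν k = 0
  · rw [R_wt0 h.sp hk0]; exact Bn.zero
  · have h1 := h.R (k := x) hk0 (Or.inl rfl)
    refine Van.bn (Van_big hD _ h1.dg ⟨x, ?_⟩) h1.ss h1.sp h1.dF
    simp [ep, hk]; omega

/-- classes killed by the two raising operators into `y` vanish -/
theorem inj2 (hD : 3 ≤ D) (h4 : Four x y z u) : ∀ (n : ℕ) (ν : σ → ℕ) (F : Fn σ),
    Co D x y z u ν F → ν x = cc D → ν u = n → Bn D (R y z F) → Bn D (R y u F) →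
    (ν z ≠ 0 ∨ ν u ≠ 0) → Bn D F := by
  intro n
  induction n with
  | zero =>
    intro ν F h hx hn hz hu hne
    have hR : Bn D (R z u F) := by rw [R_wt0 h.sp hn]; exact Bn.zero
    have hp : [x, y, z, u].Pairwise (fun a b => Bn D (R a b F)) := by
      simp only [List.pairwise_cons, List.mem_cons, List.not_mem_nil, or_false,
        forall_eq_or_imp, forall_eq, false_imp_iff, implies_true, List.Pairwise.nil, and_true]
      exact ⟨⟨R_big hD h hx h4.xy, R_big hD h hx h4.xz, R_big hD h hx h4.xu⟩, ⟨hz, hu⟩, hR⟩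
    rcases hst hD h4 h hp with h1 | h1
    · exact h1
    · omega
  | succ n ih =>
    intro ν F h hx hn hz hu hne
    have hu0 : ν u ≠ 0 := by omega
    have h1 := h.R (k := z) hu0 (Or.inr (Or.inr (Or.inl rfl)))
    have c1 := R_comm (a := y) (b := z) (c := z) (d := u) h4.yz h4.zu (E0_of_Sp h.sp)
    rw [if_pos rfl, if_neg h4.yu, sub_zero] at c1
    have c2 := R_comm (a := y) (b := u) (c := z) (d := u) h4.yu h4.zu (E0_of_Sp h.sp)
    rw [if_neg h4.zu.symm, if_neg h4.yu, sub_zero, add_zero] at c2
    have hR : Bn D (R z u F) := by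
      refine ih _ _ h1 ?_ ?_ ?_ ?_ ?_
      · simp [ep, h4.xz, h4.xu, hx]
      · simp [ep, h4.zu.symm, hn]
      · rw [c1]; exact (hz.R z u).add hu
      · rw [c2]; exact hu.R z u
      · left; simp [ep]
    have hp : [x, y, z, u].Pairwise (fun a b => Bn D (R a b F)) := by
      simp only [List.pairwise_cons, List.mem_cons, List.not_mem_nil, or_false,
        forall_eq_or_imp, forall_eq, false_imp_iff, implies_true, List.Pairwise.nil, and_true]
      exact ⟨⟨R_big hD h hx h4.xy, R_big hD h hx h4.xz, R_big hD h hx h4.xu⟩, ⟨hz, hu⟩, hR⟩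
    rcases hst hD h4 h hp with h2 | h2
    · exact h2
    · omega

/-- injectivity of the raising operator from `u` to `y` -/
theorem inj1 (hD : 3 ≤ D) (h4 : Four x y z u) : ∀ (n : ℕ) (ν : σ → ℕ) (F : Fn σ),
    Co D x y z u ν F → ν x = cc D → ν z = n → Bn D (R y u F) → ν u ≠ 0 → Bn D F := by
  intro n
  induction n with
  | zero =>
    intro ν F h hx hn hu hne
    have hR : Bn D (R y z F) := by rw [R_wt0 h.sp hn]; exact Bn.zero
    exact inj2 hD h4 _ ν F h hx rfl hR hu (Or.inr hne)
  | succ n ih =>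
    intro ν F h hx hn hu hne
    have hz0 : ν z ≠ 0 := by omega
    have h1 := h.R (k := y) hz0 (Or.inr (Or.inl rfl))
    have c1 := R_comm (a := y) (b := u) (c := y) (d := z) h4.yu h4.yz (E0_of_Sp h.sp)
    rw [if_neg h4.yu.symm, if_neg h4.yz, sub_zero, add_zero] at c1
    have hR : Bn D (R y z F) := by
      refine ih _ _ h1 ?_ ?_ ?_ ?_
      · simp [ep, h4.xz, h4.xy, hx]
      · simp [ep, h4.yz.symm, hn]
      · rw [c1]; exact hu.R y z
      · simp [ep, h4.yu.symm, h4.zu.symm, hne]
    exact inj2 hD h4 _ ν F h hx rfl hR hu (Or.inr hne)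

/-- raising and lowering -/
theorem fe (hD : 3 ≤ D) (h4 : Four x y z u) : ∀ (q : ℕ) (ν : σ → ℕ) (F : Fn σ),
    Co D x y z u ν F → ν x = cc D → ν u = q →
    Bn D (R u y (R y u F) - (((q * (ν y + 1) : ℕ)) : ℂ) • F) := by
  intro q
  induction q with
  | zero =>
    intro ν F h hx hn
    rw [R_wt0 h.sp hn, R_zero]
    simp only [Nat.zero_mul, Nat.cast_zero, zero_smul, sub_zero]
    exact Bn.zero
  | succ q ih =>
    intro ν F h hx hn
    have hu0 : ν u ≠ 0 := by omega
    have h1 := h.R (k := y) hu0 (Or.inr (Or.inl rfl))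
    have hy1 : ((ν - ep u) + ep y) y = ν y + 1 := by simp [ep, h4.yu]
    have hu1 : ((ν - ep u) + ep y) u = q := by simp [ep, h4.yu.symm, hn]
    have hx1 : ((ν - ep u) + ep y) x = cc D := by simp [ep, h4.xu, h4.xy, hx]
    have h2 := h1.R (k := u) (i := y) (by rw [hy1]; omega) (Or.inr (Or.inr (Or.inr rfl)))
    have e1 : (ν - ep u) + ep y - ep y + ep u = ν := by
      have : (ν - ep u) + ep y - ep y = ν - ep u := by funext w; simp
      rw [this, sub_ep_add hu0]
    rw [e1] at h2
    have h3 := h2.smul_sub h (((((q + 1) * (ν y + 1) : ℕ)) : ℂ))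
    refine inj1 hD h4 _ ν _ h3 hx rfl ?_ hu0
    have ih1 := ih _ _ h1 hx1 hu1
    rw [hy1] at ih1
    have c1 := R_comm (a := y) (b := u) (c := u) (d := y) h4.yu h4.yu.symm (E0_of_Sp h1.sp)
    rw [if_pos rfl, if_pos rfl, R_self h1.ss h1.sp y, R_self h1.ss h1.sp u, hy1, hu1] at c1
    rw [R_sub, R_smul, c1]
    have e2 : R u y (R y u (R y u F)) + ((((ν y + 1 : ℕ)) : ℂ) • R y u F - (((q : ℕ)) : ℂ) • R y u F)
        - ((((q + 1) * (ν y + 1) : ℕ)) : ℂ) • R y u F =
        R u y (R y u (R y u F)) - (((q * (ν y + 1 + 1) : ℕ)) : ℂ) • R y u F := by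
      push_cast
      module
    rw [e2]
    exact ih1

/-- one step formula for the evaluation -/
theorem Zt_step (hD : 3 ≤ D) (h4 : Four x y z u) (h : Co D x y z u ν F) (hx : ν x = cc D)
    {a : σ → ℕ} (hau : a u = ν u) (hu : ν u ≠ 0) :
    Zt D x y (R y u F) (a - ep u + ep y) = ((ν y + 1 : ℕ) : ℂ) * Zt D x y F a := by
  have h1 := fe hD h4 (ν u) ν F h hx rfl
  have h2 := Zt_bn (x := x) (y := y) h1 a
  rw [Zt_sub, Zt_smul, Zt_R h4.xu.symm h4.yu.symm h4.xy.symm, hau] at h2
  have h3 : ((ν u : ℕ) : ℂ) ≠ 0 := by exact_mod_cast hu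
  have h4' : ((ν u : ℕ) : ℂ) * (Zt D x y (R y u F) (a - ep u + ep y) -
      ((ν y + 1 : ℕ) : ℂ) * Zt D x y F a) = 0 := by
    rw [← h2]; push_cast; ring
  exact sub_eq_zero.1 ((mul_eq_zero.1 h4').resolve_left h3)

end

end Pool.Agent.H86.VS
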