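import Pool.Agent.H69.VS.Red

/-!
Insertion of a letter, the functions dual to words, and the pairing of functions of words.
-/

set_option linter.unusedSectionVars false

namespace Pool.Agent.H86.VS

open scoped BigOperators
open Pool.Agent.H69.VS

variable {σ : Type} [Fintype σ] [DecidableEq σ]

/-- insertion of the odd letter of `a` -/
def ins (a : σ → ℕ) : Fn σ → Fn σ
  | _, [], _ => 0
  | F, Lt.T y :: w, f => ins a (Af (Lt.T y) F) w f
  | F, Lt.E e :: w, f => (if e = a then F w f else 0) - ins a (Af (Lt.E e) F) w f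

/-- the function of the empty word and the monomial `g` -/
def base (g : σ → ℕ) : Fn σ
  | [], f => if f = g then 1 else 0
  | _ :: _, _ => 0

/-- indicator -/
noncomputable def cI (e a : σ → ℕ) : ℂ := if e = a then 1 else 0

section lin
variable (a : σ → ℕ) (F G : Fn σ) (c : ℂ)

@[simp] theorem ins_nil (f : σ → ℕ) : ins a F [] f = 0 := by simp [ins]

theorem ins_add (w : List (Lt σ)) (f : σ → ℕ) : ins a (F + G) w f = ins a F w f + ins a G w f := by
  induction w generalizing F G f with
  | nil => simp
  | cons x w ih =>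
    cases x with
    | T y => simp only [ins, Af_add, ih]
    | E e =>
      simp only [ins, Af_add, ih, Pi.add_apply]
      split_ifs <;> ring

theorem ins_smul (w : List (Lt σ)) (f : σ → ℕ) : ins a (c • F) w f = c * ins a F w f := by
  induction w generalizing F f with
  | nil => simp
  | cons x w ih =>
    cases x with
    | T y => simp only [ins, Af_smul, ih]
    | E e =>
      simp only [ins, Af_smul, ih, Pi.smul_apply, smul_eq_mul]
      split_ifs <;> ring

theorem ins_add' : ins a (F + G) = ins a F + ins a G := by funext w f; exact ins_add a F G w f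
theorem ins_smul' : ins a (c • F) = c • ins a F := by funext w f; exact ins_smul a F c w f
theorem ins_neg' : ins a (-F) = - ins a F := by rw [← neg_one_smul ℂ F, ins_smul', neg_one_smul]
theorem ins_sub' : ins a (F - G) = ins a F - ins a G := by
  rw [sub_eq_add_neg, ins_add', ins_neg', ← sub_eq_add_neg]
theorem ins_zero' : ins a (0 : Fn σ) = 0 := by
  simpa using ins_smul' a (0 : Fn σ) 0

theorem AE_ins (e : σ → ℕ) : Af (Lt.E e) (ins a F) = cI e a • F - ins a (Af (Lt.E e) F) := by
  funext w f
  simp only [Af, ins, cI, Pi.sub_apply, Pi.smul_apply, smul_eq_mul]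
  split_ifs <;> simp
theorem AT_ins (y : σ → ℕ) : Af (Lt.T y) (ins a F) = ins a (Af (Lt.T y) F) := by
  funext w f
  simp only [Af, ins]

end lin

theorem ins_sum (a : σ → ℕ) {ι : Type} (s : Finset ι) (G : ι → Fn σ) :
    ins a (∑ i ∈ s, G i) = ∑ i ∈ s, ins a (G i) := by
  classical
  induction s using Finset.induction_on with
  | empty => simp [ins_zero']
  | insert i s hi ih => rw [Finset.sum_insert hi, Finset.sum_insert hi, ins_add', ih]

theorem ins_sg (a g : σ → ℕ) (F : Fn σ) : ins a (sg g F) = sg g (ins a F) := by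
  rw [← sub_eq_zero]
  refine rec_zero (fun F => ins a (sg g F) - sg g (ins a F)) (by simp [sg]) ?_ F
  intro F x
  cases x with
  | T y => exact ⟨1, by simp only [Af_sub, AT_ins, Af_sg]; module⟩
  | E e => exact ⟨-1, by simp only [Af_sub, AE_ins, Af_sg, sg_sub, sg_smul]; module⟩

theorem dW_ins (D : ℕ) (a : σ → ℕ) (F : Fn σ) : dW D (ins a F) + ins a (dW D F) = 0 := by
  refine rec_zero (fun F => dW D (ins a F) + ins a (dW D F)) (by simp) ?_ F
  intro F x
  cases x with
  | T y =>
    refine ⟨1, ?_⟩
    simp only [Af_add, AT_dW, AT_ins]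
    module
  | E e =>
    refine ⟨1, ?_⟩
    simp only [Af_add, AE_dW, AE_ins, dW_sub', dW_smul', ins_sub', ins_smul', ins_sg]
    module

theorem ins_ins (a b : σ → ℕ) (F : Fn σ) : ins a (ins b F) + ins b (ins a F) = 0 := by
  refine rec_zero (fun F => ins a (ins b F) + ins b (ins a F)) (by simp) ?_ F
  intro F x
  cases x with
  | T y =>
    refine ⟨1, ?_⟩
    simp only [Af_add, AT_ins]
    module
  | E e =>
    refine ⟨1, ?_⟩
    simp only [Af_add, AE_ins, ins_sub', ins_smul']
    module

theorem SS_ins {F : Fn σ} (h : SS F) (a : σ → ℕ) : SS (ins a F) := by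
  refine SS_of (ins a) ?_ ?_ h
  · intro F h x y
    have hfr := h.front x y
    have hfr2 := congrArg (ins a) hfr
    rw [ins_smul'] at hfr2
    cases x <;> cases y <;> simp only [sn, one_smul] at hfr hfr2 ⊢ <;>
      simp only [AE_ins, AT_ins, Af_sub, Af_smul, ins_sub', ins_smul', hfr2] <;> module
  · intro F z h
    cases z with
    | T y => exact ⟨1, 0, SS.zero, by rw [AT_ins]; module⟩
    | E e => exact ⟨-1, cI e a • F, h.smul _, by rw [AE_ins]; module⟩

theorem SS_base (g : σ → ℕ) : SS (base g) := by
  intro u x y v f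
  have h : ∀ (u : List (Lt σ)) (z : Lt σ) (v : List (Lt σ)), base g (u ++ z :: v) f = 0 := by
    intro u z v
    cases u <;> rfl
  rw [h, h, mul_zero]

theorem ins_ne (a : σ → ℕ) : ∀ (w : List (Lt σ)) (F : Fn σ) (f : σ → ℕ), ins a F w f ≠ 0 →
    ∃ u v, w = u ++ Lt.E a :: v ∧ F (u ++ v) f ≠ 0
  | [], F, f, h => absurd (ins_nil a F f) h
  | Lt.T y :: w, F, f, h => by
    obtain ⟨u, v, h1, h3⟩ := ins_ne a w (Af (Lt.T y) F) f (by simpa only [ins] using h)
    exact ⟨Lt.T y :: u, v, by rw [h1]; rfl, h3⟩
  | Lt.E e :: w, F, f, h => by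
    by_cases h0 : (if e = a then F w f else 0) = 0
    · obtain ⟨u, v, h1, h3⟩ := ins_ne a w (Af (Lt.E e) F) f (by
        intro h4; apply h; simp only [ins]; rw [h4, h0]; simp)
      exact ⟨Lt.E e :: u, v, by rw [h1]; rfl, h3⟩
    · by_cases h1 : e = a
      · rw [if_pos h1] at h0
        exact ⟨[], w, by rw [h1]; rfl, h0⟩
      · rw [if_neg h1] at h0; exact absurd rfl h0

theorem Sp_ins {D s c t m : ℕ} {α : σ → ℕ} {F : Fn σ} (h : Sp D s c t m α F) {a : σ → ℕ}
    (ha : dg a = D) : Sp D s c (t + 1) m (a + α) (ins a F) := by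
  intro w f hne
  obtain ⟨u, v, rfl, h3⟩ := ins_ne a w F f hne
  obtain ⟨a1, a2, a3, a4⟩ := h _ _ h3
  refine ⟨?_, ?_, ?_, ?_⟩
  · simp only [List.length_append, List.length_cons] at a1 ⊢; omega
  · simp only [nT_append, nT] at a2 ⊢; omega
  · rw [← a3]; simp only [md_append, md]; abel
  · intro x hx
    simp only [List.mem_append, List.mem_cons] at hx a4
    rcases hx with hx | hx | hx
    · exact a4 x (Or.inl hx)
    · subst hx; exact ha
    · exact a4 x (Or.inr hx)

theorem Sp_base (D : ℕ) (g : σ → ℕ) : Sp D 0 0 0 0 g (base g) := by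
  intro w f hne
  cases w with
  | nil =>
    have : f = g := by
      by_contra h; apply hne; simp [base, h]
    subst this
    exact ⟨rfl, rfl, by simp [md], by simp⟩
  | cons x w => exact absurd rfl hne

/-- the function dual to a word of odd letters and a monomial -/
def alt (A : List (σ → ℕ)) (g : σ → ℕ) : Fn σ := A.foldr ins (base g)

theorem alt_nil (g : σ → ℕ) : alt [] g = base g := rfl
theorem alt_cons (a : σ → ℕ) (A : List (σ → ℕ)) (g : σ → ℕ) : alt (a :: A) g = ins a (alt A g) := rfl

theorem SS_alt (A : List (σ → ℕ)) (g : σ → ℕ) : SS (alt A g) := by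
  induction A with
  | nil => exact SS_base g
  | cons a A ih => exact SS_ins ih a

theorem Sp_alt {D : ℕ} (A : List (σ → ℕ)) (g : σ → ℕ) (hA : ∀ a ∈ A, dg a = D) :
    Sp D 0 0 A.length 0 (A.sum + g) (alt A g) := by
  induction A with
  | nil => simpa [alt_nil] using Sp_base D g
  | cons a A ih =>
    have h1 := Sp_ins (ih (fun b hb => hA b (List.mem_cons_of_mem _ hb))) (hA a List.mem_cons_self)
    rw [List.sum_cons, add_assoc, List.length_cons]
    exact h1

theorem alt_front {A : List (σ → ℕ)} {x : σ → ℕ} (hx : x ∉ A) (g : σ → ℕ) :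
    Af (Lt.E x) (alt A g) = 0 := by
  induction A with
  | nil => rfl
  | cons a A ih =>
    have h1 : x ≠ a := fun e => hx (by rw [e]; exact List.mem_cons_self)
    have h2 := ih (fun h => hx (List.mem_cons_of_mem _ h))
    rw [alt_cons, AE_ins, h2, ins_zero']
    simp [cI, h1]

theorem alt_head {A : List (σ → ℕ)} {a : σ → ℕ} (ha : a ∉ A) (g : σ → ℕ) :
    Af (Lt.E a) (alt (a :: A) g) = alt A g := by
  rw [alt_cons, AE_ins, alt_front ha, ins_zero']
  simp [cI]

/-- letters which can be split off a monomial -/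
def lets (D : ℕ) (g : σ → ℕ) : Finset (σ → ℕ) := (Finset.Iic g).filter (fun e => dg e = D)

theorem mem_lets {D : ℕ} {g e : σ → ℕ} : e ∈ lets D g ↔ e ≤ g ∧ dg e = D := by
  simp [lets]

theorem sum_Fn {ι : Type} (s : Finset ι) (G : ι → Fn σ) (w : List (Lt σ)) (f : σ → ℕ) :
    (∑ i ∈ s, G i) w f = ∑ i ∈ s, G i w f := by
  rw [Finset.sum_apply, Finset.sum_apply]

theorem dW_base (D : ℕ) (g : σ → ℕ) : dW D (base g) = ∑ e ∈ lets D g, ins e (base (g - e)) := by
  funext w f
  rw [sum_Fn]
  cases w with
  | nil => simp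
  | cons x w =>
    cases x with
    | T y =>
      have h1 : Af (Lt.T y) (base g) = 0 := rfl
      have h2 : ∀ e : σ → ℕ, Af (Lt.T y) (base (g - e)) = 0 := fun e => rfl
      simp only [dW, ins, h1, h2, dW_zero', ins_zero']
      simp
    | E a =>
      have h1 : Af (Lt.E a) (base g) = 0 := rfl
      have h2 : ∀ e : σ → ℕ, Af (Lt.E a) (base (g - e)) = 0 := fun e => rfl
      simp only [dW, ins, h1, h2, dW_zero', ins_zero', Pi.zero_apply, sub_zero]
      cases w with
      | cons z w => simp [base]
      | nil =>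
        simp only [base]
        by_cases ha : a ∈ lets D g
        · have ha' := mem_lets.1 ha
          rw [Finset.sum_eq_single a]
          · rw [if_pos ha'.2, if_pos rfl]
            have : (f + a = g) ↔ (f = g - a) := by
              constructor
              · intro h; rw [← h]; funext z; simp
              · intro h; rw [h]; exact tsub_add_cancel_of_le ha'.1
            simp only [this]
          · intro b _ hb
            rw [if_neg (fun h => hb h.symm)]
          · intro h; exact absurd ha h
        · rw [Finset.sum_eq_zero]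
          · by_cases h3 : dg a = D
            · rw [if_pos h3, if_neg]
              intro h4
              apply ha
              rw [mem_lets]
              refine ⟨?_, h3⟩
              rw [← h4]
              exact le_add_self
            · rw [if_neg h3]
          · intro b hb
            rw [if_neg]
            intro h; exact ha (h ▸ hb)

theorem dW_alt (D : ℕ) (A : List (σ → ℕ)) (g : σ → ℕ) :
    dW D (alt A g) = ∑ e ∈ lets D g, alt (e :: A) (g - e) := by
  induction A with
  | nil => exact dW_base D g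
  | cons a A ih =>
    have h1 := dW_ins D a (alt A g)
    rw [alt_cons, eq_neg_of_add_eq_zero_left h1, ih, ins_sum, ← Finset.sum_neg_distrib]
    apply Finset.sum_congr rfl
    intro e _
    have h2 := ins_ins a e (alt A (g - e))
    simp only [alt_cons]
    rw [eq_neg_of_add_eq_zero_left h2, neg_neg]

theorem alt_append (u v : List (σ → ℕ)) (g : σ → ℕ) : alt (u ++ v) g = u.foldr ins (alt v g) := by
  simp [alt, List.foldr_append]

theorem foldr_ins_sum (u : List (σ → ℕ)) {ι : Type} (s : Finset ι) (G : ι → Fn σ) :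
    u.foldr ins (∑ i ∈ s, G i) = ∑ i ∈ s, u.foldr ins (G i) := by
  induction u with
  | nil => rfl
  | cons a u ih => simp only [List.foldr_cons, ih, ins_sum]

theorem foldr_ins_smul (u : List (σ → ℕ)) (c : ℂ) (G : Fn σ) :
    u.foldr ins (c • G) = c • u.foldr ins G := by
  induction u with
  | nil => rfl
  | cons a u ih => simp only [List.foldr_cons, ih, ins_smul']

theorem dW_foldr (D : ℕ) (u : List (σ → ℕ)) (G : Fn σ) :
    ∃ c : ℂ, c ≠ 0 ∧ dW D (u.foldr ins G) = c • u.foldr ins (dW D G) := by
  induction u with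
  | nil => exact ⟨1, one_ne_zero, by simp⟩
  | cons a u ih =>
    obtain ⟨c, hc, h⟩ := ih
    refine ⟨-c, neg_ne_zero.2 hc, ?_⟩
    have h1 := dW_ins D a (u.foldr ins G)
    simp only [List.foldr_cons]
    rw [eq_neg_of_add_eq_zero_left h1, h, ins_smul']
    module

/-- the relation at an inner position -/
theorem dW_alt_mid (D : ℕ) (u v : List (σ → ℕ)) (g : σ → ℕ) :
    ∃ c : ℂ, c ≠ 0 ∧ dW D (alt (u ++ v) g) = c • ∑ e ∈ lets D g, alt (u ++ e :: v) (g - e) := by
  obtain ⟨c, hc, h⟩ := dW_foldr D u (alt v g)
  refine ⟨c, hc, ?_⟩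
  rw [alt_append, h, dW_alt, foldr_ins_sum]
  congr 1
  apply Finset.sum_congr rfl
  intro e _
  rw [alt_append]

end Pool.Agent.H86.VS
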