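import Pool.Agent.H86.VS.Ins

/-!
The duality pairing of functions of words on the two halves of a list of letters, and the
Leibniz rule.
-/

set_option linter.unusedSectionVars false

namespace Pool.Agent.H86.VS

open scoped BigOperators
open Pool.Agent.H69.VS

variable {σ : Type} [Fintype σ] [DecidableEq σ]

/-- sign twist -/
def ev (F : Fn σ) : Fn σ := fun w f => (-1 : ℂ) ^ w.length * F w f

/-- pairing of the values at the empty word -/
noncomputable def pr (s : σ → ℕ) (F G : Fn σ) : ℂ := ∑ f ∈ Finset.Iic s, F [] f * G [] (s - f)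

/-- the pairing -/
noncomputable def J (s : σ → ℕ) : List (Lt σ) → Fn σ → Fn σ → ℂ
  | [], F, G => pr s F G
  | x :: L, F, G => J s L (Af x F) G + J s L (ev F) (Af x G)

/-- values vanish at monomials which do not divide `s` -/
def Bs (s : σ → ℕ) (F : Fn σ) : Prop := ∀ w f, ¬ f ≤ s → F w f = 0

section
variable {s : σ → ℕ} {F G : Fn σ}

theorem Bs.af (h : Bs s F) (x : Lt σ) : Bs s (Af x F) := fun w f hf => h (x :: w) f hf
theorem Bs.ev (h : Bs s F) : Bs s (ev F) := fun w f hf => by
  simp only [VS.ev, h w f hf, mul_zero]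

theorem ev_ev (F : Fn σ) : ev (ev F) = F := by
  funext w f
  simp only [ev]
  rw [← mul_assoc, ← mul_pow]; simp

theorem ev_sg (g : σ → ℕ) (F : Fn σ) : ev (sg g F) = sg g (ev F) := rfl

theorem Af_ev (x : Lt σ) (F : Fn σ) : Af x (ev F) = - ev (Af x F) := by
  funext w f
  simp only [Af, ev, Pi.neg_apply, List.length_cons, pow_succ]
  ring

theorem ev_add (F G : Fn σ) : ev (F + G) = ev F + ev G := by
  funext w f; simp only [ev, Pi.add_apply]; ring
theorem ev_smul (c : ℂ) (F : Fn σ) : ev (c • F) = c • ev F := by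
  funext w f; simp only [ev, Pi.smul_apply, smul_eq_mul]; ring
theorem ev_neg (F : Fn σ) : ev (-F) = - ev F := by
  funext w f; simp only [ev, Pi.neg_apply]; ring
theorem ev_sub (F G : Fn σ) : ev (F - G) = ev F - ev G := by
  funext w f; simp only [ev, Pi.sub_apply]; ring

theorem ev_dW (D : ℕ) (F : Fn σ) : ev (dW D F) = - dW D (ev F) := by
  rw [← sub_eq_zero, sub_neg_eq_add]
  refine rec_zero (fun F => ev (dW D F) + dW D (ev F)) (by simp [ev]) ?_ F
  intro F x
  cases x with
  | T y =>
    refine ⟨-1, ?_⟩
    simp only [Af_add, AT_dW, Af_ev, dW_neg']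
    module
  | E e =>
    refine ⟨1, ?_⟩
    simp only [Af_add, AE_dW, Af_ev, dW_neg', ev_sub, ev_smul, ev_sg]
    module

theorem pr_add_left (F F' G : Fn σ) : pr s (F + F') G = pr s F G + pr s F' G := by
  simp only [pr, Pi.add_apply, add_mul, Finset.sum_add_distrib]
theorem pr_add_right (F G G' : Fn σ) : pr s F (G + G') = pr s F G + pr s F G' := by
  simp only [pr, Pi.add_apply, mul_add, Finset.sum_add_distrib]
theorem pr_smul_left (c : ℂ) (F G : Fn σ) : pr s (c • F) G = c * pr s F G := by
  simp only [pr, Pi.smul_apply, smul_eq_mul, Finset.mul_sum, mul_assoc]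
theorem pr_smul_right (c : ℂ) (F G : Fn σ) : pr s F (c • G) = c * pr s F G := by
  simp only [pr, Pi.smul_apply, smul_eq_mul, Finset.mul_sum]
  apply Finset.sum_congr rfl
  intro x _; ring

theorem J_add_left (L : List (Lt σ)) (F F' G : Fn σ) : J s L (F + F') G = J s L F G + J s L F' G := by
  induction L generalizing F F' G with
  | nil => exact pr_add_left F F' G
  | cons x L ih => simp only [J, Af_add, ev_add, ih]; ring
theorem J_add_right (L : List (Lt σ)) (F G G' : Fn σ) : J s L F (G + G') = J s L F G + J s L F G' := by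
  induction L generalizing F G G' with
  | nil => exact pr_add_right F G G'
  | cons x L ih => simp only [J, Af_add, ih]; ring
theorem J_smul_left (L : List (Lt σ)) (c : ℂ) (F G : Fn σ) : J s L (c • F) G = c * J s L F G := by
  induction L generalizing F G with
  | nil => exact pr_smul_left c F G
  | cons x L ih => simp only [J, Af_smul, ev_smul, ih]; ring
theorem J_smul_right (L : List (Lt σ)) (c : ℂ) (F G : Fn σ) : J s L F (c • G) = c * J s L F G := by
  induction L generalizing F G with
  | nil => exact pr_smul_right c F G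
  | cons x L ih => simp only [J, Af_smul, ih]; ring
theorem J_neg_left (L : List (Lt σ)) (F G : Fn σ) : J s L (-F) G = - J s L F G := by
  rw [← neg_one_smul ℂ F, J_smul_left]; ring
theorem J_neg_right (L : List (Lt σ)) (F G : Fn σ) : J s L F (-G) = - J s L F G := by
  rw [← neg_one_smul ℂ G, J_smul_right]; ring
theorem J_sub_left (L : List (Lt σ)) (F F' G : Fn σ) : J s L (F - F') G = J s L F G - J s L F' G := by
  rw [sub_eq_add_neg, J_add_left, J_neg_left]; ring
theorem J_sub_right (L : List (Lt σ)) (F G G' : Fn σ) : J s L F (G - G') = J s L F G - J s L F G' := by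
  rw [sub_eq_add_neg, J_add_right, J_neg_right]; ring
theorem J_zero_left (L : List (Lt σ)) (G : Fn σ) : J s L 0 G = 0 := by
  have := J_smul_left (s := s) L 0 0 G
  simpa using this
theorem J_zero_right (L : List (Lt σ)) (F : Fn σ) : J s L F 0 = 0 := by
  have := J_smul_right (s := s) L 0 F 0
  simpa using this

theorem pr_sg (hF : Bs s F) (hG : Bs s G) (e : σ → ℕ) : pr s (sg e F) G = pr s F (sg e G) := by
  unfold pr
  have h1 : ∀ f : σ → ℕ, f ≤ s → F [] (f + e) * G [] (s - f) ≠ 0 → f + e ≤ s := by
    intro f _ h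
    by_contra h2
    exact h (by rw [hF [] _ h2, zero_mul])
  have h2 : ∀ f : σ → ℕ, f ≤ s → F [] f * G [] (s - f + e) ≠ 0 → e ≤ f := by
    intro f hf h
    by_contra h2
    apply h
    rw [hG [] _ (fun h3 => h2 ?_), mul_zero]
    intro l
    show e l ≤ f l
    have h4 : (s - f + e) l ≤ s l := h3 l
    have h5 : f l ≤ s l := hf l
    simp only [Pi.add_apply, Pi.sub_apply] at h4 h5
    omega
  refine Finset.sum_bij_ne_zero (fun f _ _ => f + e) ?_ ?_ ?_ ?_
  · intro f hf hne
    exact Finset.mem_Iic.2 (h1 f (Finset.mem_Iic.1 hf) hne)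
  · intro f _ _ f' _ _ h
    exact add_right_cancel h
  · intro f hf hne
    have h3 := h2 f (Finset.mem_Iic.1 hf) hne
    have h4 := Finset.mem_Iic.1 hf
    have e1 : f - e + e = f := tsub_add_cancel_of_le h3
    have e2 : s - (f - e) = s - f + e := by
      funext l
      have h5 : e l ≤ f l := h3 l
      have h6 : f l ≤ s l := h4 l
      simp only [Pi.add_apply, Pi.sub_apply]
      omega
    refine ⟨f - e, Finset.mem_Iic.2 (le_trans tsub_le_self h4), ?_, e1⟩
    simp only [sg, e1, e2]
    exact hne
  · intro f hf hne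
    have h3 := h1 f (Finset.mem_Iic.1 hf) hne
    have e2 : s - (f + e) + e = s - f := by
      funext l
      have h6 : f l + e l ≤ s l := h3 l
      simp only [Pi.add_apply, Pi.sub_apply] at h6 ⊢
      omega
    simp only [sg, e2]

theorem J_sg (L : List (Lt σ)) (hF : Bs s F) (hG : Bs s G) (e : σ → ℕ) :
    J s L (sg e F) G = J s L F (sg e G) := by
  induction L generalizing F G with
  | nil => exact pr_sg hF hG e
  | cons x L ih =>
    simp only [J, Af_sg, ev_sg]
    rw [ih (hF.af x) hG, ih hF.ev (hG.af x)]

/-- Leibniz rule -/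
theorem J_dW (D : ℕ) (L : List (Lt σ)) (hL : ∀ x ∈ L, ∃ e, x = Lt.E e ∧ dg e = D)
    (hF : Bs s F) (hG : Bs s G) : J s L (dW D F) G = J s L (ev F) (dW D G) := by
  induction L generalizing F G with
  | nil =>
    simp [J, pr]
  | cons x L ih =>
    obtain ⟨e, rfl, he⟩ := hL x List.mem_cons_self
    have ih' := fun {F G : Fn σ} (hF : Bs s F) (hG : Bs s G) =>
      ih (F := F) (G := G) (fun y hy => hL y (List.mem_cons_of_mem _ hy)) hF hG
    have hc : cE D e = 1 := by simp [cE, he]
    simp only [J]
    rw [AE_dW, AE_dW, hc, one_smul, one_smul, ev_dW, Af_ev, ev_ev]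
    rw [J_sub_left, J_neg_left, J_neg_left, J_sub_right]
    rw [J_sg L hF hG, ih' (hF.af _) hG, ih' hF.ev (hG.af _), ev_ev]
    ring

/-- prefix of a word -/
def Aw (w : List (Lt σ)) (F : Fn σ) : Fn σ := fun v f => F (w ++ v) f

theorem J_prefix (w L : List (Lt σ)) (F G : Fn σ) (h : ∀ x ∈ w, Af x G = 0) :
    J s (w ++ L) F G = J s L (Aw w F) G := by
  induction w generalizing F with
  | nil => rfl
  | cons x w ih =>
    simp only [List.cons_append, J]
    rw [h x List.mem_cons_self, J_zero_right, add_zero,
      ih _ (fun y hy => h y (List.mem_cons_of_mem _ hy))]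
    rfl

theorem J_suffix (A : List (σ → ℕ)) (hA : A.Nodup) (F : Fn σ)
    (hF : ∀ x w f, F (x :: w) f = 0) {g : σ → ℕ} (hg : g ≤ s) :
    J s (A.map Lt.E) F (alt A g) = F [] (s - g) := by
  induction A generalizing F with
  | nil =>
    simp only [List.map_nil, J, pr, alt_nil]
    rw [Finset.sum_eq_single (s - g)]
    · have : s - (s - g) = g := by
        funext l
        have : g l ≤ s l := hg l
        simp only [Pi.sub_apply]; omega
      rw [this]; simp [base]
    · intro f hf hne
      have hf' := Finset.mem_Iic.1 hf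
      have : ¬ (s - f = g) := by
        intro h; apply hne
        rw [← h]
        funext l
        have : f l ≤ s l := hf' l
        simp only [Pi.sub_apply]; omega
      simp [base, this]
    · intro h; exact absurd (Finset.mem_Iic.2 tsub_le_self) h
  | cons a A ih =>
    have hA' := List.nodup_cons.1 hA
    have h1 : Af (Lt.E a) F = 0 := by funext w f; exact hF _ w f
    have h2 : ev F = F := by
      funext w f
      cases w with
      | nil => simp [ev]
      | cons x w => simp [ev, hF]
    simp only [List.map_cons, J]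
    rw [h1, J_zero_left, zero_add, h2, alt_head hA'.1]
    exact ih hA'.2 F hF

end

end Pool.Agent.H86.VS
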