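import Pool.Agent.H86.VS.Strand

/-!
Polarization operators on functions of words, boundaries, and the highest weight lemma.
-/

set_option linter.unusedSectionVars false

namespace Pool.Agent.H86.VS

open scoped BigOperators
open Pool.Agent.H69.VS

variable {σ : Type} [Fintype σ] [DecidableEq σ]

/-- polarization: composition with `x_i d/dx_k` -/
noncomputable def R (k i : σ) (F : Fn σ) : Fn σ := rW k i F + ta k (sg (ep i) F)

/-- boundaries -/
def Bn (D : ℕ) (F : Fn σ) : Prop := ∃ U : Fn σ, SS U ∧ dW D U = F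

section
variable {D t : ℕ} {F G v : Fn σ}

theorem Rr_fst (k i : σ) (F : Fn σ) : Rr k i ((F, 0) : Pr σ) = (R k i F, 0) := by
  refine Prod.ext rfl ?_
  simp only [Rr, rW_zero', zero_add]
  funext w f; simp [sg, ta]

theorem Rr_Del (k i : σ) (X : Pr σ) : Rr k i (Del D X) = Del D (Rr k i X) := by
  rw [← Qm_Pp, ← Qm_Pp, Del_add, Pp_Del, Qm_Del]
  have h1 : Qm k (-Del D (Pp i X)) = - Qm k (Del D (Pp i X)) := by
    refine Prod.ext ?_ ?_
    · simp only [Qm, Prod.fst_neg, Prod.snd_neg, qW_neg', ta_neg]; abel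
    · simp only [Qm, Prod.snd_neg, qW_neg']
  rw [h1, Qm_Del, Pp_neg, Pp_Del]
  simp

theorem Del_fst (F : Fn σ) : Del D ((F, 0) : Pr σ) = (dW D F, 0) := by
  refine Prod.ext ?_ ?_
  · simp [Del, hW_zero']
  · simp [Del, dW_zero']

theorem R_dW (k i : σ) (F : Fn σ) : R k i (dW D F) = dW D (R k i F) := by
  have h := Rr_Del (D := D) k i ((F, 0) : Pr σ)
  rw [Del_fst, Rr_fst, Rr_fst, Del_fst] at h
  exact congrArg Prod.fst h

theorem R_add (k i : σ) (F G : Fn σ) : R k i (F + G) = R k i F + R k i G := by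
  simp only [R, rW_add', sg_add, ta_add]; abel
theorem R_smul (k i : σ) (c : ℂ) (F : Fn σ) : R k i (c • F) = c • R k i F := by
  simp only [R, rW_smul', sg_smul, ta_smul, smul_add]
theorem R_neg (k i : σ) (F : Fn σ) : R k i (-F) = - R k i F := by
  rw [← neg_one_smul ℂ F, R_smul, neg_one_smul]
theorem R_sub (k i : σ) (F G : Fn σ) : R k i (F - G) = R k i F - R k i G := by
  rw [sub_eq_add_neg, R_add, R_neg, ← sub_eq_add_neg]
theorem R_zero (k i : σ) : R k i (0 : Fn σ) = 0 := by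
  have := R_smul k i 0 (0 : Fn σ)
  simpa using this

theorem SS_rW (hF : SS F) (k i : σ) : SS (rW k i F) := by
  rw [← qW_pW]
  exact ((hF.pW i).qW k).add ((hF.qW k).pW i)

theorem SS_R (hF : SS F) (k i : σ) : SS (R k i F) := (SS_rW hF k i).add ((hF.sg _).ta k)

theorem Qm_fst_zero {α : σ → ℕ} (hF : Sp D 0 0 t 0 α F) (k : σ) : Qm k ((F, 0) : Pr σ) = 0 := by
  refine Prod.ext ?_ ?_
  · simp only [Qm, hF.qW_zero k]
    funext w f; simp [ta]
  · simp [Qm, qW_zero']

theorem R_eq {α : σ → ℕ} (hF : Sp D 0 0 t 0 α F) (k i : σ) :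
    (R k i F, 0) = Qm k (Pp i ((F, 0) : Pr σ)) := by
  rw [← Rr_fst, ← Qm_Pp, Qm_fst_zero hF, Pp_zero, add_zero]

theorem Sp_R {α : σ → ℕ} (SF : SS F) {i : σ} (hF : Sp D 0 0 t 0 (α + ep i) F) (k : σ) :
    Sp D 0 0 t 0 (α + ep k) (R k i F) := by
  have h1 : SP D t 0 (α + ep i) ((F, 0) : Pr σ) := ⟨SF, SS.zero, hF, Sp.zero⟩
  have h2 := (h1.P i).Q k
  rw [← R_eq hF] at h2
  exact h2.2.2.1

theorem R_wt0 {α : σ → ℕ} (hF : Sp D 0 0 t 0 α F) {i : σ} (hi : α i = 0) (k : σ) :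
    R k i F = 0 := by
  have h1 : Pp i ((F, 0) : Pr σ) = 0 := by
    refine Prod.ext ?_ ?_
    · funext w f
      by_contra hne
      have hne' : pW i F w f ≠ 0 := hne
      obtain ⟨u, y, v, rfl, h3⟩ := pW_ne i w F f hne'
      obtain ⟨a1, a2, a3, a4⟩ := hF _ _ h3
      have := congrFun a3 i
      simp only [md_append, md, Pi.add_apply, ep, Pi.single_eq_same] at this
      omega
    · funext w f
      have h2 : sg (ep i) F w f = 0 := by
        by_contra hne
        obtain ⟨a1, a2, a3, a4⟩ := hF _ _ hne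
        have := congrFun a3 i
        simp only [Pi.add_apply, ep, Pi.single_eq_same] at this
        omega
      simp only [Pp, Pi.sub_apply, pW_zero', Pi.zero_apply, sub_zero, Prod.snd_zero]
      exact h2
  have h2 := R_eq hF k i
  rw [h1, Qm_zero] at h2
  exact congrArg Prod.fst h2

theorem R_self {α : σ → ℕ} (SF : SS F) (hF : Sp D 0 0 t 0 α F) (k : σ) :
    R k k F = ((α k : ℕ) : ℂ) • F := by
  have h1 : SP D t 0 α ((F, 0) : Pr σ) := ⟨SF, SS.zero, hF, Sp.zero⟩
  have h2 := Rr_self k h1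
  rw [Rr_fst] at h2
  exact congrArg Prod.fst h2

theorem Bn.add (h : Bn D F) (h' : Bn D G) : Bn D (F + G) := by
  obtain ⟨U, a, rfl⟩ := h
  obtain ⟨V, b, rfl⟩ := h'
  exact ⟨U + V, a.add b, dW_add' D U V⟩
theorem Bn.smul (h : Bn D F) (c : ℂ) : Bn D (c • F) := by
  obtain ⟨U, a, rfl⟩ := h
  exact ⟨c • U, a.smul c, dW_smul' D U c⟩
theorem Bn.neg (h : Bn D F) : Bn D (-F) := by
  have := h.smul (-1)
  rwa [neg_one_smul] at this
theorem Bn.sub (h : Bn D F) (h' : Bn D G) : Bn D (F - G) := by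
  rw [sub_eq_add_neg]; exact h.add h'.neg
theorem Bn.zero : Bn D (0 : Fn σ) := ⟨0, SS.zero, dW_zero' D⟩
theorem Bn.R (h : Bn D F) (k i : σ) : Bn D (R k i F) := by
  obtain ⟨U, a, rfl⟩ := h
  exact ⟨VS.R k i U, SS_R a k i, (R_dW k i U).symm⟩
theorem Bn.of_smul {c : ℂ} (hc : c ≠ 0) (h : Bn D (c • F)) : Bn D F := by
  have := h.smul c⁻¹
  rwa [smul_smul, inv_mul_cancel₀ hc, one_smul] at this
theorem Bn.of_add (h : Bn D (F + G)) (h' : Bn D G) : Bn D F := by
  have := h.sub h'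
  rwa [add_sub_cancel_right] at this

theorem Bd_of_Bn (h : Bn D F) : Bd D ((F, 0) : Pr σ) := by
  obtain ⟨U, a, rfl⟩ := h
  exact ⟨(U, 0), a, SS.zero, Del_fst U⟩

theorem Bn_of_Bd {α : σ → ℕ} (hF : Sp D 0 0 t 0 α F) (h : Bd D ((F, 0) : Pr σ)) : Bn D F := by
  obtain ⟨Y, y1, y2, y3⟩ := h
  exact ⟨cut D 1 t α Y.1, SS_cut y1, dW_cut hF (congrArg Prod.fst y3)⟩

theorem Van.bn {α : σ → ℕ} (h : Van D t α) (hS : SS F) (hF : Sp D 0 0 t 0 α F)
    (hd : dW D F = 0) : Bn D F := by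
  obtain ⟨U, a, _, c⟩ := h F hS hF hd
  exact ⟨U, a, c⟩

theorem Van_of {α : σ → ℕ} (h : ∀ F : Fn σ, SS F → Sp D 0 0 t 0 α F → dW D F = 0 → Bn D F) :
    Van D t α := by
  intro F hS hF hd
  obtain ⟨U, a, c⟩ := h F hS hF hd
  refine ⟨cut D 1 t α U, SS_cut a, Sp_cut, ?_⟩
  refine dW_cut (G := 0) hF ?_
  rw [c, hW_zero', add_zero]

/-- first half of the highest weight lemma -/
theorem hwA {lam : σ → ℕ} (hv : SS v) (sv : Sp D 0 0 t 0 lam v) (dv : dW D v = 0) :
    ∀ (L : List σ), L.Nodup → ∀ (α : σ → ℕ), lam = α + sE L →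
      SP D t L.length α (uL L (v, 0)) ∧ Del D (uL L (v, 0)) = 0 ∧
      ∀ j, j ∉ L → (∀ k ∈ L, Bn D (R j k v)) → Bd D (Qm j (uL L (v, 0)))
  | [], _, α, hα => by
    have hα' : lam = α := by rw [hα]; simp [sE]
    subst hα'
    refine ⟨⟨hv, SS.zero, sv, Sp.zero⟩, ?_, ?_⟩
    · refine Prod.ext ?_ ?_
      · simp [uL, Del, dv, hW_zero']
      · simp [uL, Del, dW_zero']
    · intro j _ _
      have : Qm j (uL [] (v, 0)) = 0 := Qm_fst_zero sv j
      rw [this]
      exact ⟨0, SS.zero, SS.zero, by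
        refine Prod.ext ?_ ?_
        · simp [Del, dW_zero', hW_zero']
        · simp [Del, dW_zero']⟩
  | k :: L, hnd, α, hα => by
    have hnd' := List.nodup_cons.1 hnd
    have hα' : lam = (α + ep k) + sE L := by
      rw [hα]; simp only [sE, List.map_cons, List.sum_cons]; abel
    obtain ⟨h1, h2, h3⟩ := hwA hv sv dv L hnd'.2 (α + ep k) hα'
    refine ⟨h1.P k, ?_, ?_⟩
    · have := Pp_Del D k (uL L (v, 0))
      rw [h2, Pp_zero] at this
      have h4 : Del D (Pp k (uL L (v, 0))) = 0 := by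
        rw [← neg_eq_zero]; exact this.symm
      exact h4
    · intro j hj hle
      have hjk : k ≠ j := fun e => hj (by rw [e]; exact List.mem_cons_self)
      have hjL : j ∉ L := fun h' => hj (List.mem_cons_of_mem _ h')
      have h5 := Qm_Pp j k (uL L (v, 0))
      have h6 : Qm j (uL (k :: L) (v, 0)) = Rr j k (uL L (v, 0)) + - Pp k (Qm j (uL L (v, 0))) := by
        rw [← h5]; simp only [uL]; abel
      rw [h6]
      refine Bd.add ?_ ((h3 j hjL (fun k' hk' => hle k' (List.mem_cons_of_mem _ hk'))).P k).neg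
      rw [Rr_uL hjk L hjL]
      apply Bd.uL
      rw [Rr_fst]
      exact Bd_of_Bn (hle k List.mem_cons_self)

/-- second half of the highest weight lemma -/
theorem hwB {lam : σ → ℕ} (hv : SS v) (sv : Sp D 0 0 t 0 lam v) (dv : dW D v = 0) :
    ∀ (L : List σ), L.Nodup → L.Pairwise (fun a b => Bn D (R a b v)) → (∀ k ∈ L, lam k ≠ 0) →
      ∀ (α : σ → ℕ), lam = α + sE L → Bd D (uL L (v, 0)) → Bd D ((v, 0) : Pr σ)
  | [], _, _, _, _, _, h => h
  | k :: L, hnd, hpw, hpos, α, hα, h => by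
    have hnd' := List.nodup_cons.1 hnd
    have hpw' := List.pairwise_cons.1 hpw
    have hα' : lam = (α + ep k) + sE L := by
      rw [hα]; simp only [sE, List.map_cons, List.sum_cons]; abel
    obtain ⟨h1, h2, h3⟩ := hwA hv sv dv L hnd'.2 (α + ep k) hα'
    refine hwB hv sv dv L hnd'.2 hpw'.2 (fun k' hk' => hpos k' (List.mem_cons_of_mem _ hk'))
      (α + ep k) hα' ?_
    have h4 := Qm_Pp k k (uL L (v, 0))
    rw [Rr_self k h1] at h4
    have h5 : Bd D (Qm k (Pp k (uL L (v, 0))) + Pp k (Qm k (uL L (v, 0)))) :=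
      (h.Q k).add ((h3 k hnd'.1 (fun k' hk' => hpw'.1 k' hk')).P k)
    rw [h4] at h5
    have hk : (α + ep k) k = lam k := by
      rw [hα']
      simp only [Pi.add_apply]
      rw [sE_not_mem L k hnd'.1, add_zero]
    have hne : (((α + ep k) k + L.length : ℕ) : ℂ) ≠ 0 := by
      rw [hk]
      have := hpos k List.mem_cons_self
      exact_mod_cast (by omega : lam k + L.length ≠ 0)
    have h6 := h5.smul ((((α + ep k) k + L.length : ℕ) : ℂ)⁻¹)
    rw [smul_smul, inv_mul_cancel₀ hne, one_smul] at h6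
    exact h6

theorem sub_sE {lam : σ → ℕ} {L : List σ} (l1 : L.Nodup) (l3 : ∀ k ∈ L, lam k ≠ 0) :
    lam = (lam - sE L) + sE L := by
  funext k
  simp only [Pi.add_apply, Pi.sub_apply]
  by_cases hk : k ∈ L
  · have h1 := sE_le L l1 k
    have h2 := l3 k hk
    omega
  · rw [sE_not_mem L k hk]; omega

/-- highest weight classes with many nonzero entries vanish -/
theorem hwV {j m : ℕ} {lam : σ → ℕ} (hdg : dg lam = t * D + j)
    (hV1 : ∀ (r : ℕ) (β : σ → ℕ), r + m = t → dg β + 1 = r * D + j → Van D r β)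
    (hV0 : ∀ (r : ℕ) (β : σ → ℕ), r + (m + 1) = t → dg β = r * D + j → Van D r β)
    (hv : SS v) (sv : Sp D 0 0 t 0 lam v) (dv : dW D v = 0)
    (L : List σ) (l1 : L.Nodup) (l2 : L.Pairwise (fun a b => Bn D (R a b v)))
    (l3 : ∀ k ∈ L, lam k ≠ 0) (l4 : L.length = m + 1) : Bn D v := by
  have hα := sub_sE l1 l3
  have hdα : dg (lam - sE L) + (m + 1) = t * D + j := by
    have := dg_add (lam - sE L) (sE L)
    rw [← hα, dg_sE, l4, hdg] at this
    exact this.symm
  obtain ⟨h1, h2, h3⟩ := hwA hv sv dv L l1 (lam - sE L) hα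
  rw [l4] at h1
  have hb : Bd D (uL L (v, 0)) := by
    obtain ⟨F', G', a1, a2, a3, a4⟩ := skew (D := D) (t := t) (m := m) (α := lam - sE L)
      h1.1 h1.2.1 h1.2.2.1 h1.2.2.2 (congrArg Prod.fst h2)
      (by
        have := congrArg Prod.snd h2
        simp only [Del, Prod.snd_zero, neg_eq_zero] at this
        exact this)
      (by
        intro r β hr hβ
        apply hV1 r β hr
        have h5 : t * D = r * D + m * D := by rw [← hr]; ring
        omega)
      (by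
        intro r β hr hβ
        apply hV0 r β hr
        have h5 : t * D = r * D + (m + 1) * D := by rw [← hr]; ring
        omega)
    exact ⟨(F', G'), a1, a2, Prod.ext a3 a4⟩
  exact Bn_of_Bd sv (hwB hv sv dv L l1 l2 l3 (lam - sE L) hα hb)

end

end Pool.Agent.H86.VS
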