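import Pool.Agent.H86.VS.Top

/-!
Vanishing in the top strand.
-/

set_option linter.unusedSectionVars false

namespace Pool.Agent.H86.VS

open scoped BigOperators
open Pool.Agent.H69.VS

variable {σ : Type} [Fintype σ] [DecidableEq σ]

theorem Sp_Ko' {D s t : ℕ} {β : σ → ℕ} {F : Fn σ} (h : Sp D s 0 t 0 β F) (i : σ) :
    Sp D (s + 1) 0 t 0 β (Ko D i F) := by
  intro w f hne
  by_cases hf : D ≤ f i
  · have h1 : Ko D i F w f = F (Lt.E (vx D i) :: w) (f - vx D i) := if_pos hf
    rw [h1] at hne
    obtain ⟨a1, a2, a3, a4⟩ := h _ _ hne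
    refine ⟨by simp only [List.length_cons] at a1; omega, by simpa [nT] using a2, ?_,
      fun x hx => a4 x (List.mem_cons_of_mem _ hx)⟩
    simp only [md] at a3
    rw [← a3]
    calc md w + f = md w + (f - vx D i + vx D i) := by rw [sub_vx_add hf]
      _ = vx D i + md w + (f - vx D i) := by
        generalize f - vx D i = g
        abel
  · exact absurd (if_neg hf) hne

theorem sg_dW_Ko' {D : ℕ} {F : Fn σ} {i : σ} (h : Af (Lt.E (vx D i)) (dW D F) = 0) :
    sg (vx D i) (dW D (Ko D i F)) = sg (vx D i) F := by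
  have h1 := AE_dW D F (vx D i)
  rw [h] at h1
  rw [← dW_sg, sg_Ko]
  have h2 : cE D (vx D i) = 1 := by simp [cE, dg_vx]
  rw [h2, one_smul] at h1
  exact (sub_eq_zero.1 h1.symm).symm

theorem Rd_self' {D : ℕ} {F : Fn σ} (hF : SS F) {i : σ} (h : Af (Lt.E (vx D i)) (dW D F) = 0) :
    Rd D i (F - dW D (Ko D i F)) := by
  have h1 : ∀ w f, D ≤ f i → (F - dW D (Ko D i F)) w f = 0 := by
    intro w f hf
    have h2 := congrFun (congrFun (sg_dW_Ko' h) w) (f - vx D i)
    simp only [sg, sub_vx_add hf] at h2
    simp only [Pi.sub_apply, h2, sub_self]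
  intro w f hwf
  rcases hwf with hf | hw
  · exact h1 w f hf
  · refine front_zero (x := Lt.E (vx D i)) (hF.sub ((SS_Ko hF D i).dW D)) ?_ w f hw
    intro w f
    simp only [Pi.sub_apply, dW, dg_vx, if_true]
    have h3 : Ko D i F w (f + vx D i) = F (Lt.E (vx D i) :: w) f := by
      have : D ≤ (f + vx D i) i := by simp [vx]
      simp only [Ko, if_pos this, add_vx_sub]
    have h4 : Af (Lt.E (vx D i)) (Ko D i F) = 0 := by
      funext w f
      simp only [Af, Ko]
      split_ifs with h5
      · have := hF [] (Lt.E (vx D i)) (Lt.E (vx D i)) w (f - vx D i)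
        simp only [List.nil_append, sn] at this
        have h6 : (2 : ℂ) * F (Lt.E (vx D i) :: Lt.E (vx D i) :: w) (f - vx D i) = 0 := by
          linear_combination this
        simpa using h6
      · rfl
    rw [h3, h4, dW_zero']
    simp

/-- a primitive of a reduced function can be chosen reduced -/
theorem reduce2 {D t : ℕ} {γ : σ → ℕ} {X Θ : Fn σ} (hX : SS X) (sX : Sp D 1 0 t 0 γ X)
    (hd : dW D X = Θ) (S : Finset σ) (hΘ : ∀ i ∈ S, Af (Lt.E (vx D i)) Θ = 0) :
    ∃ Y : Fn σ, SS Y ∧ Sp D 1 0 t 0 γ Y ∧ dW D Y = Θ ∧ ∀ i ∈ S, Rd D i Y := by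
  induction S using Finset.induction_on with
  | empty => exact ⟨X, hX, sX, hd, fun i hi => absurd hi (Finset.notMem_empty i)⟩
  | insert k S hk ih =>
    obtain ⟨Y, h1, h2, h3, h4⟩ := ih (fun i hi => hΘ i (Finset.mem_insert_of_mem hi))
    have h5 : Af (Lt.E (vx D k)) (dW D Y) = 0 := by
      rw [h3]; exact hΘ k (Finset.mem_insert_self k S)
    refine ⟨Y - dW D (Ko D k Y), h1.sub ((SS_Ko h1 D k).dW D), ?_, ?_, ?_⟩
    · refine h2.sub ?_
      intro w f hne
      obtain ⟨a1, a2, a3, a4⟩ := (Sp_Ko' h2 k).dW w f hne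
      exact ⟨by omega, a2, a3, a4⟩
    · rw [dW_sub', dW_dW, sub_zero, h3]
    · intro i hi
      rcases Finset.mem_insert.1 hi with hi | hi
      · subst hi; exact Rd_self' h1 h5
      · have hik : i ≠ k := fun e => hk (e ▸ hi)
        exact Rd_sub (h4 i hi) (Rd_dW (Rd_Ko hik (h4 i hi)))

/-- reduced letters -/
noncomputable def rl (S : Finset σ) (D : ℕ) : Finset (σ → ℕ) := (mon S D).filter (fun e => ∀ i, e i < D)

theorem card_rl {S : Finset σ} {D : ℕ} (hD : 1 ≤ D) :
    (mon S D).card ≤ (rl S D).card + S.card := by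
  classical
  have h1 : mon S D ⊆ rl S D ∪ S.image (vx D) := by
    intro e he
    rw [Finset.mem_union]
    by_cases h : ∀ i, e i < D
    · left; exact Finset.mem_filter.2 ⟨he, h⟩
    · right
      push Not at h
      obtain ⟨i, hi⟩ := h
      have hm := mem_mon.1 he
      rw [Finset.mem_image]
      refine ⟨i, ?_, ?_⟩
      · by_contra h2
        have := hm.2 i h2
        omega
      · have h3 : dg e = ∑ l, e l := rfl
        have h4 : e i + ∑ l ∈ Finset.univ.erase i, e l = D := by
          rw [Finset.add_sum_erase Finset.univ e (Finset.mem_univ i), ← h3, hm.1]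
        have h5 : ∑ l ∈ Finset.univ.erase i, e l = 0 := by omega
        have h6 : e i = D := by omega
        funext l
        by_cases hl : l = i
        · subst hl; simp [vx, h6]
        · have := (Finset.sum_eq_zero_iff.1 h5) l (Finset.mem_erase.2 ⟨hl, Finset.mem_univ l⟩)
          simp [vx, hl, this]
  calc (mon S D).card ≤ (rl S D ∪ S.image (vx D)).card := Finset.card_le_card h1
    _ ≤ (rl S D).card + (S.image (vx D)).card := Finset.card_union_le _ _
    _ ≤ (rl S D).card + S.card := by
      have := Finset.card_image_le (s := S) (f := vx D)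
      omega

theorem SS_rep {F : Fn σ} (hF : SS F) (e : σ → ℕ) :
    ∀ (u v : List (Lt σ)), Lt.E e ∈ v → ∀ f, F (u ++ Lt.E e :: v) f = 0 := by
  intro u v hv f
  have h1 : ∀ (v : List (Lt σ)) (F : Fn σ), SS F → Lt.E e ∈ v → ∀ f, F (Lt.E e :: v) f = 0 := by
    intro v F hF hv f
    refine front_zero (G := Af (Lt.E e) F) (hF.af _) (x := Lt.E e) ?_ v f hv
    intro w f
    have := hF [] (Lt.E e) (Lt.E e) w f
    simp only [List.nil_append, sn] at this
    have h6 : (2 : ℂ) * F (Lt.E e :: Lt.E e :: w) f = 0 := by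
      linear_combination this
    simp only [Af]
    simpa using h6
  induction u generalizing F with
  | nil => exact h1 v F hF hv f
  | cons x u ih => exact ih (hF.af x)

theorem word_map (w : List (Lt σ)) (h : nT w = 0) : ∃ A : List (σ → ℕ), w = A.map Lt.E := by
  induction w with
  | nil => exact ⟨[], rfl⟩
  | cons x w ih =>
    cases x with
    | T y => simp [nT] at h
    | E e =>
      obtain ⟨A, rfl⟩ := ih (by simpa [nT] using h)
      exact ⟨e :: A, rfl⟩

theorem word_nodup {F : Fn σ} (hF : SS F) (A : List (σ → ℕ)) (f : σ → ℕ)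
    (h : F (A.map Lt.E) f ≠ 0) : A.Nodup := by
  by_contra hn
  obtain ⟨a, ha⟩ := List.exists_duplicate_iff_not_nodup.2 hn
  rw [List.duplicate_iff_exists_distinct_get] at ha
  obtain ⟨n, m, hnm, h1, h2⟩ := ha
  apply h
  have h3 : A = A.take n ++ a :: A.drop (n + 1) := by
    conv_lhs => rw [← List.take_append_drop n A]
    rw [List.drop_eq_getElem_cons n.2]
    congr 2
    exact h1.symm
  rw [h3, List.map_append, List.map_cons]
  apply SS_rep hF
  rw [List.mem_map]
  refine ⟨a, ?_, rfl⟩
  rw [h2, List.mem_drop_iff_getElem]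
  refine ⟨m - (n + 1), by omega, ?_⟩
  simp only [List.get_eq_getElem]
  congr 1
  omega

/-- the top strand of weights with `k + 1` nonzero entries -/
theorem top_strand {D k t j : ℕ} {β : σ → ℕ} (hD : 1 ≤ D) (hk : (supp β).card = k + 1)
    (hj : j ≤ (k + 1) * (D - 1))
    (ht : t + (k + 1) + Nat.choose ((k + 1) * D - 1 - j) k ≤ Nat.choose (D + k) k)
    (hdg : dg β = t * D + j) : Van D t β := by
  classical
  intro F hF sF dF
  obtain ⟨F', h1, h2, h3⟩ := reduce hF sF dF (supp β)
  refine ⟨F', h1, h2, ?_⟩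
  set S := supp β with hS
  set Φ := F - dW D F' with hΦ
  have sΦ : Sp D 0 0 t 0 β Φ := by
    refine sF.sub ?_
    intro w f hne
    obtain ⟨a1, a2, a3, a4⟩ := h2.dW w f hne
    exact ⟨by omega, a2, a3, a4⟩
  have SΦ : SS Φ := hF.sub (h1.dW D)
  have dΦ : dW D Φ = 0 := by rw [hΦ, dW_sub', dF, dW_dW, sub_zero]
  suffices h0 : Φ = 0 from (sub_eq_zero.1 h0).symm
  funext w f
  by_contra hne
  have hne' : Φ w f ≠ 0 := hne
  obtain ⟨a1, a2, a3, a4⟩ := sΦ w f hne'
  have hnT : nT w = 0 := by omega
  obtain ⟨A, rfl⟩ := word_map w hnT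
  have hβS : ∀ i, i ∉ S → β i = 0 := by
    intro i hi
    by_contra h12
    exact hi (by rw [hS]; simp only [supp, Finset.mem_filter, Finset.mem_univ, true_and]; exact h12)
  have hmd : ∀ A : List (σ → ℕ), md (A.map Lt.E) = A.sum := by
    intro A
    induction A with
    | nil => rfl
    | cons a A ih => simp only [List.map_cons, md, List.sum_cons, ih]
  rw [hmd] at a3
  have hlen : A.length = t := by simpa using a1
  have hAd : ∀ a ∈ A, dg a = D := fun a ha => a4 (Lt.E a) (List.mem_map.2 ⟨a, ha, rfl⟩)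
  have hAle : ∀ a ∈ A, ∀ i, a i ≤ β i := by
    intro a ha i
    obtain ⟨u, v, rfl⟩ := List.append_of_mem ha
    rw [← a3]
    simp only [List.sum_append, List.sum_cons, Pi.add_apply]
    omega
  have hfle : ∀ i, f i ≤ β i := by
    intro i; rw [← a3]; simp only [Pi.add_apply]; omega
  have hArl : ∀ a ∈ A, a ∈ rl S D := by
    intro a ha
    rw [rl, Finset.mem_filter, mem_mon]
    refine ⟨⟨hAd a ha, fun i hi => ?_⟩, fun i => ?_⟩
    · have := hAle a ha i
      rw [hβS i hi] at this; omega
    · by_contra h4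
      push Not at h4
      have h5 : a = vx D i := by
        have h3 : dg a = ∑ l, a l := rfl
        have h4' : a i + ∑ l ∈ Finset.univ.erase i, a l = D := by
          rw [Finset.add_sum_erase Finset.univ a (Finset.mem_univ i), ← h3, hAd a ha]
        have h5 : ∑ l ∈ Finset.univ.erase i, a l = 0 := by omega
        have h6 : a i = D := by omega
        funext l
        by_cases hl : l = i
        · subst hl; simp [vx, h6]
        · have := (Finset.sum_eq_zero_iff.1 h5) l (Finset.mem_erase.2 ⟨hl, Finset.mem_univ l⟩)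
          simp [vx, hl, this]
      have hiS : i ∈ S := by
        by_contra hi
        have := hAle a ha i
        rw [hβS i hi] at this
        omega
      exact hne' (h3 i hiS _ f (Or.inr (by rw [← h5]; exact List.mem_map.2 ⟨a, ha, rfl⟩)))
  have hfD : ∀ i ∈ S, f i < D := by
    intro i hi
    by_contra h4
    push Not at h4
    exact hne' (h3 i hi _ f (Or.inl h4))
  have hnd : A.Nodup := word_nodup SΦ A f hne'
  -- the complementary letters
  obtain ⟨b, hbdef⟩ : ∃ b, b = (k + 1) * (D - 1) - j := ⟨_, rfl⟩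
  have hbk : (k + 1) * D - 1 - j = b + k := by
    have : (k + 1) * D = (k + 1) * (D - 1) + (k + 1) := by
      obtain ⟨D', rfl⟩ : ∃ D', D = D' + 1 := ⟨D - 1, by omega⟩
      simp only [Nat.add_sub_cancel]; ring
    omega
  rw [hbk] at ht
  have hN : (mon S b).card = (b + k).choose k := card_mon hk b
  have hcard : (mon S b).card ≤ (rl S D \ A.toFinset).card := by
    have e1 := card_rl (S := S) (D := D) (by omega)
    rw [card_mon hk D, hk] at e1
    have e2 := Finset.le_card_sdiff A.toFinset (rl S D)
    have e3 := List.toFinset_card_le A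
    omega
  obtain ⟨B, hB1, hB2⟩ := Finset.exists_subset_card_eq hcard
  set B' : List (σ → ℕ) := B.toList with hB'
  have hBlen : B'.length = (mon S b).card := by rw [hB', Finset.length_toList, hB2]
  have hBmem : ∀ a ∈ B', a ∈ rl S D ∧ a ∉ A := by
    intro a ha
    have := hB1 (Finset.mem_toList.1 ha)
    rw [Finset.mem_sdiff, List.mem_toFinset] at this
    exact this
  -- the box
  set s : σ → ℕ := fun i => if i ∈ S then D - 1 else 0 with hs
  have hfs : ∀ i, f i ≤ s i := by
    intro i
    by_cases hi : i ∈ S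
    · have := hfD i hi
      simp only [hs, if_pos hi]; omega
    · have := hfle i
      rw [hβS i hi] at this
      simp only [hs, if_neg hi]; exact this
  have hdf : dg f = j := by
    have h5 := dg_md (D := D) (A.map Lt.E) a4
    rw [hmd, hnT, List.length_map, hlen] at h5
    have h6 : dg A.sum + dg f = t * D + j := by rw [← dg_add, a3, hdg]
    omega
  have hds : dg s = (k + 1) * (D - 1) := by
    have : ∀ i, i ∉ S → s i = 0 := fun i hi => by simp only [hs, if_neg hi]
    rw [dg_eq_sum this]
    have e1 : ∑ i ∈ S, s i = ∑ i ∈ S, (D - 1) := by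
      apply Finset.sum_congr rfl
      intro i hi
      simp only [hs, if_pos hi]
    rw [e1, Finset.sum_const, hk, smul_eq_mul]
  set g : σ → ℕ := s - f with hg
  have hgm : g ∈ mon S b := by
    rw [mem_mon]
    refine ⟨?_, ?_⟩
    · have : dg g + dg f = dg s := by
        rw [← dg_add]
        congr 1
        funext l
        have := hfs l
        simp only [hg, Pi.add_apply, Pi.sub_apply]; omega
      omega
    · intro i hi
      simp only [hg, Pi.sub_apply, hs, if_neg hi]; omega
  obtain ⟨X, x1, x2, x3⟩ := alt_bd (D := D) (S := S) rfl B' hBlen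
    (fun a ha => (Finset.mem_filter.1 (hBmem a ha).1).1) hgm
  obtain ⟨Y, y1, y2, y3, y4⟩ := reduce2 x1 x2 x3 S (by
    intro i _
    apply alt_front
    intro hmem
    have h5 := (Finset.mem_filter.1 (hBmem _ hmem).1).2 i
    simp [vx] at h5)
  have hsumS : ∀ i, i ∉ S → (B'.sum + g) i = 0 := by
    intro i hi
    have h1 : ∀ (A : List (σ → ℕ)), (∀ a ∈ A, a ∈ rl S D) → A.sum i = 0 := by
      intro A
      induction A with
      | nil => intro _; rfl
      | cons a A ih =>
        intro h
        have e1 := (mem_mon.1 (Finset.mem_filter.1 (h a List.mem_cons_self)).1).2 i hi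
        have e2 := ih (fun b hb => h b (List.mem_cons_of_mem _ hb))
        rw [List.sum_cons, Pi.add_apply, e1, e2]
    rw [Pi.add_apply, h1 B' (fun a ha => (hBmem a ha).1), (mem_mon.1 hgm).2 i hi]
  have bY : Bs s Y := by
    intro w f' hf'
    by_contra hne2
    apply hf'
    intro i
    show f' i ≤ s i
    by_cases hi : i ∈ S
    · simp only [hs, if_pos hi]
      by_contra h7
      exact hne2 (y4 i hi w f' (Or.inl (by omega)))
    · obtain ⟨b1, b2, b3, b4⟩ := y2 w f' hne2
      have h8 := congrFun b3 i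
      rw [hsumS i hi] at h8
      simp only [Pi.add_apply] at h8
      omega
  have bΦ : Bs s Φ := by
    intro w f' hf'
    by_contra hne2
    apply hf'
    intro i
    show f' i ≤ s i
    by_cases hi : i ∈ S
    · simp only [hs, if_pos hi]
      by_contra h7
      exact hne2 (h3 i hi w f' (Or.inl (by omega)))
    · obtain ⟨b1, b2, b3, b4⟩ := sΦ w f' hne2
      have h8 := congrFun b3 i
      rw [hβS i hi] at h8
      simp only [Pi.add_apply] at h8
      omega
  have hJ := J_dW (s := s) D (A.map Lt.E ++ B'.map Lt.E) (by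
    intro x hx
    rw [List.mem_append, List.mem_map, List.mem_map] at hx
    rcases hx with ⟨a, ha, rfl⟩ | ⟨a, ha, rfl⟩
    · exact ⟨a, rfl, hAd a ha⟩
    · exact ⟨a, rfl, (mem_mon.1 (Finset.mem_filter.1 (hBmem a ha).1).1).1⟩) bΦ bY
  rw [dΦ, J_zero_left, y3, J_prefix, J_suffix] at hJ
  · have e1 : s - g = f := by
      funext l
      have := hfs l
      simp only [hg, Pi.sub_apply]; omega
    rw [e1] at hJ
    simp only [Aw, ev, List.append_nil] at hJ
    have h9 : ((-1 : ℂ) ^ (A.map Lt.E).length) ≠ 0 := pow_ne_zero _ (by norm_num)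
    exact hne' ((mul_eq_zero.1 hJ.symm).resolve_left h9)
  · exact B.nodup_toList
  · intro x w f'
    simp only [Aw, ev]
    have : Φ (A.map Lt.E ++ x :: w) f' = 0 := by
      by_contra h7
      obtain ⟨b1, _⟩ := sΦ _ _ h7
      simp only [List.length_append, List.length_map, List.length_cons] at b1
      omega
    rw [this, mul_zero]
  · intro l
    show g l ≤ s l
    simp only [hg, Pi.sub_apply]; omega
  · intro x hx
    obtain ⟨a, ha, rfl⟩ := List.mem_map.1 hx
    apply alt_front
    intro hmem
    exact (hBmem a hmem).2 ha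

end Pool.Agent.H86.VS

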