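import Pool.Agent.H86.VS.Est
import Pool.Agent.H69.VS.Kk
import Pool.Agent.H69.VS.Contr

/-!
The third stage: vanishing in homological degree `D + 2` and coefficient degree `2 D - 1`.
-/

set_option linter.unusedSectionVars false

namespace Pool.Agent.H86.VS

open scoped BigOperators
open Pool.Agent.H69.VS

variable {σ : Type} [Fintype σ] [DecidableEq σ]

section
variable {D : ℕ} {x y z u : σ} {α : σ → ℕ} {X : Fn σ}

/-- one term of the relation -/
theorem term_est (hD : 4 ≤ D) (h : St D x y z u α X) {hh : ℕ} (hα : α y = cc D + hh) {Mx : ℝ}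
    (hM : ∀ a b c, ‖Zt D x y (G3 X a b c) ((D - 1) • ep y)‖ ≤ Mx) {p q r : σ → ℕ} {g : ℂ}
    (hp : dg p + 1 = D) (hps : ∀ i, i ≠ x → i ≠ y → i ≠ z → i ≠ u → p i = 0)
    (hg : Zt D x y (G3 X p q r) ((D - 1) • ep y) = g) :
    ∃ (b s : ℂ), (b = 0 ∨ b = 1) ∧ Zt D x y (G3 X ((D - 1) • ep y) q r) p = b * g + s ∧
      ‖s‖ ≤ Kc hh (cc D) (p x) (p z + p u) * Mx := by
  have hM0 : 0 ≤ Mx := le_trans (norm_nonneg _) (hM 0 0 0)
  have h1 := four_sum h.h4 hps
  by_cases hpx : p x = 0
  · by_cases hj : p z + p u = 0
    · have h2 : p = (D - 1) • ep y := by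
        funext i
        by_cases hi : i = y
        · subst hi; simp [ep]; omega
        · simp only [Pi.smul_apply, ep, Pi.single_apply, if_neg hi, smul_zero]
          by_cases h3 : i = x
          · rw [h3]; exact hpx
          · by_cases h4 : i = z
            · rw [h4]; omega
            · by_cases h5 : i = u
              · rw [h5]; omega
              · exact hps i h3 hi h4 h5
      refine ⟨1, 0, Or.inr rfl, ?_, ?_⟩
      · rw [← hg, ← h2]; ring
      · rw [Kc_zero (by omega), norm_zero, zero_mul]
    · refine ⟨0, Zt D x y (G3 X ((D - 1) • ep y) q r) p, Or.inl rfl, by ring, ?_⟩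
      have h2 := est (by omega) h hα hM (p z + p u) p hpx hps (by omega) (by omega)
        ((D - 1) • ep y) q r
      have hc := two_cc D (by omega)
      have hjc : p z + p u ≤ cc D := by
        obtain ⟨E, rfl⟩ : ∃ E, D = E + 1 := ⟨D - 1, by omega⟩
        simp only [Nat.add_sub_cancel] at hc
        nlinarith
      have hpos : (0 : ℝ) < ((cc D).descFactorial (p z + p u) : ℝ) := by
        exact_mod_cast df_pos hjc
      have h3 : Kc hh (cc D) (p x) (p z + p u) =
          ((hh + (p z + p u)).descFactorial (p z + p u) : ℝ) /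
            ((cc D).descFactorial (p z + p u) : ℝ) := by
        unfold Kc
        rw [if_pos ⟨hpx, hj⟩]
      rw [h3, div_mul_eq_mul_div, le_div_iff₀ hpos]
      exact h2
  · refine ⟨0, 0, Or.inl rfl, ?_, ?_⟩
    · rw [Zt_x (G3_dW h _ _ _) hpx]; ring
    · rw [Kc_zero (by omega), norm_zero, zero_mul]

/-- all evaluations vanish -/
theorem Zt_G_zero (hD : 4 ≤ D) (h : St D x y z u α X) (hxy : α y ≤ α x) (a b c : σ → ℕ) :
    Zt D x y (G3 X a b c) ((D - 1) • ep y) = 0 := by
  classical
  obtain ⟨m, hm, hmax⟩ := Finset.exists_max_image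
    (Finset.Iic α ×ˢ (Finset.Iic α ×ˢ Finset.Iic α))
    (fun m => ‖Zt D x y (G3 X m.1 m.2.1 m.2.2) ((D - 1) • ep y)‖)
    ⟨(0, 0, 0), by simp⟩
  obtain ⟨a', b', c'⟩ := m
  have hM : ∀ a b c, ‖Zt D x y (G3 X a b c) ((D - 1) • ep y)‖ ≤
      ‖Zt D x y (G3 X a' b' c') ((D - 1) • ep y)‖ := by
    intro a b c
    by_cases h0 : G3 X a b c = 0
    · rw [h0, Zt_zero, norm_zero]; exact norm_nonneg _
    · obtain ⟨g1, g2, g3, g4⟩ := G3_ok h h0
      have h1 : ∀ i, a i + b i + c i ≤ α i := g1
      apply hmax (a, b, c)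
      simp only [Finset.mem_product, Finset.mem_Iic]
      refine ⟨fun i => ?_, fun i => ?_, fun i => ?_⟩
      · show a i ≤ α i
        have := h1 i; omega
      · show b i ≤ α i
        have := h1 i; omega
      · show c i ≤ α i
        have := h1 i; omega
  have key : Zt D x y (G3 X a' b' c') ((D - 1) • ep y) = 0 := by
    by_contra hne
    have hyx := h.h4.xy.symm
    have m0x : ((D - 1) • ep y : σ → ℕ) x = 0 := by simp [ep, h.h4.xy]
    have m0y : ((D - 1) • ep y : σ → ℕ) y = D - 1 := by simp [ep]
    obtain ⟨⟨g1, g2, g3, g4⟩, w1, w2, w3, w4⟩ := Zt_G_wt (by omega) h m0x hne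
    rw [m0y] at w2
    have gx : a' x + b' x + c' x ≤ α x := g1 x
    have gy : a' y + b' y + c' y ≤ α y := g1 y
    simp only [Pi.add_apply, Pi.sub_apply] at w1 w2
    have hα : α y = cc D + (a' y + b' y + c' y) := by omega
    have hdy : dg ((D - 1) • ep y : σ → ℕ) + 1 = D := by
      rw [dg_smul, dg_ep]; omega
    have hsup : ∀ (p : σ → ℕ), (∀ i, p i ≤ α i) → ∀ i, i ≠ x → i ≠ y → i ≠ z → i ≠ u → p i = 0 := by
      intro p hp i h1 h2 h3 h4
      have := hp i
      rw [h.sup i h1 h2 h3 h4] at this
      omega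
    have ga : ∀ i, a' i + b' i + c' i ≤ α i := g1
    have sa := hsup a' (fun i => by have := ga i; omega)
    have sb := hsup b' (fun i => by have := ga i; omega)
    have sc := hsup c' (fun i => by have := ga i; omega)
    obtain ⟨b1, s1, hb1, e1, f1⟩ := term_est hD h hα hM (p := a') (q := b') (r := c') g2 sa rfl
    obtain ⟨b2, s2, hb2, e2, f2⟩ := term_est hD h hα hM (p := b') (q := a') (r := c') g3 sb
      (by rw [G3_swap12 h])
    obtain ⟨b3, s3, hb3, e3, f3⟩ := term_est hD h hα hM (p := c') (q := a') (r := b') g4 sc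
      (by rw [G3_swap12 h, G3_swap23 h])
    have hrel := Zt_rel (x := x) (y := y) (G3_rel h hdy g2 g3 g4)
    rw [e1, e2, e3] at hrel
    set g := Zt D x y (G3 X a' b' c') ((D - 1) • ep y) with hg
    have hgp : 0 < ‖g‖ := norm_pos_iff.2 hne
    have fa := four_sum h.h4 sa
    have fb := four_sum h.h4 sb
    have fc := four_sum h.h4 sc
    have hK := contr (e := D - 1) (c := cc D) (h := a' y + b' y + c' y) (x1 := a' x) (x2 := b' x)
      (x3 := c' x) (y1 := a' y) (y2 := b' y) (y3 := c' y) (j1 := a' z + a' u) (j2 := b' z + b' u)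
      (j3 := c' z + c' u) (by omega) (by
        rw [two_cc D (by omega)]
        have : D - 1 + 3 = D + 2 := by omega
        rw [this]) (by omega) (by omega) (by omega) rfl (by omega)
    have h5 : (1 + b1 + b2 + b3) * g = -(s1 + s2 + s3) := by linear_combination hrel
    have h6 : ‖g‖ ≤ ‖(1 + b1 + b2 + b3) * g‖ := by
      rw [norm_mul]
      have : (1 : ℝ) ≤ ‖1 + b1 + b2 + b3‖ := by
        rcases hb1 with rfl | rfl <;> rcases hb2 with rfl | rfl <;> rcases hb3 with rfl | rfl <;>
          norm_num
      nlinarith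
    rw [h5, norm_neg] at h6
    have h7 := norm_add₃_le (a := s1) (b := s2) (c := s3)
    nlinarith
  have := hM a b c
  rw [key, norm_zero] at this
  exact norm_le_zero_iff.1 this

/-- position weight -/
def pw (x y z u : σ) (s : σ → ℕ) : ℕ := 0 * s x + s y + 2 * s z + 3 * s u

/-- all classes vanish -/
theorem G3_bn (hD : 4 ≤ D) (h : St D x y z u α X) (hxy : α y ≤ α x) : ∀ (n : ℕ) (a b c : σ → ℕ),
    pw x y z u α - pw x y z u (a + b + c) = n → Bn D (G3 X a b c) := by
  intro n
  induction n using Nat.strong_induction_on with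
  | _ n ih =>
    intro a b c hn
    by_cases h0 : G3 X a b c = 0
    · rw [h0]; exact Bn.zero
    · obtain ⟨g1, g2, g3, g4⟩ := G3_ok h h0
      have hco := G3_co (by omega) h g1 g2 g3 g4
      have hα : ∀ i, a i + b i + c i ≤ α i := g1
      have hlt : ∀ (a' b' c' : σ → ℕ), pw x y z u (a + b + c) < pw x y z u (a' + b' + c') →
          Bn D (G3 X a' b' c') := by
        intro a' b' c' hlt
        by_cases h1 : G3 X a' b' c' = 0
        · rw [h1]; exact Bn.zero
        · obtain ⟨k1, _, _, _⟩ := G3_ok h h1
          have hα' : ∀ i, a' i + b' i + c' i ≤ α i := k1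
          apply ih _ ?_ a' b' c' rfl
          have e1 := hα' x
          have e2 := hα' y
          have e3 := hα' z
          have e4 := hα' u
          simp only [pw, Pi.add_apply] at hlt hn ⊢
          omega
      have hR : ∀ k i : σ, k ≠ i → Bn D (R k i X) →
          (∀ f : σ → ℕ, f k ≠ 0 → pw x y z u f < pw x y z u (f + ep i - ep k)) →
          (∀ f g : σ → ℕ, pw x y z u (f + g) = pw x y z u f + pw x y z u g) →
          Bn D (R k i (G3 X a b c)) := by
        intro k i hki hb hpw hadd
        refine Bn.of_add (G3_R hki hb a b c) ?_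
        refine Bn.add (Bn.add ?_ ?_) ?_
        · by_cases hk : a k = 0
          · rw [hk, Nat.cast_zero, zero_smul]; exact Bn.zero
          · refine (hlt _ _ _ ?_).smul _
            rw [hadd, hadd, hadd, hadd]
            have := hpw a hk
            omega
        · by_cases hk : b k = 0
          · rw [hk, Nat.cast_zero, zero_smul]; exact Bn.zero
          · refine (hlt _ _ _ ?_).smul _
            rw [hadd, hadd, hadd, hadd]
            have := hpw b hk
            omega
        · by_cases hk : c k = 0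
          · rw [hk, Nat.cast_zero, zero_smul]; exact Bn.zero
          · refine (hlt _ _ _ ?_).smul _
            rw [hadd, hadd, hadd, hadd]
            have := hpw c hk
            omega
      have hadd : ∀ f g : σ → ℕ, pw x y z u (f + g) = pw x y z u f + pw x y z u g := by
        intro f g
        simp only [pw, Pi.add_apply]; ring
      have q1 := h.h4.xy
      have q2 := h.h4.xz
      have q3 := h.h4.xu
      have q4 := h.h4.yz
      have q5 := h.h4.yu
      have q6 := h.h4.zu
      have hp := h.hR
      simp only [List.pairwise_cons, List.mem_cons, List.not_mem_nil, or_false,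
        forall_eq_or_imp, forall_eq, false_imp_iff, implies_true, List.Pairwise.nil,
        and_true] at hp
      obtain ⟨⟨pxy, pxz, pxu⟩, ⟨pyz, pyu⟩, pzu⟩ := hp
      have hp' : [x, y, z, u].Pairwise (fun k i => Bn D (R k i (G3 X a b c))) := by
        simp only [List.pairwise_cons, List.mem_cons, List.not_mem_nil, or_false,
          forall_eq_or_imp, forall_eq, false_imp_iff, implies_true, List.Pairwise.nil, and_true]
        refine ⟨⟨hR x y q1 pxy ?_ hadd, hR x z q2 pxz ?_ hadd, hR x u q3 pxu ?_ hadd⟩,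
          ⟨hR y z q4 pyz ?_ hadd, hR y u q5 pyu ?_ hadd⟩, hR z u q6 pzu ?_ hadd⟩ <;>
        · intro f hf
          simp only [pw, Pi.add_apply, Pi.sub_apply, ep, Pi.single_eq_same, Pi.single_apply,
            if_neg q1, if_neg q2, if_neg q3, if_neg q4, if_neg q5, if_neg q6, if_neg q1.symm,
            if_neg q2.symm, if_neg q3.symm, if_neg q4.symm, if_neg q5.symm, if_neg q6.symm]
          omega
      rcases hst (by omega) h.h4 hco hp' with h1 | ⟨w1, w2, w3, w4⟩
      · exact h1
      · refine one_dim (by omega) q1.symm ?_ hco.dg hco.ss hco.sp hco.dF (Zt_G_zero hD h hxy a b c)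
        intro i i1 i2
        by_cases i3 : i = z
        · rw [i3]; exact w3
        · by_cases i4 : i = u
          · rw [i4]; exact w4
          · exact hco.sup i i1 i2 i3 i4

end

end Pool.Agent.H86.VS
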