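import Pool.Agent.H86.VS.Green
import Pool.Agent.H86.VS.Pair
import Mathlib.Algebra.Order.Antidiag.FinsuppEquiv

/-!
The top strand for weights with `k + 1` nonzero entries.
-/

set_option linter.unusedSectionVars false

namespace Pool.Agent.H86.VS

open scoped BigOperators
open Pool.Agent.H69.VS

variable {σ : Type} [Fintype σ] [DecidableEq σ]

/-- monomials of degree `n` in the variables of `S` -/
noncomputable def mon (S : Finset σ) (n : ℕ) : Finset (σ → ℕ) :=
  (S.finsuppAntidiag n).map ⟨fun f : σ →₀ ℕ => (f : σ → ℕ), DFunLike.coe_injective⟩

theorem dg_eq_sum {S : Finset σ} {f : σ → ℕ} (h : ∀ i, i ∉ S → f i = 0) : dg f = ∑ i ∈ S, f i := by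
  unfold dg
  symm
  apply Finset.sum_subset (Finset.subset_univ _)
  intro i _ hi
  exact h i hi

theorem mem_mon {S : Finset σ} {n : ℕ} {f : σ → ℕ} :
    f ∈ mon S n ↔ dg f = n ∧ ∀ i, i ∉ S → f i = 0 := by
  constructor
  · intro h
    obtain ⟨g, hg, rfl⟩ := Finset.mem_map.1 h
    rw [Finset.mem_finsuppAntidiag] at hg
    have h1 : ∀ i, i ∉ S → g i = 0 := by
      intro i hi
      by_contra h2
      exact hi (hg.2 (Finsupp.mem_support_iff.2 h2))
    refine ⟨?_, h1⟩
    simp only [Function.Embedding.coeFn_mk]
    rw [dg_eq_sum h1, hg.1]
  · rintro ⟨h1, h2⟩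
    refine Finset.mem_map.2 ⟨Finsupp.equivFunOnFinite.symm f, ?_, rfl⟩
    rw [Finset.mem_finsuppAntidiag]
    refine ⟨?_, ?_⟩
    · rw [← h1, dg_eq_sum h2]; rfl
    · intro i hi
      by_contra h3
      exact (Finsupp.mem_support_iff.1 hi) (h2 i h3)

theorem card_mon {S : Finset σ} {k : ℕ} (hS : S.card = k + 1) (n : ℕ) :
    (mon S n).card = (n + k).choose k := by
  unfold mon
  rw [Finset.card_map, Finset.card_finsuppAntidiag_nat_eq_choose, hS]
  have : k + 1 + n - 1 = n + k := by omega
  rw [this, Nat.choose_symm_add]

/-- splitting at a position -/
theorem ofFn_update {N : ℕ} (M : Fin N → (σ → ℕ)) (i : Fin N) :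
    ∃ u v : List (σ → ℕ), ∀ x, List.ofFn (Function.update M i x) = u ++ x :: v := by
  refine ⟨(List.ofFn M).take i, (List.ofFn M).drop (i + 1), ?_⟩
  intro x
  have h1 : List.ofFn (Function.update M i x) = (List.ofFn M).set i x := by
    apply List.ext_getElem
    · simp
    · intro n h1 h2
      rw [List.getElem_ofFn, List.getElem_set, List.getElem_ofFn]
      by_cases h : (i : ℕ) = n
      · subst h
        simp
      · rw [if_neg h, Function.update_of_ne]
        intro h3; apply h; rw [← h3]
  rw [h1, List.set_eq_take_append_cons_drop, if_pos (by simp)]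

/-- every dual word is a boundary in the range of Green's vanishing -/
theorem alt_bd {D b N : ℕ} {S : Finset σ} (hN : (mon S b).card = N) (A : List (σ → ℕ))
    (hA : A.length = N) (hAS : ∀ a ∈ A, a ∈ mon S D) {g : σ → ℕ} (hg : g ∈ mon S b) :
    ∃ Ξ : Fn σ, SS Ξ ∧ Sp D 1 0 N 0 (A.sum + g) Ξ ∧ dW D Ξ = alt A g := by
  classical
  set γ : σ → ℕ := A.sum + g with hγ
  let W : Submodule ℂ (Fn σ) :=
    { carrier := {G | ∃ Ξ : Fn σ, SS Ξ ∧ Sp D 1 0 N 0 γ Ξ ∧ dW D Ξ = G}
      add_mem' := by
        rintro _ _ ⟨X, h1, h2, rfl⟩ ⟨Y, h3, h4, rfl⟩
        exact ⟨X + Y, h1.add h3, h2.add h4, dW_add' D X Y⟩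
      zero_mem' := ⟨0, SS.zero, Sp.zero, dW_zero' D⟩
      smul_mem' := by
        rintro c _ ⟨X, h1, h2, rfl⟩
        exact ⟨c • X, h1.smul c, h2.smul c, dW_smul' D X c⟩ }
  by_contra hcon
  have hnot : alt A g ∉ W := hcon
  obtain ⟨ℓ, hℓ, hW⟩ := Submodule.exists_le_ker_of_notMem hnot
  apply hℓ
  have hγS : ∀ i, i ∉ S → γ i = 0 := by
    intro i hi
    have h1 : ∀ (A : List (σ → ℕ)), (∀ a ∈ A, a ∈ mon S D) → A.sum i = 0 := by
      intro A
      induction A with
      | nil => intro _; rfl
      | cons a A ih =>
        intro h
        have e1 := (mem_mon.1 (h a List.mem_cons_self)).2 i hi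
        have e2 := ih (fun b hb => h b (List.mem_cons_of_mem _ hb))
        rw [List.sum_cons, Pi.add_apply, e1, e2]
    rw [hγ, Pi.add_apply, h1 A hAS, (mem_mon.1 hg).2 i hi]
  have hγd : dg γ = N * D + b := by
    have h1 : ∀ (A : List (σ → ℕ)), (∀ a ∈ A, a ∈ mon S D) → dg A.sum = A.length * D := by
      intro A
      induction A with
      | nil => intro _; simp [dg]
      | cons a A ih =>
        intro h
        have e1 := (mem_mon.1 (h a List.mem_cons_self)).1
        have e2 := ih (fun b hb => h b (List.mem_cons_of_mem _ hb))
        rw [List.sum_cons, dg_add, e1, e2, List.length_cons]; ring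
    rw [hγ, dg_add, h1 A hAS, (mem_mon.1 hg).1, hA]
  let eT : Fin N ≃ (mon S b) := (Finset.equivFinOfCardEq hN).symm
  let m : Fin N → (σ → ℕ) := fun c => (eT c : σ → ℕ)
  have hm : Function.Injective m := fun a c h => eT.injective (Subtype.ext h)
  have hmT : ∀ c, m c ∈ mon S b := fun c => (eT c).2
  have hmS : ∀ f ∈ mon S b, ∃ c, m c = f := fun f hf =>
    ⟨eT.symm ⟨f, hf⟩, by simp [m]⟩
  let z : (Fin N → (σ → ℕ)) → Fin N → ℂ := fun e c =>
    if (List.ofFn e).sum + m c = γ ∧ (∀ a ∈ List.ofFn e, dg a = D) then
      ℓ (alt (List.ofFn e) (m c)) else 0
  have key : ∀ e c, z e c = 0 := by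
    apply green hm z (Fintype.piFinset (fun _ => Finset.Iic γ))
    · intro e c hne
      rw [Fintype.mem_piFinset]
      intro i
      rw [Finset.mem_Iic]
      by_contra h1
      apply hne
      simp only [z]
      rw [if_neg]
      rintro ⟨h2, _⟩
      apply h1
      rw [← h2, List.sum_ofFn]
      intro l
      have h3 : e i l ≤ (∑ i, e i) l := by
        rw [Finset.sum_apply]
        exact Finset.single_le_sum (f := fun i => e i l) (fun _ _ => Nat.zero_le _)
          (Finset.mem_univ i)
      simp only [Pi.add_apply]
      omega
    · intro i M
      obtain ⟨u, v, huv⟩ := ofFn_update M i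
      by_cases hz : ∀ c, (if (∀ l, m c l ≤ M i l) then
          z (Function.update M i (M i - m c)) c else 0) = 0
      · exact Finset.sum_eq_zero (fun c _ => hz c)
      · push Not at hz
        obtain ⟨c0, hc0⟩ := hz
        have hle0 : ∀ l, m c0 l ≤ M i l := by
          by_contra h; exact hc0 (if_neg h)
        rw [if_pos hle0] at hc0
        have hcond : (List.ofFn (Function.update M i (M i - m c0))).sum + m c0 = γ ∧
            (∀ a ∈ List.ofFn (Function.update M i (M i - m c0)), dg a = D) := by
          by_contra h; exact hc0 (if_neg h)
        rw [huv] at hcond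
        obtain ⟨hs, hd⟩ := hcond
        have hsum : u.sum + M i + v.sum = γ := by
          rw [← hs]
          funext l
          have := hle0 l
          simp only [List.sum_append, List.sum_cons, Pi.add_apply, Pi.sub_apply]
          omega
        have hgS : ∀ l, l ∉ S → M i l = 0 := by
          intro l hl
          have h1 := congrFun hsum l
          have h2 := hγS l hl
          simp only [Pi.add_apply] at h1
          omega
        have hdm : ∀ c, (∀ l, m c l ≤ M i l) → dg (M i - m c) + dg (m c) = dg (M i) := by
          intro c hc
          rw [← dg_add]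
          congr 1
          funext l
          have := hc l
          simp only [Pi.add_apply, Pi.sub_apply]; omega
        have hdM : dg (M i) = D + b := by
          have h1 := hdm c0 hle0
          have h2 := hd (M i - m c0) (by simp)
          have h3 := (mem_mon.1 (hmT c0)).1
          omega
        have hterm : ∀ c, (if (∀ l, m c l ≤ M i l) then
            z (Function.update M i (M i - m c)) c else 0) =
            (if (∀ l, m c l ≤ M i l) then ℓ (alt (u ++ (M i - m c) :: v) (m c)) else 0) := by
          intro c
          by_cases hc : ∀ l, m c l ≤ M i l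
          · rw [if_pos hc, if_pos hc]
            simp only [z]
            rw [huv, if_pos]
            refine ⟨?_, ?_⟩
            · rw [← hsum]
              funext l
              have := hc l
              simp only [List.sum_append, List.sum_cons, Pi.add_apply, Pi.sub_apply]
              omega
            · intro a ha
              rw [List.mem_append, List.mem_cons] at ha
              rcases ha with ha | ha | ha
              · exact hd a (by simp [ha])
              · rw [ha]
                have h1 := hdm c hc
                have h3 := (mem_mon.1 (hmT c)).1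
                omega
              · exact hd a (by simp [ha])
          · rw [if_neg hc, if_neg hc]
        rw [Finset.sum_congr rfl (fun c _ => hterm c)]
        have hbij : (∑ c, if (∀ l, m c l ≤ M i l) then ℓ (alt (u ++ (M i - m c) :: v) (m c)) else 0)
            = ∑ e ∈ lets D (M i), ℓ (alt (u ++ e :: v) (M i - e)) := by
          rw [← Finset.sum_filter]
          refine Finset.sum_bij (fun c _ => M i - m c) ?_ ?_ ?_ ?_
          · intro c hc
            have hc' := (Finset.mem_filter.1 hc).2
            rw [mem_lets]
            refine ⟨tsub_le_self, ?_⟩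
            have h1 := hdm c hc'
            have h3 := (mem_mon.1 (hmT c)).1
            omega
          · intro c hc c' hc' h
            apply hm
            have h1 := (Finset.mem_filter.1 hc).2
            have h2 := (Finset.mem_filter.1 hc').2
            funext l
            have h3 := congrFun h l
            have h4 := h1 l
            have h5 := h2 l
            simp only [Pi.sub_apply] at h3
            omega
          · intro e he
            obtain ⟨h1, h2⟩ := mem_lets.1 he
            have h5 : ∀ l, e l ≤ M i l := h1
            have h3 : M i - e ∈ mon S b := by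
              rw [mem_mon]
              refine ⟨?_, ?_⟩
              · have h4 : dg (M i - e) + dg e = dg (M i) := by
                  rw [← dg_add]
                  congr 1
                  funext l
                  have := h5 l
                  simp only [Pi.add_apply, Pi.sub_apply]; omega
                omega
              · intro l hl
                have := hgS l hl
                simp only [Pi.sub_apply]; omega
            obtain ⟨c, hc⟩ := hmS _ h3
            refine ⟨c, ?_, ?_⟩
            · rw [Finset.mem_filter]
              refine ⟨Finset.mem_univ _, ?_⟩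
              intro l
              rw [hc]; simp
            · rw [hc]
              funext l
              have := h5 l
              simp only [Pi.sub_apply]; omega
          · intro c hc
            have h1 := (Finset.mem_filter.1 hc).2
            have : M i - (M i - m c) = m c := by
              funext l
              have := h1 l
              simp only [Pi.sub_apply]; omega
            rw [this]
        rw [hbij, ← map_sum]
        obtain ⟨c1, hc1, hW1⟩ := dW_alt_mid D u v (M i)
        have hmem : dW D (alt (u ++ v) (M i)) ∈ W := by
          refine ⟨alt (u ++ v) (M i), SS_alt _ _, ?_, rfl⟩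
          have hd' : ∀ a ∈ u ++ v, dg a = D := by
            intro a ha
            rw [List.mem_append] at ha
            rcases ha with ha | ha
            · exact hd a (by simp [ha])
            · exact hd a (by simp [ha])
          have h1 := Sp_alt (u ++ v) (M i) hd'
          have hlen : (u ++ v).length + 1 = N := by
            have := congrArg List.length (huv (M i))
            simp only [List.length_ofFn, List.length_append, List.length_cons] at this ⊢
            omega
          have hγ' : (u ++ v).sum + M i = γ := by
            rw [← hsum, List.sum_append]; abel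
          rw [hγ'] at h1
          intro w f hne
          obtain ⟨a1, a2, a3, a4⟩ := h1 w f hne
          exact ⟨by omega, a2, a3, a4⟩
        have hker := hW hmem
        rw [LinearMap.mem_ker, hW1, map_smul, smul_eq_mul] at hker
        exact (mul_eq_zero.1 hker).resolve_left hc1
  obtain ⟨c, hc⟩ := hmS g hg
  have hfin := key (fun i : Fin N => A.get (i.cast hA.symm)) c
  have hofn : List.ofFn (fun i : Fin N => A.get (i.cast hA.symm)) = A := by
    subst hA
    simp
  simp only [z] at hfin
  rw [hofn, hc, if_pos ⟨rfl, fun a ha => (mem_mon.1 (hAS a ha)).1⟩] at hfin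
  exact hfin

end Pool.Agent.H86.VS
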