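import Pool.Agent.H86.VS.Comm

/-!
Evaluation at the cycles `a * zeta`, where `x * zeta` is the boundary of the wedge product of the
monomials `x^D, x^(D-1) y, ..., x y^(D-1)`.
-/

set_option linter.unusedSectionVars false

namespace Pool.Agent.H86.VS

open scoped BigOperators
open Pool.Agent.H69.VS

variable {σ : Type} [Fintype σ] [DecidableEq σ]

/-- the monomial `x^(D-i) y^i` -/
def mi (D : ℕ) (x y : σ) (i : ℕ) : σ → ℕ := (D - i) • ep x + i • ep y

/-- the word of the letters `x^(D-i) y^i`, `i < D` -/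
def Mw (D : ℕ) (x y : σ) : List (Lt σ) := (List.range D).map (fun i => Lt.E (mi D x y i))

/-- shift down -/
def sh (x : σ) (F : Fn σ) : Fn σ := fun w f => F w (f - ep x)

/-- the evaluation -/
noncomputable def Zt (D : ℕ) (x y : σ) (F : Fn σ) (a : σ → ℕ) : ℂ := dW D (sh x F) (Mw D x y) a

section
variable {D : ℕ} {x y : σ} {F G : Fn σ}

theorem dg_smul (n : ℕ) (f : σ → ℕ) : dg (n • f) = n * dg f := by
  simp [dg, Finset.mul_sum]

theorem dg_mi {i : ℕ} (hi : i ≤ D) : dg (mi D x y i) = D := by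
  unfold mi
  rw [dg_add, dg_smul, dg_smul, dg_ep, dg_ep]; omega

theorem mi_x {i : ℕ} (hi : i < D) : mi D x y i x ≠ 0 := by
  simp only [mi, Pi.add_apply, Pi.smul_apply, ep, Pi.single_eq_same, smul_eq_mul]
  omega

theorem mem_Mw {z : Lt σ} (h : z ∈ Mw D x y) : ∃ i, i < D ∧ z = Lt.E (mi D x y i) := by
  obtain ⟨i, hi, rfl⟩ := List.mem_map.1 h
  exact ⟨i, List.mem_range.1 hi, rfl⟩

theorem sh_add (F G : Fn σ) : sh x (F + G) = sh x F + sh x G := rfl
theorem sh_smul (c : ℂ) (F : Fn σ) : sh x (c • F) = c • sh x F := rfl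

theorem sg_sh (F : Fn σ) : sg (ep x) (sh x F) = F := by
  funext w f
  simp only [sg, sh]
  congr 1
  funext z; simp

theorem dW_sh {v : List (Lt σ)} {f : σ → ℕ} (hf : f x ≠ 0) :
    dW D (sh x F) v f = dW D F v (f - ep x) := by
  have h1 : sg (ep x) (dW D (sh x F)) = dW D F := by rw [← dW_sg, sg_sh]
  have h2 := congrFun (congrFun h1 v) (f - ep x)
  simp only [sg, sub_ep_add hf] at h2
  exact h2

theorem Zt_add (a : σ → ℕ) : Zt D x y (F + G) a = Zt D x y F a + Zt D x y G a := by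
  simp only [Zt, sh_add, dW_add]
theorem Zt_smul (c : ℂ) (a : σ → ℕ) : Zt D x y (c • F) a = c * Zt D x y F a := by
  simp only [Zt, sh_smul, dW_smul]
theorem Zt_neg (a : σ → ℕ) : Zt D x y (-F) a = - Zt D x y F a := by
  rw [← neg_one_smul ℂ F, Zt_smul]; ring
theorem Zt_sub (a : σ → ℕ) : Zt D x y (F - G) a = Zt D x y F a - Zt D x y G a := by
  rw [sub_eq_add_neg, Zt_add, Zt_neg]; ring
theorem Zt_zero (a : σ → ℕ) : Zt D x y (0 : Fn σ) a = 0 := by
  have := Zt_smul (D := D) (x := x) (y := y) (F := (0 : Fn σ)) 0 a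
  simpa using this

theorem Mw_kill {H U : Fn σ} (h : ∀ v f, f x ≠ 0 → H v f = dW D (sh x U) v f) (a : σ → ℕ) :
    dW D H (Mw D x y) a = 0 := by
  have h1 : dW D (H - dW D (sh x U)) (Mw D x y) a = 0 := by
    by_contra hne
    obtain ⟨u, e, v, h2, h3, h4⟩ := dW_ne D _ _ _ hne
    apply h4
    have h5 : Lt.E e ∈ Mw D x y := by rw [h2]; simp
    obtain ⟨i, hi, h6⟩ := mem_Mw h5
    have h7 : e = mi D x y i := by injection h6
    simp only [Pi.sub_apply]
    rw [h, sub_self]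
    simp only [Pi.add_apply]
    have := mi_x (x := x) (y := y) hi
    rw [← h7] at this
    omega
  rw [dW_sub', dW_dW, sub_zero] at h1
  exact h1

theorem Zt_bn (h : Bn D F) (a : σ → ℕ) : Zt D x y F a = 0 := by
  obtain ⟨U, _, rfl⟩ := h
  apply Mw_kill (U := U)
  intro v f hf
  rw [dW_sh hf]
  rfl

theorem Zt_x (h : dW D F = 0) {a : σ → ℕ} (ha : a x ≠ 0) : Zt D x y F a = 0 := by
  unfold Zt
  rw [dW_sh ha, h]
  rfl

theorem Zt_sg (a : σ → ℕ) : Zt D x y F a = dW D (sg a (sh x F)) (Mw D x y) 0 := by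
  rw [dW_sg]
  simp [Zt, sg]

/-- the relation of four terms -/
theorem Zt_rel {F0 F1 F2 F3 : Fn σ} {a0 a1 a2 a3 : σ → ℕ}
    (h : Bn D (sg a0 F0 + sg a1 F1 + sg a2 F2 + sg a3 F3)) :
    Zt D x y F0 a0 + Zt D x y F1 a1 + Zt D x y F2 a2 + Zt D x y F3 a3 = 0 := by
  obtain ⟨U, _, hU⟩ := h
  rw [Zt_sg, Zt_sg, Zt_sg, Zt_sg, ← dW_add, ← dW_add, ← dW_add]
  apply Mw_kill (U := U)
  intro v f hf
  rw [dW_sh hf, hU]
  have h1 : ∀ (a : σ → ℕ) (F : Fn σ), sg a (sh x F) v f = sg a F v (f - ep x) := by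
    intro a F
    simp only [sg, sh]
    congr 1
    funext z
    by_cases hz : z = x
    · subst hz; simp only [Pi.add_apply, Pi.sub_apply, ep, Pi.single_eq_same]; omega
    · simp [ep, hz]
  simp only [Pi.add_apply, h1]

theorem sh_rW (k i : σ) (F : Fn σ) : sh x (rW k i F) = rW k i (sh x F) := by
  have h0 : ∀ (c : Lt σ) (F : Fn σ), Af c (sh x F) = sh x (Af c F) := fun _ _ => rfl
  rw [← sub_eq_zero]
  refine rec_zero (fun F => sh x (rW k i F) - rW k i (sh x F)) (by simp [sh]) ?_ F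
  intro F c
  cases c with
  | T y =>
    refine ⟨1, ?_⟩
    simp only [Af_sub, h0, AT_rW, sh_add, sh_smul]
    module
  | E e =>
    refine ⟨1, ?_⟩
    simp only [Af_sub, h0, AE_rW, sh_add, sh_smul]
    module

theorem sh_R {k y : σ} (hk : k ≠ x) (hy : y ≠ x) (F : Fn σ) : sh x (R k y F) = R k y (sh x F) := by
  have h1 : sh x (ta k (sg (ep y) F)) = ta k (sg (ep y) (sh x F)) := by
    funext w f
    simp only [sh, ta, sg]
    have e1 : (f - ep x) k = f k := by simp [ep, hk]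
    have e2 : f - ep x - ep k + ep y = f - ep k + ep y - ep x := by
      funext z
      simp only [Pi.add_apply, Pi.sub_apply, ep, Pi.single_apply]
      by_cases hz : z = x
      · subst hz
        simp only [if_neg hk.symm, if_neg hy.symm, if_true]
        omega
      · simp only [if_neg hz]
        omega
    rw [e1, e2]
  rw [R, sh_add, sh_rW, h1]
  rfl

theorem rW_letters (k i : σ) : ∀ (w : List (Lt σ)), (∀ z ∈ w, ∃ e, z = Lt.E e ∧ e k = 0) →
    ∀ (F : Fn σ) (f : σ → ℕ), rW k i F w f = 0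
  | [], _, F, f => by simp
  | z :: w, h, F, f => by
    obtain ⟨e, rfl, he⟩ := h z List.mem_cons_self
    simp only [rW]
    rw [he, rW_letters k i w (fun z hz => h z (List.mem_cons_of_mem _ hz))]
    simp

theorem Zt_R {k : σ} (hkx : k ≠ x) (hky : k ≠ y) (hxy : y ≠ x) (a : σ → ℕ) :
    Zt D x y (R k y F) a = (a k : ℂ) * Zt D x y F (a - ep k + ep y) := by
  unfold Zt
  rw [sh_R hkx hxy, ← R_dW]
  simp only [R, Pi.add_apply]
  rw [rW_letters, zero_add]
  · rfl
  · intro z hz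
    obtain ⟨i, _, rfl⟩ := mem_Mw hz
    refine ⟨_, rfl, ?_⟩
    simp [mi, ep, hkx, hky]

theorem Zt_wt {ν : σ → ℕ} {t : ℕ} (hF : Sp D 0 0 t 0 ν F) {a : σ → ℕ}
    (h : Zt D x y F a ≠ 0) : ν + ep x = md (Mw D x y) + a := by
  obtain ⟨u, e, v, h2, h3, h4⟩ := dW_ne D _ _ _ h
  have h5 : Lt.E e ∈ Mw D x y := by rw [h2]; simp
  obtain ⟨i, hi, h6⟩ := mem_Mw h5
  have h7 : e = mi D x y i := by injection h6
  have h8 : e x ≠ 0 := by rw [h7]; exact mi_x hi
  obtain ⟨a1, a2, a3, a4⟩ := hF _ _ h4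
  rw [h2, ← a3]
  simp only [md_append, md]
  funext z
  simp only [Pi.add_apply, Pi.sub_apply]
  by_cases hz : z = x
  · subst hz; simp only [ep, Pi.single_eq_same]; omega
  · simp only [ep, Pi.single_apply, if_neg hz]; omega

theorem md_map_sum (A : List (σ → ℕ)) : md (A.map Lt.E) = A.sum := by
  induction A with
  | nil => rfl
  | cons a A ih => simp only [List.map_cons, md, List.sum_cons, ih]

theorem sum_range_list (f : ℕ → (σ → ℕ)) (n : ℕ) :
    ((List.range n).map f).sum = ∑ i ∈ Finset.range n, f i := by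
  induction n with
  | zero => simp
  | succ n ih => rw [List.range_succ, List.map_append, List.sum_append, ih, Finset.sum_range_succ]; simp

theorem md_Mw (D : ℕ) (x y : σ) :
    md (Mw D x y) = (∑ i ∈ Finset.range D, (D - i)) • ep x + (∑ i ∈ Finset.range D, i) • ep y := by
  have h1 : Mw D x y = ((List.range D).map (mi D x y)).map Lt.E := by
    simp [Mw, List.map_map, Function.comp_def]
  rw [h1, md_map_sum, sum_range_list]
  simp only [mi, Finset.sum_add_distrib, Finset.sum_smul]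

theorem two_sum (D : ℕ) : 2 * ∑ i ∈ Finset.range D, i = D * (D - 1) := by
  rw [mul_comm, Finset.sum_range_id_mul_two]

theorem two_sum' (D : ℕ) : 2 * ∑ i ∈ Finset.range D, (D - i) = D * (D + 1) := by
  have h1 : ∑ i ∈ Finset.range D, (D - i) = ∑ i ∈ Finset.range (D + 1), i := by
    rw [← Finset.sum_range_reflect, Finset.sum_range_succ']
    simp only [add_zero]
    apply Finset.sum_congr rfl
    intro i hi
    have := Finset.mem_range.1 hi
    omega
  rw [h1, mul_comm, Finset.sum_range_id_mul_two]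
  simp [mul_comm]

/-- the number `c` -/
def cc (D : ℕ) : ℕ := (D - 1) * (D + 2) / 2

theorem two_cc (D : ℕ) (hD : 1 ≤ D) : 2 * cc D = (D - 1) * (D + 2) := by
  unfold cc
  have h1 : 2 ∣ (D - 1) * (D + 2) := by
    obtain ⟨E, rfl⟩ : ∃ E, D = E + 1 := ⟨D - 1, by omega⟩
    have h2 : (E + 1 - 1) * (E + 1 + 2) = E * (E + 1) + 2 * E := by
      simp only [Nat.add_sub_cancel]; ring
    rw [h2]
    exact Nat.dvd_add (Nat.even_mul_succ_self E).two_dvd (Dvd.intro E rfl)
  omega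

theorem md_Mw_x (hD : 1 ≤ D) (hxy : y ≠ x) : md (Mw D x y) x = cc D + 1 := by
  rw [md_Mw]
  simp only [Pi.add_apply, Pi.smul_apply, ep, Pi.single_eq_same, Pi.single_apply, if_neg hxy.symm,
    smul_eq_mul, mul_one, mul_zero, add_zero]
  have h1 := two_sum' D
  have h2 := two_cc D hD
  obtain ⟨E, rfl⟩ : ∃ E, D = E + 1 := ⟨D - 1, by omega⟩
  simp only [Nat.add_sub_cancel] at h2
  nlinarith

theorem md_Mw_y (hD : 1 ≤ D) (hxy : y ≠ x) : md (Mw D x y) y + (D - 1) = cc D := by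
  rw [md_Mw]
  simp only [Pi.add_apply, Pi.smul_apply, ep, Pi.single_eq_same, Pi.single_apply, if_neg hxy,
    smul_eq_mul, mul_one, mul_zero, zero_add]
  have h1 := two_sum D
  have h2 := two_cc D hD
  obtain ⟨E, rfl⟩ : ∃ E, D = E + 1 := ⟨D - 1, by omega⟩
  simp only [Nat.add_sub_cancel] at h1 h2 ⊢
  nlinarith

theorem md_Mw_k {k : σ} (hkx : k ≠ x) (hky : k ≠ y) : md (Mw D x y) k = 0 := by
  rw [md_Mw]
  simp [ep, hkx, hky]

end

end Pool.Agent.H86.VS
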